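import Pool.Agent.Lib.MP_d9512b_co.Far

set_option autoImplicit false

/-!
Large graphs have a vertex of large degree or two vertices at large distance.
-/

namespace Pool.Agent.Lib.MP_d9512b_co

open Set

variable {V : Type*} {G : SimpleGraph V}

theorem ncard_cover_le [Finite V] (A : Set V) (f : V → Set V) (m : ℕ)
    (h : ∀ a, (f a).ncard ≤ m) : {x | ∃ a ∈ A, x ∈ f a}.ncard ≤ A.ncard * m := by
  induction A, toFinite A using Set.Finite.induction_on with
  | empty => simp
  | @insert a S ha _ ih =>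
    have h1 : {x | ∃ b ∈ insert a S, x ∈ f b} ⊆ f a ∪ {x | ∃ b ∈ S, x ∈ f b} := by
      rintro x ⟨b, (rfl | hb), hx⟩
      · exact Or.inl hx
      · exact Or.inr ⟨b, hb, hx⟩
    have h2 := ncard_le_ncard h1 (toFinite _)
    have h3 := ncard_union_le (f a) {x | ∃ b ∈ S, x ∈ f b}
    have h4 := h a
    rw [ncard_insert_of_notMem ha (toFinite _), add_mul, one_mul]
    omega

theorem ball_card [Finite V] (u : V) (D : ℕ) (hall : ∀ x, Rc G univ u x)
    (hD : ∀ x, (Nb G {x}).ncard ≤ D) (k : ℕ) :
    {x | lv G u x ≤ k + 1}.ncard ≤ (D + 1) ^ k := by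
  induction k with
  | zero =>
    have h1 : {x | lv G u x ≤ 0 + 1} ⊆ {u} := by
      intro x hx
      obtain ⟨C, -, hu, hx', hc⟩ := lv_spec (hall x)
      rw [mem_ofPred_eq] at hx
      have h2 : C.ncard ≤ 1 := by omega
      rw [ncard_le_one_iff] at h2
      exact h2 hx' hu
    have := ncard_le_ncard h1 (toFinite _)
    rw [ncard_singleton] at this
    simpa using this
  | succ k ih =>
    have h1 : {x | lv G u x ≤ k + 1 + 1} ⊆
        {x | ∃ a ∈ {x | lv G u x ≤ k + 1}, x ∈ insert a (Nb G {a})} := by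
      intro x hx
      rw [mem_ofPred_eq] at hx
      by_cases hxu : x = u
      · subst hxu
        refine ⟨x, ?_, Or.inl rfl⟩
        have := lv_le (con_singleton (G := G) x) rfl rfl
        rw [ncard_singleton] at this
        show lv G x x ≤ k + 1
        omega
      · obtain ⟨y, hyx, hlt⟩ := lv_pred (hall x) hxu
        refine ⟨y, ?_, Or.inr ⟨hyx.ne', y, rfl, hyx⟩⟩
        show lv G u y ≤ k + 1
        omega
    have h2 := ncard_cover_le {x | lv G u x ≤ k + 1} (fun a => insert a (Nb G {a})) (D + 1)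
      (fun a => (ncard_insert_le _ _).trans (Nat.succ_le_succ (hD a)))
    have h3 := ncard_le_ncard h1 (toFinite _)
    rw [pow_succ]
    exact h3.trans (h2.trans (Nat.mul_le_mul_right _ ih))

/-- A vertex of large degree or two vertices at large distance. -/
theorem Cn5.hub_or_far [Finite V] (h : Cn5 G) (D n : ℕ) (hc : (D + 1) ^ n < Nat.card V) :
    (∃ w, D < (Nb G {w}).ncard) ∨
      ∃ u v, ∀ C, Con G C → u ∈ C → v ∈ C → n ≤ C.ncard := by
  by_cases hD : ∃ w, D < (Nb G {w}).ncard
  · exact Or.inl hD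
  · right
    push Not at hD
    have hpos : 0 < Nat.card V := by omega
    obtain ⟨⟨u⟩, -⟩ := Nat.card_pos_iff.1 hpos
    have h1 := ball_card u D (h.rc_univ u) hD n
    obtain ⟨v, hv⟩ : ∃ v, v ∉ {x | lv G u x ≤ n + 1} := by
      by_contra hcon
      push Not at hcon
      have h2 : {x | lv G u x ≤ n + 1} = univ := eq_univ_of_forall hcon
      rw [h2, ncard_univ] at h1
      omega
    refine ⟨u, v, fun C hC hu hv' => ?_⟩
    have h2 := lv_le hC hu hv'
    rw [mem_ofPred_eq] at hv
    omega

end Pool.Agent.Lib.MP_d9512b_co
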