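import Mathlib

set_option autoImplicit false

/-!
Connected sets of vertices of a graph (API for the contractible subgraphs of 5-connected graphs).
-/

namespace Pool.Agent.Lib.MP_d9512b_co

open Set

variable {V : Type*}

/-- `y` can be reached from `x` inside `U`. -/
def Rc (G : SimpleGraph V) (U : Set V) (x y : V) : Prop :=
  x ∈ U ∧ Relation.ReflTransGen (fun a b => G.Adj a b ∧ b ∈ U) x y

/-- Connected sets. -/
def Con (G : SimpleGraph V) (C : Set V) : Prop := C.Nonempty ∧ ∀ x ∈ C, ∀ y ∈ C, Rc G C x y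

/-- The component of `x` in `U`. -/
def cmp (G : SimpleGraph V) (U : Set V) (x : V) : Set V := {y | Rc G U x y}

/-- The neighbours of `C` outside `C`. -/
def Nb (G : SimpleGraph V) (C : Set V) : Set V := {v | v ∉ C ∧ ∃ c ∈ C, G.Adj c v}

/-- Connected sets without cutvertices. -/
def Sol (G : SimpleGraph V) (B : Set V) : Prop :=
  Con G B ∧ ∀ y ∈ B, ∀ a ∈ B, ∀ b ∈ B, a ≠ y → b ≠ y → Rc G (B \ {y}) a b

/-- The connectivity of the graph is at least `5`. -/
def Cn5 (G : SimpleGraph V) : Prop :=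
  6 ≤ Nat.card V ∧ ∀ X : Set V, X.ncard ≤ 4 → ∀ a b, a ∉ X → b ∉ X → Rc G Xᶜ a b

/-- Connected sets with `n` elements whose complement is `2`-connected. -/
structure Good (G : SimpleGraph V) (n : ℕ) (S : Set V) : Prop where
  card : S.ncard = n
  con : Con G S
  sol : Sol G Sᶜ
  three : 3 ≤ Sᶜ.ncard

variable {G : SimpleGraph V} {U U' C D X : Set V} {x y z : V}

/-! ### Reachability -/

theorem Rc.left_mem (h : Rc G U x y) : x ∈ U := h.1

theorem Rc.right_mem (h : Rc G U x y) : y ∈ U := by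
  obtain ⟨hx, h⟩ := h
  induction h with
  | refl => exact hx
  | tail _ h2 _ => exact h2.2

theorem Rc.refl (h : x ∈ U) : Rc G U x x := ⟨h, Relation.ReflTransGen.refl⟩

theorem Rc.trans (h : Rc G U x y) (h' : Rc G U y z) : Rc G U x z := ⟨h.1, h.2.trans h'.2⟩

theorem Rc.tail (h : Rc G U x y) (ha : G.Adj y z) (hz : z ∈ U) : Rc G U x z :=
  ⟨h.1, h.2.tail ⟨ha, hz⟩⟩

theorem Rc.adj (hx : x ∈ U) (hy : y ∈ U) (ha : G.Adj x y) : Rc G U x y := (Rc.refl hx).tail ha hy

theorem Rc.head (ha : G.Adj x y) (hx : x ∈ U) (h : Rc G U y z) : Rc G U x z :=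
  (Rc.adj hx h.left_mem ha).trans h

/-- Induction on reachability. -/
theorem Rc.induct {P : V → Prop} (h : Rc G U x y) (h0 : P x)
    (h1 : ∀ a b, Rc G U x a → P a → b ∈ U → G.Adj a b → P b) : P y := by
  obtain ⟨hx, h⟩ := h
  induction h with
  | refl => exact h0
  | tail h2 h3 ih => exact h1 _ _ ⟨hx, h2⟩ ih h3.2 h3.1

theorem Rc.symm (h : Rc G U x y) : Rc G U y x :=
  h.induct (P := fun y => Rc G U y x) (Rc.refl h.left_mem)
    (fun _ _ _ h2 hb hab => h2.head hab.symm hb)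

theorem Rc.mono (h : Rc G U x y) (hU : U ⊆ U') : Rc G U' x y :=
  h.induct (P := fun y => Rc G U' x y) (Rc.refl (hU h.left_mem))
    (fun _ _ _ h2 hb hab => h2.tail hab (hU hb))

theorem Rc.mono_graph {G' : SimpleGraph V} (h : Rc G U x y) (hG : G ≤ G') : Rc G' U x y :=
  h.induct (P := fun y => Rc G' U x y) (Rc.refl h.left_mem)
    (fun _ _ _ h2 hb hab => h2.tail (hG hab) hb)

/-- A set which is closed in `U` contains everything that can be reached. -/
theorem Rc.mem_closed (h : Rc G U x y) (hx : x ∈ X)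
    (hX : ∀ a ∈ X, ∀ b ∈ U, G.Adj a b → b ∈ X) : y ∈ X :=
  h.induct hx (fun _ _ _ ha hb hab => hX _ ha _ hb hab)

/-- A path from `X` to its complement uses an edge. -/
theorem Rc.exists_edge (h : Rc G U x y) (hx : x ∈ X) (hy : y ∉ X) :
    ∃ a ∈ X, ∃ b, b ∉ X ∧ a ∈ U ∧ b ∈ U ∧ G.Adj a b ∧ Rc G U x a := by
  by_contra hcon
  push Not at hcon
  apply hy
  refine (h.induct (P := fun y => y ∈ X ∧ Rc G U x y) ⟨hx, Rc.refl h.left_mem⟩ ?_).1
  rintro a b h1 ⟨ha, -⟩ hb hab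
  refine ⟨?_, h1.tail hab hb⟩
  by_contra hbX
  exact hcon a ha b hbX h1.right_mem hb hab h1

/-- The first edge leaving `X`, the path before it stays in `X`. -/
theorem Rc.exists_first (h : Rc G U x y) (hx : x ∈ X) (hy : y ∉ X) :
    ∃ a b, Rc G (U ∩ X) x a ∧ b ∉ X ∧ b ∈ U ∧ G.Adj a b := by
  by_contra hcon
  push Not at hcon
  apply hy
  have h1 : Rc G (U ∩ X) x y :=
    h.induct (P := fun y => Rc G (U ∩ X) x y) (Rc.refl ⟨h.left_mem, hx⟩)
      (fun a b _ h2 hb hab => h2.tail hab ⟨hb, by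
        by_contra hbX
        exact hcon a b h2 hbX hb hab⟩)
  exact h1.right_mem.2

/-! ### Connected sets -/

theorem Con.rc (h : Con G C) (hC : C ⊆ U) (hx : x ∈ C) (hy : y ∈ C) : Rc G U x y :=
  (h.2 x hx y hy).mono hC

theorem con_singleton (x : V) : Con G {x} := by
  refine ⟨⟨x, rfl⟩, ?_⟩
  rintro a ha b hb
  rw [mem_singleton_iff] at ha hb
  subst ha hb
  exact Rc.refl rfl

theorem Con.union_adj (hC : Con G C) (hD : Con G D) (hx : x ∈ C) (hy : y ∈ D)
    (h : G.Adj x y) : Con G (C ∪ D) := by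
  have h1 : ∀ a ∈ C ∪ D, Rc G (C ∪ D) a x := by
    rintro a (ha | ha)
    · exact hC.rc subset_union_left ha hx
    · exact (hD.rc subset_union_right ha hy).trans
        (Rc.adj (Or.inr hy) (Or.inl hx) h.symm)
  exact ⟨⟨x, Or.inl hx⟩, fun a ha b hb => (h1 a ha).trans (h1 b hb).symm⟩

theorem Con.union (hC : Con G C) (hD : Con G D) (hx : x ∈ C) (hy : x ∈ D) :
    Con G (C ∪ D) := by
  have h1 : ∀ a ∈ C ∪ D, Rc G (C ∪ D) a x := by
    rintro a (ha | ha)
    · exact hC.rc subset_union_left ha hx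
    · exact hD.rc subset_union_right ha hy
  exact ⟨⟨x, Or.inl hx⟩, fun a ha b hb => (h1 a ha).trans (h1 b hb).symm⟩

theorem Con.ins (hC : Con G C) (hx : x ∈ C) (h : G.Adj x y) : Con G (insert y C) := by
  rw [← union_singleton]
  exact hC.union_adj (con_singleton y) hx rfl h

theorem con_pair (h : G.Adj x y) : Con G {x, y} := by
  have := (con_singleton (G := G) y).ins (y := x) rfl h.symm
  exact this

theorem Con.mono_graph {G' : SimpleGraph V} (h : Con G C) (hG : G ≤ G') : Con G' C :=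
  ⟨h.1, fun x hx y hy => (h.2 x hx y hy).mono_graph hG⟩

/-- In a connected set each proper nonempty subset has a neighbour. -/
theorem Con.exists_edge (h : Con G U) (hx : x ∈ X) (hxU : x ∈ U) (hy : y ∉ X) (hyU : y ∈ U) :
    ∃ a ∈ X, ∃ b, b ∉ X ∧ a ∈ U ∧ b ∈ U ∧ G.Adj a b := by
  obtain ⟨a, ha, b, hb, h1, h2, h3, -⟩ := (h.2 x hxU y hyU).exists_edge hx hy
  exact ⟨a, ha, b, hb, h1, h2, h3⟩

/-! ### Components -/

theorem cmp_subset : cmp G U x ⊆ U := fun _ h => Rc.right_mem h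

theorem mem_cmp_self (h : x ∈ U) : x ∈ cmp G U x := Rc.refl h

theorem cmp_closed (hy : y ∈ cmp G U x) (hz : z ∈ U) (h : G.Adj y z) : z ∈ cmp G U x :=
  Rc.tail hy h hz

theorem rc_cmp (h : Rc G U x y) : Rc G (cmp G U x) x y :=
  h.induct (P := fun y => Rc G (cmp G U x) x y) (Rc.refl (mem_cmp_self h.left_mem))
    (fun _ _ h1 h2 hb hab => h2.tail hab (h1.tail hab hb))

theorem con_cmp (h : x ∈ U) : Con G (cmp G U x) :=
  ⟨⟨x, mem_cmp_self h⟩, fun _ ha _ hb => (rc_cmp ha).symm.trans (rc_cmp hb)⟩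

/-- A connected set in `U` which meets a component lies in it. -/
theorem Con.subset_cmp (hC : Con G C) (hCU : C ⊆ U) (hy : y ∈ C) (hyx : y ∈ cmp G U x) :
    C ⊆ cmp G U x := fun _ hz => Rc.trans hyx (hC.rc hCU hy hz)

theorem cmp_mono (h : U ⊆ U') : cmp G U x ⊆ cmp G U' x := fun _ hy => Rc.mono hy h

theorem cmp_eq (h : y ∈ cmp G U x) : cmp G U y = cmp G U x := by
  ext z
  exact ⟨fun hz => Rc.trans h hz, fun hz => Rc.trans (Rc.symm h) hz⟩

/-- Neighbours of a component of `U` are outside of `U`. -/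
theorem notMem_of_mem_nb_cmp (h : y ∈ Nb G (cmp G U x)) : y ∉ U := by
  obtain ⟨h1, c, hc, hcy⟩ := h
  exact fun hy => h1 (cmp_closed hc hy hcy)

theorem mem_nb (hy : y ∉ C) (hx : x ∈ C) (h : G.Adj x y) : y ∈ Nb G C := ⟨hy, x, hx, h⟩

theorem Con.nb_ins (hC : Con G C) (hy : y ∈ Nb G C) : Con G (insert y C) := by
  obtain ⟨-, c, hc, h⟩ := hy
  exact hC.ins hc h

/-! ### Connectivity -/

/-- Sets with few neighbours. -/
theorem Cn5.le_nb [Finite V] (h : Cn5 G) (hx : x ∈ C) (hz : z ∉ C) (hz' : z ∉ Nb G C) :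
    5 ≤ (Nb G C).ncard := by
  by_contra hcon
  push Not at hcon
  have h1 := h.2 (Nb G C) (by omega) x z (fun h2 => h2.1 hx) hz'
  have h2 : z ∈ C := by
    refine h1.mem_closed hx fun a ha b hb hab => ?_
    by_contra hbC
    exact hb ⟨hbC, a, ha, hab⟩
  exact hz h2

/-- All degrees are at least five. -/
theorem Cn5.five_le_nb_singleton [Finite V] (h : Cn5 G) (x : V) :
    5 ≤ (Nb G {x}).ncard := by
  by_cases h1 : ∃ z, z ≠ x ∧ z ∉ Nb G {x}
  · obtain ⟨z, hz, hz'⟩ := h1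
    exact h.le_nb (x := x) rfl hz hz'
  · push Not at h1
    have h2 : (univ : Set V) ⊆ insert x (Nb G {x}) := by
      intro z _
      by_cases hz : z = x
      · exact Or.inl hz
      · exact Or.inr (h1 z hz)
    have h3 := ncard_le_ncard h2
    have h4 := ncard_insert_le x (Nb G {x})
    rw [ncard_univ] at h3
    have := h.1
    omega

/-! ### Growth -/

/-- A connected subset of a connected set can be enlarged by a vertex. -/
theorem Con.exists_grow (hD : Con G D) (hC : Con G C) (hCD : C ⊆ D) (hne : C ≠ D) :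
    ∃ z ∈ D, z ∉ C ∧ Con G (insert z C) := by
  obtain ⟨z, hz, hzC⟩ := exists_of_ssubset (hCD.ssubset_of_ne hne)
  obtain ⟨x, hx⟩ := hC.1
  obtain ⟨a, ha, b, hb, h1, h2, h3⟩ := hD.exists_edge hx (hCD hx) hzC hz
  exact ⟨b, h2, hb, hC.ins ha h3⟩

/-- Connected subsets of given size. -/
theorem Con.exists_card [Finite V] (hD : Con G D) (hx : x ∈ D) {k : ℕ} (hk : 1 ≤ k)
    (hkD : k ≤ D.ncard) : ∃ S ⊆ D, x ∈ S ∧ Con G S ∧ S.ncard = k := by
  induction k, hk using Nat.le_induction with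
  | base => exact ⟨{x}, singleton_subset_iff.2 hx, rfl, con_singleton x, ncard_singleton x⟩
  | succ k hk ih =>
    obtain ⟨S, hS, hxS, hc, hcard⟩ := ih (by omega)
    obtain ⟨z, hz, hzS, hcz⟩ := hD.exists_grow hc hS (by
      rintro rfl
      omega)
    exact ⟨insert z S, insert_subset hz hS, mem_insert_of_mem _ hxS, hcz, by
      rw [ncard_insert_of_notMem hzS, hcard]⟩

/-- A vertex which is not a cutvertex. -/
theorem Con.exists_noncut [Finite V] (hD : Con G D) (h2 : 2 ≤ D.ncard) :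
    ∃ z ∈ D, Con G (D \ {z}) := by
  obtain ⟨x, hx⟩ := hD.1
  obtain ⟨S, hS, -, hc, hcard⟩ := hD.exists_card hx (k := D.ncard - 1) (by omega) (by omega)
  obtain ⟨z, hz, hzS⟩ : ∃ z ∈ D, z ∉ S := by
    by_contra hcon
    push Not at hcon
    have := ncard_le_ncard (show D ⊆ S from hcon)
    omega
  refine ⟨z, hz, ?_⟩
  have h3 : D \ {z} = S := by
    symm
    refine eq_of_subset_of_ncard_le (t := D \ {z}) ?_ ?_ (Set.toFinite _)
    · intro a ha
      exact ⟨hS ha, fun h => hzS (by rw [mem_singleton_iff] at h; rwa [← h])⟩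
    · rw [ncard_sdiff_singleton_of_mem hz]
      omega
  rw [h3]
  exact hc

/-! ### Solid sets -/

theorem Sol.con {B : Set V} (h : Sol G B) : Con G B := h.1

/-- Without one vertex a solid set remains connected. -/
theorem Sol.rc {B : Set V} (h : Sol G B) (y : V) {a b : V} (ha : a ∈ B) (hb : b ∈ B)
    (hay : a ≠ y) (hby : b ≠ y) : Rc G (B \ {y}) a b := by
  by_cases hy : y ∈ B
  · exact h.2 y hy a ha b hb hay hby
  · rw [sdiff_singleton_eq_self hy]
    exact h.1.2 a ha b hb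

/-- Solid sets: connected after the removal of each single vertex. -/
theorem sol_of_rc {B : Set V} (hne : B.Nonempty)
    (h : ∀ y, ∀ a ∈ B, ∀ b ∈ B, a ≠ y → b ≠ y → Rc G (B \ {y}) a b) (h0 : ∃ y, y ∉ B) :
    Sol G B := by
  refine ⟨⟨hne, fun a ha b hb => ?_⟩, fun y _ => h y⟩
  obtain ⟨y, hy⟩ := h0
  have h1 := h y a ha b hb (fun e => hy (e ▸ ha)) (fun e => hy (e ▸ hb))
  rwa [sdiff_singleton_eq_self hy] at h1

/-- Adding vertices with two neighbours in a solid set. -/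
theorem Sol.union_of_two {B : Set V} (h : Sol G B) {D : Set V}
    (hD : ∀ d ∈ D, ∃ b ∈ B, ∃ b' ∈ B, b ≠ b' ∧ G.Adj d b ∧ G.Adj d b') : Sol G (B ∪ D) := by
  obtain ⟨b0, hb0⟩ := h.1.1
  constructor
  · have h1 : ∀ a ∈ B ∪ D, Rc G (B ∪ D) a b0 := by
      rintro a (ha | ha)
      · exact h.1.rc subset_union_left ha hb0
      · obtain ⟨b, hb, -, -, -, hab, -⟩ := hD a ha
        exact (Rc.adj (U := B ∪ D) (Or.inr ha) (Or.inl hb) hab).trans
          (h.1.rc subset_union_left hb hb0)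
    exact ⟨⟨b0, Or.inl hb0⟩, fun a ha b hb => (h1 a ha).trans (h1 b hb).symm⟩
  · intro y _
    have h1 : ∀ a ∈ B ∪ D, a ≠ y → ∃ b ∈ B, b ≠ y ∧ Rc G ((B ∪ D) \ {y}) a b := by
      rintro a (ha | ha) hay
      · exact ⟨a, ha, hay, Rc.refl ⟨Or.inl ha, hay⟩⟩
      · obtain ⟨b, hb, b', hb', hne, hab, hab'⟩ := hD a ha
        by_cases hby : b = y
        · exact ⟨b', hb', fun e => hne (hby.trans e.symm),
            Rc.adj ⟨Or.inr ha, hay⟩ ⟨Or.inl hb', fun e => hne (hby.trans e.symm)⟩ hab'⟩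
        · exact ⟨b, hb, hby, Rc.adj ⟨Or.inr ha, hay⟩ ⟨Or.inl hb, hby⟩ hab⟩
    intro a ha b hb hay hby
    obtain ⟨a', ha', hay', h2⟩ := h1 a ha hay
    obtain ⟨b', hb', hby', h3⟩ := h1 b hb hby
    exact (h2.trans ((h.rc y ha' hb' hay' hby').mono
      (sdiff_subset_sdiff_left subset_union_left))).trans h3.symm

end Pool.Agent.Lib.MP_d9512b_co
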