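import Pool.Agent.Lib.MP_d9512b_co.Hub

set_option autoImplicit false

/-!
Contractible subgraphs of 5-connected graphs.
-/

namespace Pool.Agent.Lib.MP_d9512b_co

open Set

/-- Large 5-connected graphs have a connected set of `n` vertices with solid complement. -/
theorem exists_good (n : ℕ) (hn : 1 ≤ n) : ∃ N : ℕ, ∀ (V : Type) [Finite V] (G : SimpleGraph V),
    N ≤ Nat.card V → Cn5 G → ∃ S, Good G n S := by
  classical
  obtain ⟨D, hD⟩ := ram n (1 + (2 * ((2 * n + 1) * n) + 4 * n + 3) * n)
  refine ⟨(D + 1) ^ n + n + 4, fun V _ G hc h => ?_⟩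
  rcases h.hub_or_far D n (by omega) with ⟨w, hw⟩ | ⟨u, v, hfar⟩
  swap
  · exact h.good_of_far hn hfar
  obtain ⟨A, hAN, hAc, hhom, hdag⟩ := hD V G h w hw.le
  have hwA : w ∉ A := fun e => (hAN e).1 rfl
  have hAw : ∀ z ∈ A, G.Adj w z := by
    intro z hz
    obtain ⟨-, c, hc, hcz⟩ := hAN hz
    rw [mem_singleton_iff] at hc
    exact hc ▸ hcz
  have hV : n + 3 ≤ Nat.card V := by omega
  by_cases hgood : ∃ B ⊆ A, B.ncard = n - 1 ∧ ¬ Bad G w B
  · obtain ⟨B, hB, hBc, hbad⟩ := hgood
    have hwB : w ∉ B := fun e => hwA (hB e)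
    refine ⟨insert w B, good_of_rc (con_star fun z hz => hAw z (hB hz)) ?_ hV ?_⟩
    · rw [ncard_insert_of_notMem hwB (toFinite _), hBc]
      omega
    · intro y hy p q hp hq
      unfold Bad at hbad
      push Not at hbad
      have hsub : ∀ z, z ∉ Zs w y B ↔ z ∉ insert y (insert w B) := by
        intro z
        rw [notMem_Zs, mem_insert_iff, mem_insert_iff]
        tauto
      refine (hbad y (fun e => hy (Or.inl e)) (fun e => hy (Or.inr e)) p q ((hsub p).2 hp)
        ((hsub q).2 hq)).mono fun z hz => (hsub z).1 hz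
  · push Not at hgood
    have hex : ∃ b, ∀ B ⊆ A, B.ncard = b → Bad G w B := ⟨n - 1, hgood⟩
    set b := Nat.find hex with hb
    have hbB : ∀ B ⊆ A, B.ncard = b → Bad G w B := Nat.find_spec hex
    have hbn : b ≤ n - 1 := Nat.find_min' hex hgood
    have hLn : n * 1 ≤ (2 * ((2 * n + 1) * n) + 4 * n + 3) * n := by
      rw [mul_comm]
      exact Nat.mul_le_mul_right _ (by omega)
    have hLn' : 3 * n ≤ (2 * ((2 * n + 1) * n) + 4 * n + 3) * n :=
      Nat.mul_le_mul_right _ (by omega)
    have hb3 : 3 ≤ b := by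
      by_contra hcon
      obtain ⟨B, hB, hBc⟩ := exists_subset_card_eq (s := A) (n := b) (by omega)
      obtain ⟨y, hyw, hyB, p, q, hp, hq, hpq⟩ := hbB B hB hBc
      refine hpq (h.2 _ ?_ p q hp hq)
      have h1 := ncard_insert_le w (insert y B)
      have h2 := ncard_insert_le y B
      unfold Zs
      omega
    have hmin : ∀ B ⊆ A, B.ncard = b - 1 → ¬ Bad G w B := by
      intro B hB hBc hbad
      refine Nat.find_min hex (m := b - 1) (by omega) ?_
      intro B' hB' hBc'
      exact hhom B hB B' hB' (hBc.trans hBc'.symm) (by omega) hbad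
    have hsp : ∀ B : Set V, ∃ y U, B ⊆ A → B.ncard = b → Sp G w A B y U := by
      intro B
      by_cases hB : B ⊆ A ∧ B.ncard = b
      · obtain ⟨y, U, hU⟩ := exists_sp hwA hB.1 (by
            rw [← ncard_pos (toFinite _)]
            omega) (by omega) (hbB B hB.1 hB.2) (fun c hc => hmin _ (sdiff_subset.trans hB.1) (by
              rw [ncard_sdiff_singleton_of_mem hc, hB.2])) (hdag B hB.1)
        exact ⟨y, U, fun _ _ => hU⟩
      · exact ⟨w, ∅, fun h1 h2 => absurd ⟨h1, h2⟩ hB⟩
    choose yB UB hyU using hsp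
    refine hub_star h hn hb3 hwA hAw yB UB hyU ?_ hV
    have h1 : (2 * ((2 * n + 1) * n) + 4 * n + 3) * (b - 1) ≤
        (2 * ((2 * n + 1) * n) + 4 * n + 3) * n := Nat.mul_le_mul_left _ (by omega)
    omega

/-! ### Translation -/

theorem connected_of_con {V : Type} {G : SimpleGraph V} {U : Set V} (h : Con G U) :
    (G.induce U).Connected := by
  have h1 : ∀ x y : U, (G.induce U).Reachable x y := by
    rintro ⟨x, hx⟩ ⟨y, hy⟩
    have h2 : ∃ hy : y ∈ U, (G.induce U).Reachable ⟨x, hx⟩ ⟨y, hy⟩ := by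
      refine (h.2 x hx y hy).induct (P := fun y => ∃ hy : y ∈ U,
        (G.induce U).Reachable ⟨x, hx⟩ ⟨y, hy⟩) ⟨hx, SimpleGraph.Reachable.refl _⟩ ?_
      rintro a b - ⟨ha, hr⟩ hb hab
      refine ⟨hb, hr.trans (SimpleGraph.Adj.reachable ?_)⟩
      exact hab
    exact h2.2
  obtain ⟨x, hx⟩ := h.1
  exact (SimpleGraph.connected_iff _).2 ⟨h1, ⟨⟨x, hx⟩⟩⟩

theorem rc_of_reachable {V : Type} {G : SimpleGraph V} {U : Set V} (x y : U)
    (h : (G.induce U).Reachable x y) : Rc G U x y := by
  rw [SimpleGraph.reachable_iff_reflTransGen] at h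
  induction h with
  | refl => exact Rc.refl x.2
  | tail _ h2 ih => exact ih.tail h2 (Subtype.property _)

/-- The contraction of a good set is 3-connected. -/
theorem contract_of_good {V : Type} [Finite V] [DecidableEq V] {G : SimpleGraph V} {n : ℕ}
    (hcn : ∀ X : Set V, X.ncard ≤ 2 → ∀ a b, a ∉ X → b ∉ X → Rc G Xᶜ a b)
    {S : Finset V} (hS : Good G n (S : Set V)) {s0 : V} (hs0 : s0 ∈ S) :
    4 ≤ (insert s0 ((↑S : Set V)ᶜ)).ncard ∧
      ∀ X : Finset V, X.card ≤ 2 →
        ((SimpleGraph.fromRel (fun x y : V => ∃ a b, G.Adj a b ∧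
            (if a ∈ S then s0 else a) = x ∧ (if b ∈ S then s0 else b) = y)).induce
          (insert s0 ((↑S : Set V)ᶜ) \ (↑X : Set V))).Connected := by
  constructor
  · have h1 : s0 ∉ ((↑S : Set V)ᶜ) := fun h => h hs0
    rw [ncard_insert_of_notMem h1 (toFinite _)]
    have := hS.three
    omega
  · intro X hX
    set G' := SimpleGraph.fromRel (fun x y : V => ∃ a b, G.Adj a b ∧
      (if a ∈ S then s0 else a) = x ∧ (if b ∈ S then s0 else b) = y) with hG'
    set f : V → V := fun a => if a ∈ S then s0 else a with hf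
    have hadj : ∀ a b, G.Adj a b → f a ≠ f b → G'.Adj (f a) (f b) := by
      intro a b hab hne
      rw [hG', SimpleGraph.fromRel_adj]
      exact ⟨hne, Or.inl ⟨a, b, hab, rfl, rfl⟩⟩
    have hfix : ∀ a, a ∉ S → f a = a := fun a ha => if_neg ha
    have hfs : ∀ a, a ∈ S → f a = s0 := fun a ha => if_pos ha
    apply connected_of_con
    by_cases hsX : s0 ∈ X
    · -- the contracted vertex is deleted
      obtain ⟨y, hy⟩ : ∃ y, ∀ x ∈ X, x = s0 ∨ x = y := by
        have h1 : (X.erase s0).card ≤ 1 := by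
          rw [Finset.card_erase_of_mem hsX]
          omega
        have hne : Nonempty V := ⟨s0⟩
        obtain ⟨y, hy⟩ := Finset.card_le_one_iff_subset_singleton.1 h1
        refine ⟨y, fun x hx => ?_⟩
        by_cases hxs : x = s0
        · exact Or.inl hxs
        · exact Or.inr (Finset.mem_singleton.1 (hy (Finset.mem_erase.2 ⟨hxs, hx⟩)))
      have hmem : ∀ z, z ∉ S → z ≠ y → z ∈ insert s0 ((↑S : Set V)ᶜ) \ (↑X : Set V) := by
        intro z hz hzy
        refine ⟨Or.inr hz, fun hzX => ?_⟩
        rcases hy z hzX with h1 | h1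
        · exact hz (h1 ▸ hs0)
        · exact hzy h1
      have hmem' : ∀ z ∈ insert s0 ((↑S : Set V)ᶜ) \ (↑X : Set V), z ∉ S ∧ z ∉ X := by
        rintro z ⟨(rfl | hz), hzX⟩
        · exact absurd hsX hzX
        · exact ⟨hz, hzX⟩
      by_cases hyX : y ∈ X
      · -- one more vertex is deleted
        have hr : ∀ a ∈ (↑S : Set V)ᶜ, ∀ b ∈ (↑S : Set V)ᶜ, a ≠ y → b ≠ y →
            Rc G' (insert s0 ((↑S : Set V)ᶜ) \ (↑X : Set V)) a b := by
          intro a ha b hb hay hby
          refine (hS.sol.rc y ha hb hay hby).induct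
            (P := fun c => Rc G' (insert s0 ((↑S : Set V)ᶜ) \ (↑X : Set V)) a c)
            (Rc.refl (hmem a ha hay)) ?_
          intro p q hp ih hq hpq
          have hpS : p ∉ S := hp.right_mem.1
          have hqS : q ∉ S := hq.1
          have h1 := hadj p q hpq (by
            rw [hfix p hpS, hfix q hqS]
            exact hpq.ne)
          rw [hfix p hpS, hfix q hqS] at h1
          exact ih.tail h1 (hmem q hqS hq.2)
        constructor
        · obtain ⟨z, hz, hzy⟩ : ∃ z ∈ (↑S : Set V)ᶜ, z ≠ y := by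
            by_contra hcon
            push Not at hcon
            have h1 := ncard_le_ncard (show (↑S : Set V)ᶜ ⊆ {y} from hcon) (toFinite _)
            rw [ncard_singleton] at h1
            have := hS.three
            omega
          exact ⟨z, hmem z hz hzy⟩
        · intro a ha b hb
          refine hr a (hmem' a ha).1 b (hmem' b hb).1 ?_ ?_
          · rintro rfl
            exact (hmem' a ha).2 hyX
          · rintro rfl
            exact (hmem' b hb).2 hyX
      · have hmem2 : ∀ z, z ∉ S → z ∈ insert s0 ((↑S : Set V)ᶜ) \ (↑X : Set V) := by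
          intro z hz
          refine ⟨Or.inr hz, fun hzX => ?_⟩
          rcases hy z hzX with h1 | h1
          · exact hz (h1 ▸ hs0)
          · exact hyX (h1 ▸ hzX)
        have hr : ∀ a ∈ (↑S : Set V)ᶜ, ∀ b ∈ (↑S : Set V)ᶜ,
            Rc G' (insert s0 ((↑S : Set V)ᶜ) \ (↑X : Set V)) a b := by
          intro a ha b hb
          refine (hS.sol.con.2 a ha b hb).induct
            (P := fun c => Rc G' (insert s0 ((↑S : Set V)ᶜ) \ (↑X : Set V)) a c)
            (Rc.refl (hmem2 a ha)) ?_
          intro p q hp ih hq hpq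
          have hpS : p ∉ S := hp.right_mem
          have hqS : q ∉ S := hq
          have h1 := hadj p q hpq (by
            rw [hfix p hpS, hfix q hqS]
            exact hpq.ne)
          rw [hfix p hpS, hfix q hqS] at h1
          exact ih.tail h1 (hmem2 q hqS)
        constructor
        · obtain ⟨z, hz⟩ := hS.sol.con.1
          exact ⟨z, hmem2 z hz⟩
        · intro a ha b hb
          exact hr a (hmem' a ha).1 b (hmem' b hb).1
    · -- the contracted vertex remains
      have hs0m : s0 ∈ insert s0 ((↑S : Set V)ᶜ) \ (↑X : Set V) := ⟨Or.inl rfl, hsX⟩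
      refine ⟨⟨s0, hs0m⟩, ?_⟩
      intro a ha b hb
      have hf0 : ∀ z ∈ insert s0 ((↑S : Set V)ᶜ) \ (↑X : Set V), f z = z := by
        rintro z ⟨(rfl | hz), -⟩
        · exact hfs z hs0
        · exact hfix z hz
      have h1 := hcn (↑X : Set V) (by rwa [ncard_coe_finset]) a b ha.2 hb.2
      have h2 : Rc G' (insert s0 ((↑S : Set V)ᶜ) \ (↑X : Set V)) a (f b) := by
        refine h1.induct
          (P := fun c => Rc G' (insert s0 ((↑S : Set V)ᶜ) \ (↑X : Set V)) a (f c)) ?_ ?_
        · rw [hf0 a ha]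
          exact Rc.refl ha
        · intro p q _ ih hq hpq
          by_cases hpq' : f p = f q
          · rwa [← hpq']
          · refine ih.tail (hadj p q hpq hpq') ?_
            by_cases hqS : q ∈ S
            · rw [hfs q hqS]
              exact hs0m
            · rw [hfix q hqS]
              exact ⟨Or.inr hqS, hq⟩
      rwa [hf0 b hb] at h2

end Pool.Agent.Lib.MP_d9512b_co
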