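import Pool.Agent.Lib.MP_d9512b_co.Ear

set_option autoImplicit false

/-!
Two vertices at large distance: the complement of a maximal solid set which does not separate
them consists of cutvertices between them.
-/

namespace Pool.Agent.Lib.MP_d9512b_co

open Set

variable {V : Type*} {G : SimpleGraph V} {U B C D H K R W : Set V} {x y z u v c c' : V}

/-! ### Cutvertices between two vertices -/

/-- The vertices of `H` which separate `u` from `v` in `H`, with `u` and `v`. -/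
def Cut (G : SimpleGraph V) (H : Set V) (u v : V) : Set V := {c | c ∈ H ∧ ¬ Rc G (H \ {c}) u v}

theorem left_mem_cut (hu : u ∈ H) : u ∈ Cut G H u v := ⟨hu, fun h => h.left_mem.2 rfl⟩

theorem right_mem_cut (hv : v ∈ H) : v ∈ Cut G H u v := ⟨hv, fun h => h.right_mem.2 rfl⟩

theorem reach_cut (hH : Con G H) (hx : x ∈ H) (hc : c ∈ H) (hne : c ≠ c')
    (h : c' ∉ cmp G (H \ {c}) x) : Rc G (H \ {c'}) x c := by
  by_cases hxc : x = c
  · subst hxc
    exact Rc.refl ⟨hx, hne⟩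
  · obtain ⟨p, hp, q, hq, -, hqH, hpq⟩ := hH.exists_edge (X := cmp G (H \ {c}) x)
      (mem_cmp_self ⟨hx, hxc⟩) hx (y := c) (fun h => (cmp_subset h).2 rfl) hc
    have hqc : q = c := by
      by_contra e
      exact hq (cmp_closed hp ⟨hqH, e⟩ hpq)
    subst hqc
    refine ((rc_cmp hp).mono ?_).tail hpq ⟨hc, hne⟩
    intro z hz
    refine ⟨(cmp_subset hz).1, fun e => h ?_⟩
    rw [mem_singleton_iff] at e
    exact e ▸ hz

theorem cut_order1 (hH : Con G H) (hu : u ∈ H) (hv : v ∈ H) (hc : c ∈ Cut G H u v)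
    (hc' : c' ∈ Cut G H u v) (hne : c ≠ c') :
    c' ∈ cmp G (H \ {c}) u ∨ c' ∈ cmp G (H \ {c}) v := by
  by_contra hcon
  push Not at hcon
  exact hc'.2 ((reach_cut hH hu hc.1 hne hcon.1).trans (reach_cut hH hv hc.1 hne hcon.2).symm)

theorem cut_order2 (hc : c ∈ Cut G H u v) (h1 : x ∈ cmp G (H \ {c}) u)
    (h2 : x ∈ cmp G (H \ {c}) v) : False := hc.2 (Rc.trans h1 (Rc.symm h2))

theorem cut_order3 (hH : Con G H) (hv : v ∈ H) (hc : c ∈ Cut G H u v)
    (hne : c ≠ c') (h : c' ∈ cmp G (H \ {c}) u) : c ∈ cmp G (H \ {c'}) v :=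
  reach_cut hH hv hc.1 hne fun h' => cut_order2 hc h h'

theorem cut_order3' (hH : Con G H) (hu : u ∈ H) (hc : c ∈ Cut G H u v)
    (hne : c ≠ c') (h : c' ∈ cmp G (H \ {c}) v) : c ∈ cmp G (H \ {c'}) u :=
  reach_cut hH hu hc.1 hne fun h' => cut_order2 hc h' h

/-- Three cutvertices, each pair connected without the third. -/
theorem cut_three (hH : Con G H) (hu : u ∈ H) (hv : v ∈ H) {c1 c2 c3 : V}
    (h1 : c1 ∈ Cut G H u v) (h2 : c2 ∈ Cut G H u v) (h3 : c3 ∈ Cut G H u v)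
    (n12 : c1 ≠ c2) (n13 : c1 ≠ c3) (n23 : c2 ≠ c3) (r12 : Rc G (H \ {c3}) c1 c2)
    (r13 : Rc G (H \ {c2}) c1 c3) (r23 : Rc G (H \ {c1}) c2 c3) : False := by
  rcases cut_order1 hH hu hv h1 h2 n12 with h4 | h4
  · have h5 : c3 ∈ cmp G (H \ {c1}) u := Rc.trans h4 r23
    have h6 : c3 ∈ cmp G (H \ {c2}) v := Rc.trans (cut_order3 hH hv h1 n12 h4) r13
    have h7 : c2 ∈ cmp G (H \ {c3}) v := Rc.trans (cut_order3 hH hv h1 n13 h5) r12
    exact cut_order2 h3 (cut_order3' hH hu h2 n23 h6) h7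
  · have h5 : c3 ∈ cmp G (H \ {c1}) v := Rc.trans h4 r23
    have h6 : c3 ∈ cmp G (H \ {c2}) u := Rc.trans (cut_order3' hH hu h1 n12 h4) r13
    have h7 : c2 ∈ cmp G (H \ {c3}) u := Rc.trans (cut_order3' hH hu h1 n13 h5) r12
    exact cut_order2 h3 h7 (cut_order3 hH hv h2 n23 h6)

theorem nb_link (hW : Con G W) (hx : x ∈ Nb G W) (hy : y ∈ Nb G W) (hWU : W ⊆ U) (hxU : x ∈ U)
    (hyU : y ∈ U) : Rc G U x y := by
  obtain ⟨-, p, hp, hpx⟩ := hx
  obtain ⟨-, q, hq, hqy⟩ := hy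
  exact ((Rc.adj hxU (hWU hp) hpx.symm).trans (hW.rc hWU hp hq)).tail hqy hyU

theorem exists_three [Finite V] (h : 3 ≤ U.ncard) :
    ∃ a ∈ U, ∃ b ∈ U, ∃ c ∈ U, a ≠ b ∧ a ≠ c ∧ b ≠ c := by
  obtain ⟨a, b, c, ha, hb, hc, h1, h2, h3⟩ := (two_lt_ncard_iff (toFinite U)).1 (by omega)
  exact ⟨a, ha, b, hb, c, hc, h1, h2, h3⟩

/-- A component outside of the cutvertices has at most two neighbours in `H`. -/
theorem nb_comp_cut [Finite V] (hH : Con G H) (hu : u ∈ H) (hv : v ∈ H) (hW : Con G W)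
    (hWH : W ⊆ H \ Cut G H u v) (hN : Nb G W ∩ H ⊆ Cut G H u v) :
    (Nb G W ∩ H).ncard ≤ 2 := by
  by_contra hcon
  obtain ⟨c1, h1, c2, h2, c3, h3, n12, n13, n23⟩ := exists_three (U := Nb G W ∩ H) (by omega)
  have hsub : ∀ c ∈ Cut G H u v, W ⊆ H \ {c} := fun c hc z hz =>
    ⟨(hWH hz).1, fun e => (hWH hz).2 (by
      rw [mem_singleton_iff] at e
      exact e ▸ hc)⟩
  exact cut_three hH hu hv (hN h1) (hN h2) (hN h3) n12 n13 n23
    (nb_link hW h1.1 h2.1 (hsub c3 (hN h3)) ⟨h1.2, n13⟩ ⟨h2.2, n23⟩)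
    (nb_link hW h1.1 h3.1 (hsub c2 (hN h2)) ⟨h1.2, n12⟩ ⟨h3.2, n23.symm⟩)
    (nb_link hW h2.1 h3.1 (hsub c1 (hN h1)) ⟨h2.2, n12.symm⟩ ⟨h3.2, n13.symm⟩)

/-- The two connected subsets which cover a component outside of the cutvertices. -/
theorem split_comp [Finite V] (hH : Con G H) (hu : u ∈ H) (hv : v ∈ H) (hW : Con G W)
    (hWH : W ⊆ H \ Cut G H u v) (hN : Nb G W ∩ H ⊆ Cut G H u v) (hno : ¬ Rc G (H \ W) u v) :
    ∃ F1 F2, W ⊆ F1 ∪ F2 ∧ F1 ⊆ W ∧ F2 ⊆ W ∧ Con G F1 ∧ Con G F2 ∧ Rc G (H \ F1) u v ∧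
      Rc G (H \ F2) u v := by
  classical
  have huW : u ∈ H \ W := ⟨hu, fun h => (hWH h).2 (left_mem_cut hu)⟩
  have hvW : v ∈ H \ W := ⟨hv, fun h => (hWH h).2 (right_mem_cut hv)⟩
  have hWH' : W ⊆ H := fun z hz => (hWH hz).1
  -- the two neighbours
  have key : ∀ a b, a ∈ H \ W → b ∈ H \ W → ¬ Rc G (H \ W) a b →
      ∃ s ∈ Nb G W ∩ H, s ∈ cmp G (H \ W) a := by
    intro a b ha hb hab
    obtain ⟨p, hp, q, hq, hpH, hqH, hpq⟩ := hH.exists_edge (X := cmp G (H \ W) a)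
      (mem_cmp_self ha) ha.1 (y := b) hab hb.1
    have hqW : q ∈ W := by
      by_contra e
      exact hq (cmp_closed hp ⟨hqH, e⟩ hpq)
    exact ⟨p, ⟨⟨(cmp_subset hp).2, q, hqW, hpq.symm⟩, hpH⟩, hp⟩
  obtain ⟨s, hs, hsu⟩ := key u v huW hvW hno
  obtain ⟨t, ht, htv⟩ := key v u hvW huW fun h => hno h.symm
  have hst : s ≠ t := fun e => hno (Rc.trans hsu (Rc.symm (e ▸ htv)))
  have hst' : ∀ z ∈ Nb G W ∩ H, z = s ∨ z = t := by
    intro z hz
    by_contra hcon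
    push Not at hcon
    have h1 := nb_comp_cut hH hu hv hW hWH hN
    have h2 := (two_lt_ncard_iff (toFinite (Nb G W ∩ H))).2
      ⟨z, s, t, hz, hs, ht, hcon.1, hcon.2, hst⟩
    omega
  have hsW : s ∉ W := hs.1.1
  have htW : t ∉ W := ht.1.1
  have hnadj : ¬ G.Adj s t := fun h =>
    hno ((Rc.tail hsu h ⟨ht.2, htW⟩).trans (Rc.symm htv))
  have hsep : ∀ Z ⊆ W, Z.ncard < 2 → Rc G ((W \ Z) ∪ {s, t}) s t := by
    intro Z hZ hZ2
    have h0 : Z.ncard = 0 ∨ Z.ncard = 1 := by omega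
    rcases h0 with h0 | h0
    · rw [ncard_eq_zero (toFinite _)] at h0
      subst h0
      refine nb_link hW hs.1 ht.1 ?_ (Or.inr (Or.inl rfl)) (Or.inr (Or.inr rfl))
      rw [sdiff_empty]
      exact subset_union_left
    · obtain ⟨z, rfl⟩ := ncard_eq_one.1 h0
      have hzW : z ∈ W := hZ rfl
      by_contra hcon
      have hzc : Rc G (H \ {z}) u v := by
        by_contra h
        exact (hWH hzW).2 ⟨hWH' hzW, h⟩
      have h1 : v ∈ cmp G (H \ W) u ∪ cmp G ((W \ {z}) ∪ {s, t}) s := by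
        refine hzc.mem_closed (Or.inl (mem_cmp_self huW)) ?_
        intro p hp q hq hpq
        by_cases hqW : q ∈ W
        · rcases hp with hp | hp
          · have hpN : p ∈ Nb G W ∩ H := ⟨⟨(cmp_subset hp).2, q, hqW, hpq.symm⟩,
              (cmp_subset hp).1⟩
            rcases hst' p hpN with rfl | rfl
            · exact Or.inr (Rc.adj (Or.inr (Or.inl rfl)) (Or.inl ⟨hqW, hq.2⟩) hpq)
            · exact absurd (Rc.trans hp (Rc.symm htv)) hno
          · exact Or.inr (cmp_closed hp (Or.inl ⟨hqW, hq.2⟩) hpq)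
        · rcases hp with hp | hp
          · exact Or.inl (cmp_closed hp ⟨hq.1, hqW⟩ hpq)
          · rcases cmp_subset hp with hp' | (rfl | hp')
            · have hqN : q ∈ Nb G W ∩ H := ⟨⟨hqW, p, hp'.1, hpq⟩, hq.1⟩
              rcases hst' q hqN with rfl | rfl
              · exact Or.inr (mem_cmp_self (Or.inr (Or.inl rfl)))
              · exact absurd (cmp_closed hp (Or.inr (Or.inr rfl)) hpq) hcon
            · exact Or.inl (cmp_closed hsu ⟨hq.1, hqW⟩ hpq)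
            · rw [mem_singleton_iff] at hp'
              subst hp'
              exact absurd hp hcon
      rcases h1 with h1 | h1
      · exact hno h1
      · rcases cmp_subset h1 with h2 | (h2 | h2)
        · exact hvW.2 h2.1
        · exact hno (h2 ▸ hsu)
        · rw [mem_singleton_iff] at h2
          exact hcon (h2 ▸ h1)
  obtain ⟨R, hR, hRW, hRs, hRt, hRd⟩ := menger G hsW htW hnadj hst hsep
  -- a path through one of the sets
  have hpath : ∀ i : Fin 2, ∀ F ⊆ W, (∀ z ∈ R i, z ∉ F) → Rc G (H \ F) u v := by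
    intro i F hF hFR
    have hm : H \ W ⊆ H \ F := sdiff_subset_sdiff_right hF
    obtain ⟨p, hp, hsp⟩ := hRs i
    obtain ⟨q, hq, htq⟩ := hRt i
    have h1 : Rc G (H \ F) u s := Rc.mono hsu hm
    have h2 : Rc G (H \ F) v t := Rc.mono htv hm
    have h3 : Rc G (H \ F) s p := Rc.adj ⟨hs.2, fun h => hsW (hF h)⟩
      ⟨hWH' (hRW i hp), hFR p hp⟩ hsp
    have h4 : Rc G (H \ F) p q := (hR i).rc (fun z hz => ⟨hWH' (hRW i hz), hFR z hz⟩) hp hq
    have h5 : Rc G (H \ F) q t := Rc.adj ⟨hWH' (hRW i hq), hFR q hq⟩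
      ⟨ht.2, fun h => htW (hF h)⟩ htq.symm
    exact (((h1.trans h3).trans h4).trans h5).trans h2.symm
  obtain ⟨r0, hr0⟩ := (hR 0).1
  obtain ⟨r1, hr1⟩ := (hR 1).1
  have h01 : ∀ z ∈ R 0, z ∉ R 1 := hRd 0 1 (by decide)
  have h10 : ∀ z ∈ R 1, z ∉ R 0 := hRd 1 0 (by decide)
  have hr0' : r0 ∈ W \ R 1 := ⟨hRW 0 hr0, h01 r0 hr0⟩
  have hr1' : r1 ∈ W \ R 0 := ⟨hRW 1 hr1, h10 r1 hr1⟩
  have hR0s : R 0 ⊆ W \ R 1 := fun z hz => ⟨hRW 0 hz, h01 z hz⟩
  have hR1s : R 1 ⊆ W \ R 0 := fun z hz => ⟨hRW 1 hz, h10 z hz⟩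
  refine ⟨cmp G (W \ R 1) r0, cmp G (W \ R 0) r1, ?_, cmp_subset.trans sdiff_subset,
    cmp_subset.trans sdiff_subset, con_cmp hr0', con_cmp hr1', ?_, ?_⟩
  · intro w hw
    by_cases hw0 : w ∈ R 0
    · exact Or.inl ((hR 0).rc hR0s hr0 hw0)
    · by_cases hw1 : w ∈ cmp G (W \ R 0) r1
      · exact Or.inr hw1
      · left
        have hw' : w ∈ W \ R 0 := ⟨hw, hw0⟩
        have hK : cmp G (W \ R 0) w ⊆ W \ R 1 := by
          intro z hz
          refine ⟨(cmp_subset hz).1, fun hz1 => hw1 ?_⟩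
          have h1 : Rc G (W \ R 0) r1 z := (hR 1).rc hR1s hr1 hz1
          exact Rc.trans h1 (Rc.symm hz)
        obtain ⟨p, hp, q, hq, -, hqW, hpq⟩ := hW.exists_edge (X := cmp G (W \ R 0) w)
          (mem_cmp_self hw') hw (y := r0) (fun h => (cmp_subset h).2 hr0) (hRW 0 hr0)
        have hq0 : q ∈ R 0 := by
          by_contra e
          exact hq (cmp_closed hp ⟨hqW, e⟩ hpq)
        have h1 : Rc G (W \ R 1) r0 q := (hR 0).rc hR0s hr0 hq0
        exact (h1.tail hpq.symm (hK hp)).trans ((rc_cmp hp).mono hK).symm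
  · exact hpath 1 _ (cmp_subset.trans sdiff_subset) fun z hz h => (cmp_subset h).2 hz
  · exact hpath 0 _ (cmp_subset.trans sdiff_subset) fun z hz h => (cmp_subset h).2 hz

/-- The case of two vertices at large distance. -/
theorem Cn5.good_of_far [Finite V] (h : Cn5 G) {n : ℕ} (hn : 1 ≤ n)
    (hfar : ∀ C, Con G C → u ∈ C → v ∈ C → n ≤ C.ncard) : ∃ S, Good G n S := by
  classical
  -- a maximal solid set
  have hex : ∃ B : Set V, (Sol G B ∧ 3 ≤ B.ncard ∧ u ∉ B ∧ v ∉ B ∧ Rc G Bᶜ u v) ∧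
      ∀ B' : Set V, (Sol G B' ∧ 3 ≤ B'.ncard ∧ u ∉ B' ∧ v ∉ B' ∧ Rc G B'ᶜ u v) → B ⊆ B' →
        B' ⊆ B := by
    obtain ⟨B, hB, hmax⟩ := (toFinite {B : Set V | Sol G B ∧ 3 ≤ B.ncard ∧ u ∉ B ∧ v ∉ B ∧
      Rc G Bᶜ u v}).exists_maximal (h.exists_sol_far u v)
    exact ⟨B, hB, fun B' hB' hle => hmax hB' hle⟩
  obtain ⟨B, ⟨hB, hB3, huB, hvB, huv⟩, hmax⟩ := hex
  set H : Set V := Bᶜ with hHdef
  have hu : u ∈ H := huB
  have hv : v ∈ H := hvB
  -- connected sets which do not separate have few neighbours in `B`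
  have hM : ∀ F, Con G F → F ⊆ H → u ∉ F → v ∉ F → Rc G (H \ F) u v →
      (Nb G F ∩ B).ncard ≤ 1 := by
    intro F hF hFH huF hvF hr
    by_contra hcon
    obtain ⟨b, hb, b', hb', hne⟩ := exists_two (U := Nb G F ∩ B) (by omega)
    obtain ⟨C, hC, ⟨c, hc⟩, hs⟩ := hB.ear hF (fun z hz => hFH hz)
      ⟨b, hb.2, b', hb'.2, hne, hb.1, hb'.1⟩
    have h1 : B ∪ C ⊆ B := by
      apply hmax _ _ subset_union_left
      refine ⟨hs, hB3.trans (ncard_le_ncard subset_union_left (toFinite _)), ?_, ?_, ?_⟩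
      · rintro (h | h)
        · exact huB h
        · exact huF (hC h)
      · rintro (h | h)
        · exact hvB h
        · exact hvF (hC h)
      · refine hr.mono ?_
        rintro z ⟨hz1, hz2⟩ (h | h)
        · exact hz1 h
        · exact hz2 (hC h)
    exact hFH (hC hc) (h1 (Or.inr hc))
  -- `H` is connected
  have hH : Con G H := by
    have h1 : ∀ z ∈ H, Rc G H u z := by
      intro z hz
      by_contra hcon
      have huK : u ∉ cmp G H z := fun h => hcon (Rc.symm h)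
      have hvK : v ∉ cmp G H z := fun h => hcon (huv.trans (Rc.symm h))
      have h2 := hM (cmp G H z) (con_cmp hz) cmp_subset huK hvK (by
        refine (rc_cmp huv).mono ?_
        exact fun w hw => ⟨cmp_subset hw, fun h => hcon (Rc.trans hw (Rc.symm h))⟩)
      have h3 : Nb G (cmp G H z) ⊆ Nb G (cmp G H z) ∩ B := by
        intro w hw
        refine ⟨hw, ?_⟩
        by_contra hwB
        exact notMem_of_mem_nb_cmp hw hwB
      have h4 := ncard_le_ncard h3 (toFinite _)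
      have h5 := h.le_nb (mem_cmp_self hz) huK (fun h => notMem_of_mem_nb_cmp h hu)
      omega
    exact ⟨⟨u, hu⟩, fun a ha b hb => (h1 a ha).symm.trans (h1 b hb)⟩
  -- all vertices of `H` are cutvertices
  have hcut : ∀ w ∈ H, w ∈ Cut G H u v := by
    intro w hw
    by_contra hwc
    have hw' : w ∈ H \ Cut G H u v := ⟨hw, hwc⟩
    set W := cmp G (H \ Cut G H u v) w with hWdef
    have hW : Con G W := con_cmp hw'
    have hWH : W ⊆ H \ Cut G H u v := cmp_subset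
    have hN : Nb G W ∩ H ⊆ Cut G H u v := by
      rintro z ⟨hz, hzH⟩
      by_contra hzc
      exact notMem_of_mem_nb_cmp hz ⟨hzH, hzc⟩
    have huW : u ∉ W := fun h => (hWH h).2 (left_mem_cut hu)
    have hvW : v ∉ W := fun h => (hWH h).2 (right_mem_cut hv)
    have h2 := nb_comp_cut hH hu hv hW hWH hN
    have h3 : (Nb G W ∩ B).ncard ≤ 2 := by
      by_cases hr : Rc G (H \ W) u v
      · have := hM W hW (fun z hz => (hWH hz).1) huW hvW hr
        omega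
      · obtain ⟨F1, F2, hcov, hF1, hF2, hc1, hc2, hr1, hr2⟩ :=
          split_comp hH hu hv hW hWH hN hr
        have h4 := hM F1 hc1 (fun z hz => (hWH (hF1 hz)).1) (fun h => huW (hF1 h))
          (fun h => hvW (hF1 h)) hr1
        have h5 := hM F2 hc2 (fun z hz => (hWH (hF2 hz)).1) (fun h => huW (hF2 h))
          (fun h => hvW (hF2 h)) hr2
        have h6 : Nb G W ∩ B ⊆ (Nb G F1 ∩ B) ∪ (Nb G F2 ∩ B) := by
          rintro z ⟨⟨hz, c, hc, hcz⟩, hzB⟩
          rcases hcov hc with hc | hc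
          · exact Or.inl ⟨⟨fun h => hz (hF1 h), c, hc, hcz⟩, hzB⟩
          · exact Or.inr ⟨⟨fun h => hz (hF2 h), c, hc, hcz⟩, hzB⟩
        have h7 := ncard_le_ncard h6 (toFinite _)
        have h8 := ncard_union_le (Nb G F1 ∩ B) (Nb G F2 ∩ B)
        omega
    obtain ⟨b, hbB, hbN⟩ : ∃ b ∈ B, b ∉ Nb G W := by
      by_contra hcon
      push Not at hcon
      have := ncard_le_ncard (show B ⊆ Nb G W ∩ B from fun b hb => ⟨hcon b hb, hb⟩) (toFinite _)
      omega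
    have h4 : 5 ≤ (Nb G W).ncard := h.le_nb (mem_cmp_self hw') (fun h => (hWH h).1 hbB) hbN
    have h5 : Nb G W ⊆ (Nb G W ∩ H) ∪ (Nb G W ∩ B) := by
      intro z hz
      by_cases hzB : z ∈ B
      · exact Or.inr ⟨hz, hzB⟩
      · exact Or.inl ⟨hz, hzB⟩
    have h6 := ncard_le_ncard h5 (toFinite _)
    have h7 := ncard_union_le (Nb G W ∩ H) (Nb G W ∩ B)
    omega
  -- the number of neighbours in `B`
  have htwo : ∀ x ∈ H, ∃ b ∈ B, ∃ b' ∈ B, b ≠ b' ∧ G.Adj x b ∧ G.Adj x b' := by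
    intro x hx
    have h2 : (Nb G {x} ∩ H).ncard ≤ 2 := by
      by_contra hcon
      obtain ⟨c1, h1, c2, h2, c3, h3, n12, n13, n23⟩ :=
        exists_three (U := Nb G {x} ∩ H) (by omega)
      have hsub : ∀ c ∈ Nb G {x} ∩ H, ({x} : Set V) ⊆ H \ {c} := by
        rintro c ⟨hc, -⟩ z hz
        rw [mem_singleton_iff] at hz
        subst hz
        exact ⟨hx, fun e => hc.1 e.symm⟩
      exact cut_three hH hu hv (hcut _ h1.2) (hcut _ h2.2) (hcut _ h3.2) n12 n13 n23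
        (nb_link (con_singleton x) h1.1 h2.1 (hsub c3 h3) ⟨h1.2, n13⟩ ⟨h2.2, n23⟩)
        (nb_link (con_singleton x) h1.1 h3.1 (hsub c2 h2) ⟨h1.2, n12⟩ ⟨h3.2, n23.symm⟩)
        (nb_link (con_singleton x) h2.1 h3.1 (hsub c1 h1) ⟨h2.2, n12.symm⟩ ⟨h3.2, n13.symm⟩)
    have h3 := h.five_le_nb_singleton x
    have h4 := ncard_inter_add_ncard_sdiff_eq_ncard (Nb G {x}) H (toFinite _)
    obtain ⟨a, ⟨⟨-, c, hc, hca⟩, ha⟩, b, ⟨⟨-, d, hd, hdb⟩, hb⟩, hab⟩ :=
      exists_two (U := Nb G {x} \ H) (by omega)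
    rw [mem_singleton_iff] at hc hd
    subst hc hd
    exact ⟨a, not_not.1 ha, b, not_not.1 hb, hab, hca, hdb⟩
  obtain ⟨S, hS, -, hcS, hcard⟩ := hH.exists_card hu hn (hfar H hH hu hv)
  have hSc : Sᶜ = B ∪ (H \ S) := by
    ext z
    constructor
    · intro hz
      by_cases hzB : z ∈ B
      · exact Or.inl hzB
      · exact Or.inr ⟨hzB, hz⟩
    · rintro (hz | hz) hzS
      · exact hS hzS hz
      · exact hz.2 hzS
  refine ⟨S, hcard, hcS, ?_, ?_⟩
  · rw [hSc]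
    exact hB.union_of_two fun d hd => htwo d hd.1
  · rw [hSc]
    exact hB3.trans (ncard_le_ncard subset_union_left (toFinite _))

end Pool.Agent.Lib.MP_d9512b_co
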