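import Pool.Agent.Lib.MP_d9512b_co.Menger

set_option autoImplicit false

/-!
Ears of solid sets, and a solid set outside of a geodesic.
-/

namespace Pool.Agent.Lib.MP_d9512b_co

open Set

variable {V : Type*} {G : SimpleGraph V} {U B C D H K R W : Set V} {x y z u v : V}

/-- The remainder of a connected set after deletion of a component. -/
theorem Con.diff_cmp (hC : Con G C) (hR : Con G R) (hRC : R ⊆ C) (a : V) :
    Con G (C \ cmp G (C \ R) a) := by
  obtain ⟨r, hr⟩ := hR.1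
  have hRK : R ⊆ C \ cmp G (C \ R) a := fun z hz => ⟨hRC hz, fun h => (cmp_subset h).2 hz⟩
  have h1 : ∀ z ∈ C \ cmp G (C \ R) a, Rc G (C \ cmp G (C \ R) a) z r := by
    rintro z ⟨hz, hzK⟩
    by_cases hzR : z ∈ R
    · exact hR.rc hRK hzR hr
    · have h2 : cmp G (C \ R) z ⊆ C \ cmp G (C \ R) a := fun w hw =>
        ⟨(cmp_subset hw).1, fun h => hzK (Rc.trans h (Rc.symm hw))⟩
      obtain ⟨p, hp, q, hq, -, hqC, hpq⟩ := hC.exists_edge (X := cmp G (C \ R) z)
        (mem_cmp_self ⟨hz, hzR⟩) hz (fun h => (cmp_subset h).2 hr) (hRC hr)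
      have hqR : q ∈ R := by
        by_contra hqR
        exact hq (cmp_closed hp ⟨hqC, hqR⟩ hpq)
      exact (((rc_cmp hp).mono h2).tail hpq (hRK hqR)).trans (hR.rc hRK hqR hr)
  exact ⟨⟨r, hRK hr⟩, fun p hp q hq => (h1 p hp).trans (h1 q hq).symm⟩

/-- A connected set with two neighbours in a solid set contains an ear. -/
theorem Sol.ear [Finite V] (hB : Sol G B) (hK : Con G K) (hd : ∀ z ∈ K, z ∉ B)
    (h2 : ∃ b ∈ B, ∃ b' ∈ B, b ≠ b' ∧ b ∈ Nb G K ∧ b' ∈ Nb G K) :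
    ∃ C ⊆ K, C.Nonempty ∧ Sol G (B ∪ C) := by
  induction hn : K.ncard using Nat.strong_induction_on generalizing K with
  | _ m ih =>
  obtain ⟨b, hb, b', hb', hne, hbK, hbK'⟩ := h2
  by_cases hbad : ∃ y ∈ K, ∃ a ∈ K, a ≠ y ∧ ∀ c ∈ cmp G (K \ {y}) a, ∀ d ∈ B, ¬ G.Adj c d
  · obtain ⟨y, hy, a, ha, hay, hno⟩ := hbad
    have h1 := hK.diff_cmp (con_singleton (G := G) y) (singleton_subset_iff.2 hy) a
    have h3 : ∀ d ∈ B, d ∈ Nb G K → d ∈ Nb G (K \ cmp G (K \ {y}) a) := by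
      rintro d hd' ⟨h4, c, hc, hcd⟩
      exact ⟨fun h5 => h4 h5.1, c, ⟨hc, fun h5 => hno c h5 d hd' hcd⟩, hcd⟩
    obtain ⟨C, hC, hCne, hCs⟩ := ih (K \ cmp G (K \ {y}) a).ncard (by
      rw [← hn]
      apply ncard_lt_ncard _ (toFinite _)
      refine ⟨sdiff_subset, fun h => ?_⟩
      exact (h ha).2 (mem_cmp_self ⟨ha, hay⟩)) h1 (fun z hz => hd z hz.1)
      ⟨b, hb, b', hb', hne, h3 b hb hbK, h3 b' hb' hbK'⟩ rfl
    exact ⟨C, hC.trans sdiff_subset, hCne, hCs⟩
  · push Not at hbad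
    refine ⟨K, Subset.rfl, hK.1, ?_, ?_⟩
    · obtain ⟨-, c, hc, hcb⟩ := hbK
      exact hB.con.union_adj hK hb hc hcb.symm
    · have key : ∀ y, ∀ a ∈ B ∪ K, a ≠ y → ∃ d ∈ B, d ≠ y ∧ Rc G ((B ∪ K) \ {y}) a d := by
        intro y a ha hay
        rcases ha with ha | ha
        · exact ⟨a, ha, hay, Rc.refl ⟨Or.inl ha, hay⟩⟩
        · by_cases hyK : y ∈ K
          · obtain ⟨c, hc, d, hd', hcd⟩ := hbad y hyK a ha hay
            have hdy : d ≠ y := fun e => hd y hyK (e ▸ hd')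
            refine ⟨d, hd', hdy, ?_⟩
            refine (Rc.mono hc ?_).tail hcd ⟨Or.inl hd', hdy⟩
            exact sdiff_subset_sdiff_left subset_union_right
          · obtain ⟨d, hd', hdy, -, c, hc, hcd⟩ : ∃ d ∈ B, d ≠ y ∧ d ∈ Nb G K := by
              by_cases e : b = y
              · exact ⟨b', hb', fun e' => hne (e.trans e'.symm), hbK'⟩
              · exact ⟨b, hb, e, hbK⟩
            refine ⟨d, hd', hdy, ?_⟩
            refine (hK.rc ?_ ha hc).tail hcd ⟨Or.inl hd', hdy⟩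
            exact fun z hz => ⟨Or.inr hz, fun e => hyK (by
              rw [mem_singleton_iff] at e
              exact e ▸ hz)⟩
      intro y _ a ha b hb hay hby
      obtain ⟨a', ha', hay', h3⟩ := key y a ha hay
      obtain ⟨b', hb', hby', h4⟩ := key y b hb hby
      exact (h3.trans ((hB.rc y ha' hb' hay' hby').mono
        (sdiff_subset_sdiff_left subset_union_left))).trans h4.symm

theorem sol_pair (h : G.Adj x y) : Sol G {x, y} := by
  refine ⟨con_pair h, ?_⟩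
  intro w hw a ha b hb haw hbw
  have hab : a = b := by
    rcases ha with rfl | ha <;> rcases hb with rfl | hb
    · rfl
    · rw [mem_singleton_iff] at hb
      rcases hw with rfl | hw
      · exact absurd rfl haw
      · rw [mem_singleton_iff] at hw
        exact absurd (hb.trans hw.symm) hbw
    · rw [mem_singleton_iff] at ha
      rcases hw with rfl | hw
      · exact absurd rfl hbw
      · rw [mem_singleton_iff] at hw
        exact absurd (ha.trans hw.symm) haw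
    · rw [mem_singleton_iff] at ha hb
      exact ha.trans hb.symm
  subst hab
  exact Rc.refl ⟨ha, haw⟩

/-- Two elements in a set with at least two elements. -/
theorem exists_two [Finite V] (h : 2 ≤ U.ncard) : ∃ a ∈ U, ∃ b ∈ U, a ≠ b := by
  have := (one_lt_ncard_iff (toFinite U)).1 (by omega)
  obtain ⟨a, b, ha, hb, hab⟩ := this
  exact ⟨a, ha, b, hb, hab⟩

/-- A finite set in which all degrees are at least two contains a solid set with at least three
vertices. -/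
theorem exists_sol [Finite V] (hne : D.Nonempty)
    (h2 : ∀ z ∈ D, ∃ a ∈ D, ∃ b ∈ D, a ≠ b ∧ G.Adj z a ∧ G.Adj z b) :
    ∃ C ⊆ D, Sol G C ∧ 3 ≤ C.ncard := by
  obtain ⟨d, hd⟩ := hne
  have hcon := con_cmp (G := G) hd
  have hcl : ∀ z ∈ cmp G D d, ∃ a ∈ cmp G D d, ∃ b ∈ cmp G D d, a ≠ b ∧ G.Adj z a ∧ G.Adj z b := by
    intro z hz
    obtain ⟨a, ha, b, hb, hab, h3, h4⟩ := h2 z (cmp_subset hz)
    exact ⟨a, cmp_closed hz ha h3, b, cmp_closed hz hb h4, hab, h3, h4⟩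
  obtain ⟨z, hz, hcz⟩ := hcon.exists_noncut (by
    obtain ⟨a, ha, b, hb, hab, -, -⟩ := hcl d (mem_cmp_self hd)
    have := (one_lt_ncard_iff (toFinite (cmp G D d))).2 ⟨a, b, ha, hb, hab⟩
    omega)
  obtain ⟨a, ha, b, hb, hab, hza, hzb⟩ := hcl z hz
  have hbK : b ∈ (cmp G D d \ {z}) \ {a} := ⟨⟨hb, hzb.ne'⟩, hab.symm⟩
  have hK := con_cmp (G := G) hbK
  have haK : a ∈ Nb G (cmp G ((cmp G D d \ {z}) \ {a}) b) := by
    obtain ⟨p, hp, q, hq, -, hq2, hpq⟩ := hcz.exists_edge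
      (X := cmp G ((cmp G D d \ {z}) \ {a}) b) (mem_cmp_self hbK) hbK.1 (y := a)
      (fun h => (cmp_subset h).2 rfl) ⟨ha, hza.ne'⟩
    have hqa : q = a := by
      by_contra e
      exact hq (cmp_closed hp ⟨hq2, e⟩ hpq)
    subst hqa
    exact ⟨hq, p, hp, hpq⟩
  have hzK : z ∈ Nb G (cmp G ((cmp G D d \ {z}) \ {a}) b) :=
    ⟨fun h => (cmp_subset h).1.2 rfl, b, mem_cmp_self hbK, hzb.symm⟩
  have hdis : ∀ w ∈ cmp G ((cmp G D d \ {z}) \ {a}) b, w ∉ ({z, a} : Set V) := by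
    intro w hw h
    rcases h with rfl | h
    · exact (cmp_subset hw).1.2 rfl
    · exact (cmp_subset hw).2 h
  obtain ⟨C, hC, ⟨c, hc⟩, hCs⟩ := (sol_pair hza).ear hK hdis
    ⟨z, Or.inl rfl, a, Or.inr rfl, hza.ne, hzK, haK⟩
  refine ⟨{z, a} ∪ C, ?_, hCs, ?_⟩
  · rintro w ((rfl | hw) | hw)
    · exact cmp_subset hz
    · rw [mem_singleton_iff] at hw
      exact hw ▸ cmp_subset ha
    · exact cmp_subset (cmp_subset (hC hw)).1.1
  · rw [ncard_union_eq (disjoint_left.2 fun w hw hwC => hdis w (hC hwC) hw) (toFinite _)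
      (toFinite _), ncard_pair hza.ne]
    have : 0 < C.ncard := (ncard_pos (toFinite _)).2 ⟨c, hc⟩
    omega

/-! ### Levels -/

/-- The least order of a connected set which contains `u` and `x`. -/
noncomputable def lv (G : SimpleGraph V) (u x : V) : ℕ :=
  sInf {k | ∃ C, Con G C ∧ u ∈ C ∧ x ∈ C ∧ C.ncard = k}

theorem lv_le (hC : Con G C) (hu : u ∈ C) (hx : x ∈ C) : lv G u x ≤ C.ncard :=
  Nat.sInf_le ⟨C, hC, hu, hx, rfl⟩

theorem lv_spec (h : Rc G univ u x) :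
    ∃ C, Con G C ∧ u ∈ C ∧ x ∈ C ∧ C.ncard = lv G u x :=
  Nat.sInf_mem (s := {k | ∃ C, Con G C ∧ u ∈ C ∧ x ∈ C ∧ C.ncard = k})
    ⟨_, cmp G univ u, con_cmp (mem_univ u), mem_cmp_self (mem_univ u), h, rfl⟩

theorem lv_adj [Finite V] (h : Rc G univ u x) (hxy : G.Adj x y) : lv G u y ≤ lv G u x + 1 := by
  obtain ⟨C, hC, hu, hx, hc⟩ := lv_spec h
  have h1 := lv_le (hC.ins hx hxy) (Or.inr hu) (Or.inl rfl)
  have h2 := ncard_insert_le y C
  omega

theorem lv_pred [Finite V] (h : Rc G univ u x) (hne : x ≠ u) :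
    ∃ y, G.Adj y x ∧ lv G u y < lv G u x := by
  obtain ⟨C, hC, hu, hx, hc⟩ := lv_spec h
  have hu' : u ∈ C \ {x} := ⟨hu, hne.symm⟩
  obtain ⟨p, hp, q, hq, -, hqC, hpq⟩ := hC.exists_edge (X := cmp G (C \ {x}) u)
    (mem_cmp_self hu') hu (y := x) (fun h => (cmp_subset h).2 rfl) hx
  have hqx : q = x := by
    by_contra e
    exact hq (cmp_closed hp ⟨hqC, e⟩ hpq)
  subst hqx
  refine ⟨p, hpq, ?_⟩
  have h1 := lv_le (con_cmp hu') (mem_cmp_self hu') hp
  have h2 : (cmp G (C \ {q}) u).ncard ≤ (C \ {q}).ncard := ncard_le_ncard cmp_subset (toFinite _)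
  rw [ncard_sdiff_singleton_of_mem hx] at h2
  have h3 : 0 < C.ncard := (ncard_pos (toFinite _)).2 ⟨q, hx⟩
  omega

/-- A geodesic: a connected set with at most one vertex on each level. -/
theorem exists_geod [Finite V] (hall : ∀ x, Rc G univ u x) (v : V) :
    ∃ P, Con G P ∧ u ∈ P ∧ v ∈ P ∧ (∀ z ∈ P, lv G u z ≤ lv G u v) ∧
      ∀ z ∈ P, ∀ z' ∈ P, lv G u z = lv G u z' → z = z' := by
  induction hn : lv G u v using Nat.strong_induction_on generalizing v with
  | _ m ih =>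
  by_cases hv : v = u
  · subst hv
    refine ⟨{v}, con_singleton v, rfl, rfl, ?_, ?_⟩
    · intro z hz
      rw [mem_singleton_iff] at hz
      rw [hz, hn]
    · intro z hz z' hz' _
      rw [mem_singleton_iff] at hz hz'
      exact hz.trans hz'.symm
  · obtain ⟨y, hyv, hlt⟩ := lv_pred (hall v) hv
    obtain ⟨P, hP, hu, hy, hle, hinj⟩ := ih (lv G u y) (hn ▸ hlt) y rfl
    refine ⟨insert v P, hP.ins hy hyv, Or.inr hu, Or.inl rfl, ?_, ?_⟩
    · rintro z (rfl | hz)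
      · exact hn.le
      · have := hle z hz
        omega
    · rintro z (rfl | hz) z' (rfl | hz') h
      · rfl
      · have := hle z' hz'
        omega
      · have := hle z hz
        omega
      · exact hinj z hz z' hz' h

theorem Cn5.rc_univ (h : Cn5 G) (a b : V) : Rc G univ a b := by
  have := h.2 ∅ (by simp) a b (by simp) (by simp)
  rwa [compl_empty] at this

/-- A solid set with at least three vertices which avoids a path between two given vertices. -/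
theorem Cn5.exists_sol_far [Finite V] (h : Cn5 G) (u v : V) :
    ∃ C, Sol G C ∧ 3 ≤ C.ncard ∧ u ∉ C ∧ v ∉ C ∧ Rc G Cᶜ u v := by
  obtain ⟨P, hP, hu, hv, -, hinj⟩ := exists_geod (h.rc_univ u) v
  have h3 : ∀ z, (Nb G {z} ∩ P).ncard ≤ 3 := by
    intro z
    have h4 : (Nb G {z} ∩ P).ncard ≤ (Finset.Icc (lv G u z - 1) (lv G u z + 1) : Set ℕ).ncard := by
      apply ncard_le_ncard_of_injOn (lv G u) _ _ (toFinite _)
      · rintro a ⟨⟨-, c, hc, hca⟩, haP⟩
        rw [mem_singleton_iff] at hc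
        subst hc
        have h5 := lv_adj (h.rc_univ u c) hca
        have h6 := lv_adj (h.rc_univ u a) hca.symm
        rw [Finset.mem_coe, Finset.mem_Icc]
        omega
      · rintro a ⟨-, haP⟩ b ⟨-, hbP⟩ hab
        exact hinj a haP b hbP hab
    rw [ncard_coe_finset, Nat.card_Icc] at h4
    omega
  have h2 : ∀ z, ∃ a ∈ Pᶜ, ∃ b ∈ Pᶜ, a ≠ b ∧ G.Adj z a ∧ G.Adj z b := by
    intro z
    have h4 := h.five_le_nb_singleton z
    have h5 := h3 z
    have h6 := ncard_inter_add_ncard_sdiff_eq_ncard (Nb G {z}) P (toFinite _)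
    obtain ⟨a, ⟨⟨-, c, hc, hca⟩, ha⟩, b, ⟨⟨-, d, hd, hdb⟩, hb⟩, hab⟩ :=
      exists_two (U := Nb G {z} \ P) (by omega)
    rw [mem_singleton_iff] at hc hd
    subst hc hd
    exact ⟨a, ha, b, hb, hab, hca, hdb⟩
  obtain ⟨C, hC, hs, hc⟩ := exists_sol (G := G) (D := Pᶜ)
    (by obtain ⟨a, ha, -⟩ := h2 u; exact ⟨a, ha⟩) (fun z _ => h2 z)
  refine ⟨C, hs, hc, fun h => hC h hu, fun h => hC h hv, ?_⟩
  exact hP.rc (fun z hz hzC => hC hzC hz) hu hv

end Pool.Agent.Lib.MP_d9512b_co
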