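import Pool.Agent.Lib.MP_d9512b_co.Star

set_option autoImplicit false

/-!
A vertex of large degree: the star whose complement is solid.
-/

namespace Pool.Agent.Lib.MP_d9512b_co

open Set

theorem ncard_cover_nat {α : Type*} {A : Set α} (hA : A.Finite) (f : α → Set ℕ) {T : Set ℕ}
    (hT : T.Finite) (hf : ∀ a, f a ⊆ T) (m : ℕ) (h : ∀ a, (f a).ncard ≤ m) :
    {x | ∃ a ∈ A, x ∈ f a}.ncard ≤ A.ncard * m := by
  induction A, hA using Set.Finite.induction_on with
  | empty => simp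
  | @insert a S ha hS ih =>
    have h1 : {x | ∃ b ∈ insert a S, x ∈ f b} ⊆ f a ∪ {x | ∃ b ∈ S, x ∈ f b} := by
      rintro x ⟨b, (rfl | hb), hx⟩
      · exact Or.inl hx
      · exact Or.inr ⟨b, hb, hx⟩
    have hfin : (f a ∪ {x | ∃ b ∈ S, x ∈ f b}).Finite := by
      apply hT.subset
      rintro x (hx | ⟨b, -, hx⟩)
      · exact hf a hx
      · exact hf b hx
    have h2 := ncard_le_ncard h1 hfin
    have h3 := ncard_union_le (f a) {x | ∃ b ∈ S, x ∈ f b}
    have h4 := h a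
    rw [ncard_insert_of_notMem ha hS, add_mul, one_mul]
    omega

variable {V : Type} {G : SimpleGraph V} {w : V} {A : Set V}

theorem hub_star [Finite V] (h : Cn5 G) {n b : ℕ} (hn : 1 ≤ n) (hb : 3 ≤ b) (hwA : w ∉ A)
    (hAw : ∀ z ∈ A, G.Adj w z) (yB : Set V → V) (UB : Set V → Set V)
    (hSp : ∀ B ⊆ A, B.ncard = b → Sp G w A B (yB B) (UB B))
    (hA : 1 + (2 * ((2 * n + 1) * n) + 4 * n + 3) * (b - 1) ≤ A.ncard)
    (hV : n + 3 ≤ Nat.card V) : ∃ S, Good G n S := by
  classical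
  set M : ℕ := 2 * ((2 * n + 1) * n) + 4 * n + 3 with hM
  obtain ⟨a, ha⟩ : A.Nonempty := by
    rw [← ncard_pos (toFinite _)]
    omega
  obtain ⟨D, hD, hDdis⟩ := exists_blocks (b - 1) M (A \ {a}) (by
    rw [ncard_sdiff_singleton_of_mem ha]
    omega)
  have hDA : ∀ l, l < M → D l ⊆ A := fun l hl => (hD l hl).1.trans sdiff_subset
  have haD : ∀ l, l < M → a ∉ D l := fun l hl h1 => ((hD l hl).1 h1).2 rfl
  have hFam : ∀ c ∈ A, Fam G w A D c (fun l => l < M ∧ c ∉ D l) (fun l => yB (insert c (D l)))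
      (fun l => UB (insert c (D l))) := by
    intro c hc
    refine ⟨fun l hl => hSp _ (insert_subset hc (hDA l hl.1)) ?_, hwA, hc,
      fun l hl => hDA l hl.1, fun l hl => hl.2, fun l hl => ?_,
      fun l hl l' hl' hne => hDdis l hl.1 l' hl'.1 hne⟩
    · rw [ncard_insert_of_notMem hl.2 (toFinite _), (hD l hl.1).2]
      omega
    · apply exists_two
      rw [(hD l hl.1).2]
      omega
  have F := hFam a ha
  set y : ℕ → V := fun l => yB (insert a (D l)) with hy
  set U : ℕ → Set V := fun l => UB (insert a (D l)) with hU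
  have hP : ∀ l, l < M → l < M ∧ a ∉ D l := fun l hl => ⟨hl, haD l hl⟩
  -- pairwise disjoint sets
  have hT0 : {l : ℕ | l < M}.Finite := finite_lt_nat M
  have hT0c : {l : ℕ | l < M}.ncard = M := by
    have : {l : ℕ | l < M} = (Finset.range M : Set ℕ) := by
      ext l
      simp
    rw [this, ncard_coe_finset, Finset.card_range]
  obtain ⟨T, hT, hTc, hTm⟩ := exists_indep (fun i j => y i ∈ U j ∧ y j ∈ U i)
    (fun i j h => ⟨h.2, h.1⟩) 1 ((2 * n + 1) * n) {l : ℕ | l < M} hT0 (by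
      intro i hi
      by_contra hcon
      obtain ⟨j, k, hj, hk, hjk⟩ := (one_lt_ncard_iff (hT0.subset fun j hj => hj.1)).1
        (lt_of_not_ge hcon)
      exact F.one (hP i hi) (hP j hj.1) (hP k hk.1) hk.2.1.symm hjk hj.2.2.1 hj.2.2.2 hk.2.2.1)
    (by
      rw [hT0c, hM]
      omega)
  have hTM : ∀ l ∈ T, l < M := fun l hl => hT hl
  have hTf : T.Finite := hT0.subset hT
  have hdich : ∀ i ∈ T, ∀ j ∈ T, i ≠ j → (∀ z ∈ U i, z ∉ U j) ∧ y i ∉ U j ∧ y j ∉ U i := by
    intro i hi j hj hij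
    exact (F.dich (hP i (hTM i hi)) (hP j (hTM j hj)) hij).resolve_right (hTm i hi j hj hij)
  have hsp : ∀ i ∈ T, Sp G w A (insert a (D i)) (y i) (U i) := fun i hi => F.sp i (hP i (hTM i hi))
  have hBA : ∀ i ∈ T, insert a (D i) ⊆ A := fun i hi => F.subA (hP i (hTM i hi))
  have hyU : ∀ i ∈ T, ∀ j ∈ T, y i ∉ U j := by
    intro i hi j hj
    by_cases hij : i = j
    · subst hij
      exact (hsp i hi).yNb.1
    · exact (hdich i hi j hj hij).2.1
  set Q : Set V := {z | z ≠ w ∧ z ∉ A} with hQ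
  -- the indices of the star
  obtain ⟨I, hI, hIc, hIr⟩ := exists_indep (fun i j => ∃ W, Att G Q T y n W ∧ y i ∈ W ∧ y j ∈ W)
    (fun i j ⟨W, h1, h2, h3⟩ => ⟨W, h1, h3, h2⟩) (2 * n) (n - 1) T hTf (by
      intro i _
      refine (ncard_le_ncard ?_ (hTf.subset fun j hj => hj.1)).trans
        (att_bound (G := G) (Q := Q) (n := n) (yf := y) hTf (y i))
      rintro j ⟨hj, -, hW⟩
      exact ⟨hj, hW⟩)
    (by
      rw [hTc]
      exact Nat.mul_le_mul_left _ (by omega))
  have hIf : I.Finite := hTf.subset hI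
  have hu : ∀ l, ∃ c, l ∈ T → c ∈ U l ∧ G.Adj a c := by
    intro l
    by_cases hl : l ∈ T
    · obtain ⟨-, c, hc, hca⟩ := (hsp l hl).sub a (Or.inl rfl)
      exact ⟨c, fun _ => ⟨hc, hca.symm⟩⟩
    · exact ⟨a, fun h => absurd h hl⟩
  choose u hu using hu
  have huU : ∀ l ∈ T, u l ∈ U l := fun l hl => (hu l hl).1
  have huA : ∀ l ∈ T, u l ∉ A := fun l hl => (hsp l hl).notA _ (huU l hl)
  have huw : ∀ l ∈ T, u l ≠ w := fun l hl e => (hsp l hl).notW (e ▸ huU l hl)
  have huinj : InjOn u I := by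
    intro i hi j hj hij
    by_contra hne
    exact (hdich i (hI hi) j (hI hj) hne).1 (u i) (huU i (hI hi)) (hij ▸ huU j (hI hj))
  set X : Set V := insert a (u '' I) with hX
  have haw : a ≠ w := fun e => hwA (e ▸ ha)
  have hXc : X.ncard = n := by
    rw [hX, ncard_insert_of_notMem _ (toFinite _), huinj.ncard_image, hIc]
    · omega
    · rintro ⟨l, hl, e⟩
      exact huA l (hI hl) (e ▸ ha)
  have hXA : ∀ z ∈ X, z ∈ A → z = a := by
    rintro z (rfl | ⟨l, hl, rfl⟩) hz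
    · rfl
    · exact absurd hz (huA l (hI hl))
  have hwX : w ∉ X := by
    rintro (e | ⟨l, hl, e⟩)
    · exact haw e.symm
    · exact huw l (hI hl) e
  have hXcon : Con G X := by
    apply con_star
    rintro _ ⟨l, hl, rfl⟩
    exact (hu l (hI hl)).2
  have hAcard : 7 ≤ A.ncard := by
    have h1 : 3 * 2 ≤ M * (b - 1) := Nat.mul_le_mul (by omega) (by omega)
    omega
  refine ⟨X, good_of_rc hXcon hXc hV ?_⟩
  intro y0 hy0
  obtain ⟨a0, ha0, ha0'⟩ : ∃ a0 ∈ A, a0 ∉ ({a, y0} : Set V) := by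
    by_contra hcon
    push Not at hcon
    have h1 := ncard_le_ncard (show A ⊆ {a, y0} from hcon) (toFinite _)
    have h2 : ({a, y0} : Set V).ncard ≤ 2 := by
      have := ncard_insert_le a {y0}
      rw [ncard_singleton] at this
      exact this
    omega
  have ha0a : a0 ≠ a := fun e => ha0' (Or.inl e)
  have ha0y : a0 ≠ y0 := fun e => ha0' (Or.inr e)
  have hAX : ∀ z ∈ A, z ≠ a → z ≠ y0 → z ∈ (insert y0 X)ᶜ := by
    rintro z hz h1 h2 (h3 | h3)
    · exact h2 h3
    · exact h1 (hXA z h3 hz)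
  -- the elements of `A` are in one component
  have hconA : ∀ a' ∈ A, a' ≠ a → a' ≠ y0 → Rc G (insert y0 X)ᶜ a' a0 := by
    intro a' ha' ha'a ha'y
    by_cases hyw : y0 = w
    · subst hyw
      have F1 := hFam a' ha'
      have F2 := hFam a0 ha0
      set S1 : Set ℕ := {l | l < M ∧ a' ∈ D l} with hS1
      set S2 : Set ℕ := {l | l < M ∧ a0 ∈ D l} with hS2
      set S3 : Set ℕ := {l | ∃ x ∈ X, l ∈ {l | l ∈ {l : ℕ | l < M} ∧ (l < M ∧ a' ∉ D l) ∧
        x ∈ UB (insert a' (D l))}} with hS3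
      set S4 : Set ℕ := {l | ∃ x ∈ X, l ∈ {l | l ∈ {l : ℕ | l < M} ∧ (l < M ∧ a0 ∉ D l) ∧
        x ∈ UB (insert a0 (D l))}} with hS4
      have hone : ∀ c, {l | l < M ∧ c ∈ D l}.ncard ≤ 1 := by
        intro c
        by_contra hcon
        obtain ⟨i, j, hi, hj, hij⟩ := (one_lt_ncard_iff (hT0.subset fun j hj => hj.1)).1
          (lt_of_not_ge hcon)
        exact hDdis i hi.1 j hj.1 hij c hi.2 hj.2
      have h1 : S1.ncard ≤ 1 := hone a'
      have h2 : S2.ncard ≤ 1 := hone a0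
      have h3 : S3.ncard ≤ X.ncard * 2 := ncard_cover_nat (toFinite X) _ hT0
        (fun _ l hl => hl.1) 2 (fun x => F1.count hT0 x)
      have h4 : S4.ncard ≤ X.ncard * 2 := ncard_cover_nat (toFinite X) _ hT0
        (fun _ l hl => hl.1) 2 (fun x => F2.count hT0 x)
      obtain ⟨l, hlM, hl⟩ : ∃ l, l < M ∧ l ∉ (S1 ∪ S2) ∪ (S3 ∪ S4) := by
        by_contra hcon
        push Not at hcon
        have h5 : {l : ℕ | l < M} ⊆ (S1 ∪ S2) ∪ (S3 ∪ S4) := fun l hl => hcon l hl
        have hfin : ((S1 ∪ S2) ∪ (S3 ∪ S4)).Finite := by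
          apply hT0.subset
          rintro l ((hl | hl) | (⟨x, -, hl⟩ | ⟨x, -, hl⟩))
          · exact hl.1
          · exact hl.1
          · exact hl.1
          · exact hl.1
        have h6 := ncard_le_ncard h5 hfin
        have h7 := ncard_union_le (S1 ∪ S2) (S3 ∪ S4)
        have h8 := ncard_union_le S1 S2
        have h9 := ncard_union_le S3 S4
        rw [hT0c] at h6
        rw [hXc] at h3 h4
        omega
      have hl1 : a' ∉ D l := fun e => hl (Or.inl (Or.inl ⟨hlM, e⟩))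
      have hl2 : a0 ∉ D l := fun e => hl (Or.inl (Or.inr ⟨hlM, e⟩))
      have hl3 : ∀ z ∈ UB (insert a' (D l)), z ∉ X := fun z hz hzX =>
        hl (Or.inr (Or.inl ⟨z, hzX, hlM, ⟨hlM, hl1⟩, hz⟩))
      have hl4 : ∀ z ∈ UB (insert a0 (D l)), z ∉ X := fun z hz hzX =>
        hl (Or.inr (Or.inr ⟨z, hzX, hlM, ⟨hlM, hl2⟩, hz⟩))
      have s1 := F1.sp l ⟨hlM, hl1⟩
      have s2 := F2.sp l ⟨hlM, hl2⟩
      obtain ⟨d, hd, -⟩ := F1.two l ⟨hlM, hl1⟩
      have hdX : d ∈ (insert y0 X)ᶜ := hAX d (hDA l hlM hd) (fun e => haD l hlM (e ▸ hd))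
        (fun e => hwA (e ▸ hDA l hlM hd))
      have hW1 : UB (insert a' (D l)) ⊆ (insert y0 X)ᶜ := by
        rintro z hz (e | e)
        · exact s1.notW (e ▸ hz)
        · exact hl3 z hz e
      have hW2 : UB (insert a0 (D l)) ⊆ (insert y0 X)ᶜ := by
        rintro z hz (e | e)
        · exact s2.notW (e ▸ hz)
        · exact hl4 z hz e
      exact (nb_link s1.con (s1.sub a' (Or.inl rfl)) (s1.sub d (Or.inr hd)) hW1
        (hAX a' ha' ha'a ha'y) hdX).trans (nb_link s2.con (s2.sub d (Or.inr hd))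
        (s2.sub a0 (Or.inl rfl)) hW2 hdX (hAX a0 ha0 ha0a ha0y))
    · have hwX' : w ∈ (insert y0 X)ᶜ := by
        rintro (e | e)
        · exact hyw e.symm
        · exact hwX e
      exact (Rc.adj (hAX a' ha' ha'a ha'y) hwX' (hAw a' ha').symm).tail (hAw a0 ha0)
        (hAX a0 ha0 ha0a ha0y)
  -- all vertices are in this component
  have hmain : ∀ z, z ∉ insert y0 X → Rc G (insert y0 X)ᶜ z a0 := by
    intro z hz
    by_contra hcon
    set U0 : Set V := cmp G (insert y0 X)ᶜ z with hU0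
    have hzU : z ∈ U0 := mem_cmp_self hz
    have hU0c : Con G U0 := con_cmp hz
    have hU0X : ∀ c ∈ U0, c ∉ insert y0 X := fun c hc => cmp_subset hc
    have hU0A : ∀ c ∈ U0, c ∉ A := by
      intro c hc hcA
      have h1 := hU0X c hc
      refine hcon (Rc.trans hc (hconA c hcA ?_ ?_))
      · rintro rfl
        exact h1 (Or.inr (Or.inl rfl))
      · rintro rfl
        exact h1 (Or.inl rfl)
    have hU0w : w ∉ U0 := by
      intro hw
      exact hcon (cmp_closed hw (hAX a0 ha0 ha0a ha0y) (hAw a0 ha0))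
    have hU0Q : ∀ c ∈ U0, c ∈ Q := fun c hc => ⟨fun e => hU0w (e ▸ hc), hU0A c hc⟩
    have hNb : Nb G U0 ⊆ insert y0 X := by
      intro c hc
      by_contra hcX
      exact notMem_of_mem_nb_cmp hc hcX
    have h5 : 5 ≤ (Nb G U0).ncard := h.le_nb hzU (z := a0) hcon
      (fun e => hAX a0 ha0 ha0a ha0y (hNb e))
    set I' : Set ℕ := {l | l ∈ I ∧ u l ∈ Nb G U0} with hI'
    have hI'f : I'.Finite := hIf.subset fun l hl => hl.1
    have hI'c : 3 ≤ I'.ncard := by
      have h1 : Nb G U0 ⊆ {y0, a} ∪ u '' I' := by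
        intro c hc
        rcases hNb hc with e | (e | ⟨l, hl, e⟩)
        · exact Or.inl (Or.inl e)
        · exact Or.inl (Or.inr e)
        · exact Or.inr ⟨l, ⟨hl, e ▸ hc⟩, e⟩
      have h2 := ncard_le_ncard h1 (toFinite _)
      have h3 := ncard_union_le {y0, a} (u '' I')
      have h4 : ({y0, a} : Set V).ncard ≤ 2 := by
        have := ncard_insert_le y0 {a}
        rw [ncard_singleton] at this
        exact this
      have h6 := ncard_image_le (f := u) hI'f
      omega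
    have hstep : ∀ l ∈ I', y l ∈ U0 := by
      intro l hl
      by_contra hyl
      have hlT : l ∈ T := hI hl.1
      obtain ⟨-, c, hc, hcu⟩ := hl.2
      have hcU : c ∈ U l := by
        by_contra hcU
        have h1 := (hsp l hlT).q (hBA l hlT) ⟨hcU, u l, huU l hlT, hcu.symm⟩
          (hU0Q c hc).1 (hU0Q c hc).2
        exact hyl (h1 ▸ hc)
      have hsub := (hsp l hlT).subset (hBA l hlT) hU0c hU0w hU0A hyl hc hcU
      obtain ⟨l', hl', hne⟩ : ∃ l' ∈ I', l' ≠ l := by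
        by_contra hcon'
        push Not at hcon'
        have h1 := ncard_le_ncard (show I' ⊆ {l} from hcon') (toFinite _)
        rw [ncard_singleton] at h1
        omega
      have hl'T : l' ∈ T := hI hl'.1
      obtain ⟨-, c', hc', hcu'⟩ := hl'.2
      have h1 : u l' ∉ U l := fun e => (hdich l' hl'T l hlT hne).1 _ (huU l' hl'T) e
      have h2 := (hsp l hlT).q (hBA l hlT) ⟨h1, c', hsub hc', hcu'⟩ (huw l' hl'T) (huA l' hl'T)
      exact hyU l hlT l' hl'T (h2 ▸ huU l' hl'T)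
    -- the attached set
    set W : Set V := U0 ∪ {v | ∃ l ∈ I, y l ∈ U0 ∧ v ∈ U l} with hW
    have hWcon : Con G W := by
      have h1 : ∀ c ∈ W, Rc G W c z := by
        rintro c (hc | ⟨l, hl, hyl, hc⟩)
        · exact hU0c.rc subset_union_left hc hzU
        · obtain ⟨-, e, he, hey⟩ := (hsp l (hI hl)).yNb
          have hUW : U l ⊆ W := fun v hv => Or.inr ⟨l, hl, hyl, hv⟩
          have h2 : Rc G W c e := (hsp l (hI hl)).con.rc hUW hc he
          exact (h2.tail hey (Or.inl hyl)).trans (hU0c.rc subset_union_left hyl hzU)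
      exact ⟨⟨z, Or.inl hzU⟩, fun p hp q hq => (h1 p hp).trans (h1 q hq).symm⟩
    have hWQ : W ⊆ Q := by
      rintro c (hc | ⟨l, hl, -, hc⟩)
      · exact hU0Q c hc
      · exact ⟨fun e => (hsp l (hI hl)).notW (e ▸ hc), (hsp l (hI hl)).notA c hc⟩
    have hWN : ∀ q ∈ Nb G W, q ∈ Q → q = y0 := by
      rintro q ⟨hq, c, hc, hcq⟩ hqQ
      rcases hc with hc | ⟨l, hl, hyl, hc⟩
      · have h1 : q ∈ Nb G U0 := ⟨fun e => hq (Or.inl e), c, hc, hcq⟩
        rcases hNb h1 with e | (e | ⟨l, hl, e⟩)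
        · exact e
        · exact absurd (e ▸ ha) hqQ.2
        · exfalso
          have h2 : l ∈ I' := ⟨hl, e ▸ h1⟩
          exact hq (Or.inr ⟨l, hl, hstep l h2, e ▸ huU l (hI hl)⟩)
      · exfalso
        have h1 : q ∈ Nb G (U l) := ⟨fun e => hq (Or.inr ⟨l, hl, hyl, e⟩), c, hc, hcq⟩
        have h2 := (hsp l (hI hl)).q (hBA l (hI hl)) h1 hqQ.1 hqQ.2
        exact hq (Or.inl (h2 ▸ hyl))
    have hWT : {j | j ∈ T ∧ y j ∈ W}.ncard ≤ n := by
      have h1 : {j | j ∈ T ∧ y j ∈ W} ⊆ I ∪ {j | j ∈ T ∧ y0 ∈ U j} := by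
        rintro j ⟨hjT, hj⟩
        by_contra hno
        have hjI : j ∉ I := fun e => hno (Or.inl e)
        have hjy : y0 ∉ U j := fun e => hno (Or.inr ⟨hjT, e⟩)
        have hyj : y j ∈ U0 := by
          rcases hj with hj | ⟨l, hl, -, hj⟩
          · exact hj
          · exact absurd hj (hyU j hjT l (hI hl))
        have hUX : U j ⊆ (insert y0 X)ᶜ := by
          rintro v hv (e | (e | ⟨l, hl, e⟩))
          · exact hjy (e ▸ hv)
          · exact (hsp j hjT).notA v hv (e ▸ ha)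
          · have hlj : l ≠ j := by
              rintro rfl
              exact hjI hl
            exact (hdich l (hI hl) j hjT hlj).1 (u l) (huU l (hI hl)) (e ▸ hv)
        obtain ⟨-, c, hc, hcy⟩ := (hsp j hjT).yNb
        have hcU : c ∈ U0 := cmp_closed hyj (hUX hc) hcy.symm
        have hsub : U j ⊆ U0 := (hsp j hjT).con.subset_cmp hUX hc hcU
        obtain ⟨d1, hd1, d2, hd2, hd12⟩ := F.two j (hP j (hTM j hjT))
        obtain ⟨d, hd, hdy⟩ : ∃ d ∈ D j, d ≠ y0 := by
          by_cases e : d1 = y0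
          · exact ⟨d2, hd2, fun e' => hd12 (e.trans e'.symm)⟩
          · exact ⟨d1, hd1, e⟩
        have hda : d ≠ a := fun e => haD j (hTM j hjT) (e ▸ hd)
        have hdA : d ∈ A := hDA j (hTM j hjT) hd
        obtain ⟨-, c', hc', hcd⟩ := (hsp j hjT).sub d (Or.inr hd)
        exact hU0A d (cmp_closed (hsub hc') (hAX d hdA hda hdy) hcd) hdA
      have h2 : {j | j ∈ T ∧ y0 ∈ U j}.ncard ≤ 1 := by
        by_contra hc
        obtain ⟨i, j, hi, hj, hij⟩ := (one_lt_ncard_iff (hTf.subset fun j hj => hj.1)).1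
          (lt_of_not_ge hc)
        exact (hdich i hi.1 j hj.1 hij).1 y0 hi.2 hj.2
      have h3 := ncard_le_ncard h1 (hIf.union (hTf.subset fun j hj => hj.1))
      have h4 := ncard_union_le I {j | j ∈ T ∧ y0 ∈ U j}
      omega
    obtain ⟨i, j, hi, hj, hij⟩ := (one_lt_ncard_iff hI'f).1 (by omega)
    exact hIr i hi.1 j hj.1 hij ⟨W, ⟨hWcon, hWQ, ⟨y0, hWN⟩, hWT⟩, Or.inl (hstep i hi),
      Or.inl (hstep j hj)⟩
  intro p q hp hq
  exact (hmain p hp).trans (hmain q hq).symm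

end Pool.Agent.Lib.MP_d9512b_co
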