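import Mathlib

set_option autoImplicit false

/-!
# Contractible subgraphs of graphs with well connected neighbourhoods

Connectivity of induced subgraphs in terms of cuts, ends of a connected set, pruning.
-/

namespace Pool.Agent.Lib.MP_d9512b_co.Loc

open Finset Classical

variable {V : Type} [Fintype V] {G : SimpleGraph V}

/-- The set `A` induces a connected subgraph, in terms of cuts. -/
def Cn (G : SimpleGraph V) (A : Finset V) : Prop :=
  A.Nonempty ∧ ∀ B ⊆ A, B.Nonempty → B ≠ A → ∃ a ∈ B, ∃ b ∈ A, b ∉ B ∧ G.Adj a b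

omit [Fintype V] in
theorem conn_iff {A : Finset V} : (G.induce (↑A : Set V)).Connected ↔ Cn G A := by
  constructor
  · intro h
    obtain ⟨x⟩ := h.nonempty
    refine ⟨⟨x.1, x.2⟩, ?_⟩
    intro B hBA hB hne
    obtain ⟨a, ha⟩ := hB
    obtain ⟨b, hb, hbB⟩ : ∃ b ∈ A, b ∉ B := by
      by_contra hcon
      push Not at hcon
      exact hne (Finset.Subset.antisymm hBA hcon)
    obtain ⟨p⟩ := h.preconnected ⟨a, hBA ha⟩ ⟨b, hb⟩
    obtain ⟨d, -, hd1, hd2⟩ := p.exists_boundary_dart {x | x.1 ∈ B} ha hbB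
    exact ⟨d.fst.1, hd1, d.snd.1, d.snd.2, hd2, d.adj⟩
  · rintro ⟨⟨x, hx⟩, h⟩
    rw [SimpleGraph.connected_iff_exists_forall_reachable]
    refine ⟨⟨x, hx⟩, ?_⟩
    let B : Finset V := A.filter (fun y => ∃ hy : y ∈ A,
      (G.induce (↑A : Set V)).Reachable ⟨x, hx⟩ ⟨y, hy⟩)
    have hxB : x ∈ B := Finset.mem_filter.mpr ⟨hx, hx, SimpleGraph.Reachable.refl _⟩
    by_cases hBA : B = A
    · rintro ⟨y, hy⟩
      have hy' : y ∈ B := by
        rw [hBA]
        exact hy
      exact (Finset.mem_filter.mp hy').2.2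
    · obtain ⟨a, ha, b, hb, hbB, hab⟩ := h B (Finset.filter_subset _ _) ⟨x, hxB⟩ hBA
      exfalso
      obtain ⟨haA, haA2, hr⟩ := Finset.mem_filter.mp ha
      refine hbB (Finset.mem_filter.mpr ⟨hb, hb, hr.trans (SimpleGraph.Adj.reachable ?_)⟩)
      exact hab

omit [Fintype V] in
theorem Cn.ins {A : Finset V} (h : Cn G A) {v a : V} (ha : a ∈ A) (hva : G.Adj v a) :
    Cn G (insert v A) := by
  refine ⟨⟨v, Finset.mem_insert_self _ _⟩, ?_⟩
  intro B hB hne hneA
  by_cases hvB : v ∈ B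
  · by_cases haB : a ∈ B
    · -- `B ∩ A` is a proper subset of `A`
      have h1 : B ∩ A ≠ A := by
        intro h2
        refine hneA (Finset.Subset.antisymm hB ?_)
        intro x hx
        rcases Finset.mem_insert.mp hx with rfl | hx
        · exact hvB
        · rw [← h2] at hx
          exact (Finset.mem_inter.mp hx).1
      obtain ⟨x, hx, y, hy, hyB, hxy⟩ := h.2 (B ∩ A) Finset.inter_subset_right
        ⟨a, Finset.mem_inter.mpr ⟨haB, ha⟩⟩ h1
      exact ⟨x, (Finset.mem_inter.mp hx).1, y, Finset.mem_insert_of_mem hy,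
        fun h3 => hyB (Finset.mem_inter.mpr ⟨h3, hy⟩), hxy⟩
    · exact ⟨v, hvB, a, Finset.mem_insert_of_mem ha, haB, hva⟩
  · have hBA : B ⊆ A := by
      intro x hx
      rcases Finset.mem_insert.mp (hB hx) with rfl | h1
      · exact absurd hx hvB
      · exact h1
    by_cases h1 : B = A
    · exact ⟨a, by rw [h1]; exact ha, v, Finset.mem_insert_self _ _, hvB, hva.symm⟩
    · obtain ⟨x, hx, y, hy, hyB, hxy⟩ := h.2 B hBA hne h1
      exact ⟨x, hx, y, Finset.mem_insert_of_mem hy, hyB, hxy⟩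

omit [Fintype V] in
theorem cn_singleton (v : V) : Cn G {v} := by
  refine ⟨⟨v, Finset.mem_singleton_self v⟩, ?_⟩
  intro B hB hne hneA
  exfalso
  rcases Finset.subset_singleton_iff.mp hB with h | h
  · rw [h] at hne
    exact Finset.not_nonempty_empty hne
  · exact hneA h

omit [Fintype V] in
/-- Connected subsets of every size. -/
theorem Cn.exists_subset {A : Finset V} (h : Cn G A) (k : ℕ) (hk : 1 ≤ k) (hkA : k ≤ A.card) :
    ∃ P ⊆ A, P.card = k ∧ Cn G P := by
  induction k, hk using Nat.le_induction with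
  | base =>
    obtain ⟨v, hv⟩ := h.1
    exact ⟨{v}, Finset.singleton_subset_iff.mpr hv, Finset.card_singleton v, cn_singleton v⟩
  | succ k hk ih =>
    obtain ⟨P, hPA, hPk, hP⟩ := ih (by omega)
    have hne : P ≠ A := by
      rintro rfl
      omega
    obtain ⟨a, ha, b, hb, hbP, hab⟩ := h.2 P hPA hP.1 hne
    refine ⟨insert b P, Finset.insert_subset hb hPA, ?_, hP.ins ha hab.symm⟩
    rw [Finset.card_insert_of_notMem hbP, hPk]

omit [Fintype V] in
/-- The end of a connected set: a set `D` attached only at `c`, all of whose vertices can be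
removed. -/
theorem Cn.exists_end {S : Finset V} (h : Cn G S) (h2 : 2 ≤ S.card) :
    ∃ D ⊆ S, ∃ c ∈ S, c ∉ D ∧ D.Nonempty ∧
      (∀ a ∈ D, ∀ b ∈ S, b ∉ D → b ≠ c → ¬ G.Adj a b) ∧ ∀ v ∈ D, Cn G (S.erase v) := by
  let P : ℕ → Prop := fun k => ∃ D ⊆ S, ∃ c ∈ S, c ∉ D ∧ D.Nonempty ∧ D.card = k ∧
    (∀ a ∈ D, ∀ b ∈ S, b ∉ D → b ≠ c → ¬ G.Adj a b)
  have hex : ∃ k, P k := by
    obtain ⟨c, hc⟩ := h.1
    refine ⟨(S.erase c).card, S.erase c, Finset.erase_subset _ _, c, hc,
      Finset.notMem_erase _ _, ?_, rfl, ?_⟩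
    · rw [← Finset.card_pos, Finset.card_erase_of_mem hc]
      omega
    · intro a _ b hb hbD hbc
      exact absurd (Finset.mem_erase.mpr ⟨hbc, hb⟩) hbD
  obtain ⟨D, hDS, c, hcS, hcD, hDn, hDk, hD⟩ := Nat.find_spec hex
  have hmin : ∀ D' ⊆ S, ∀ c' ∈ S, c' ∉ D' → D'.Nonempty →
      (∀ a ∈ D', ∀ b ∈ S, b ∉ D' → b ≠ c' → ¬ G.Adj a b) → D.card ≤ D'.card := by
    intro D' h1 c' h3 h4 h5 h6
    rw [hDk]
    exact Nat.find_min' hex ⟨D', h1, c', h3, h4, h5, rfl, h6⟩
  refine ⟨D, hDS, c, hcS, hcD, hDn, hD, ?_⟩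
  intro v hv
  have hvS := hDS hv
  have hcv : c ≠ v := by
    rintro rfl
    exact hcD hv
  refine ⟨⟨c, Finset.mem_erase.mpr ⟨hcv, hcS⟩⟩, ?_⟩
  intro B hB hBn hBne
  by_contra hcon
  push Not at hcon
  -- a set `B` without `c`, closed except for `v`
  have key : ∀ B ⊆ S.erase v, B.Nonempty → c ∉ B →
      (∀ a ∈ B, ∀ b ∈ S.erase v, b ∉ B → ¬ G.Adj a b) → False := by
    intro B hB hBn hcB hBc
    -- `B ⊆ D`
    have hBD : B ⊆ D := by
      by_contra hnot
      have hT : (B \ D).Nonempty := by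
        rw [Finset.sdiff_nonempty]
        exact hnot
      have hTS : B \ D ⊆ S := Finset.sdiff_subset.trans (hB.trans (Finset.erase_subset _ _))
      have hTne : B \ D ≠ S := by
        intro h1
        have : c ∈ B \ D := by rw [h1]; exact hcS
        exact hcB (Finset.mem_sdiff.mp this).1
      obtain ⟨t, ht, w, hw, hwT, htw⟩ := h.2 _ hTS hT hTne
      obtain ⟨htB, htD⟩ := Finset.mem_sdiff.mp ht
      have htc : t ≠ c := by
        rintro rfl
        exact hcB htB
      by_cases hwD : w ∈ D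
      · exact hD w hwD t (hTS ht) htD htc htw.symm
      · have hwB : w ∉ B := fun h1 => hwT (Finset.mem_sdiff.mpr ⟨h1, hwD⟩)
        have hwv : w ≠ v := by
          rintro rfl
          exact hwD hv
        exact hBc t htB w (Finset.mem_erase.mpr ⟨hwv, hw⟩) hwB htw
    have hvB : v ∉ B := fun h1 => (Finset.mem_erase.mp (hB h1)).1 rfl
    have hlt : B.card < D.card := Finset.card_lt_card
      ((Finset.ssubset_iff_of_subset hBD).mpr ⟨v, hv, hvB⟩)
    have := hmin B (hB.trans (Finset.erase_subset _ _)) v hvS hvB hBn (by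
      intro a ha b hb hbB hbv
      exact hBc a ha b (Finset.mem_erase.mpr ⟨hbv, hb⟩) hbB)
    omega
  by_cases hcB : c ∈ B
  · -- the complement
    refine key (S.erase v \ B) Finset.sdiff_subset ?_ ?_ ?_
    · rw [Finset.sdiff_nonempty]
      exact fun h1 => hBne (Finset.Subset.antisymm hB h1)
    · exact fun h1 => (Finset.mem_sdiff.mp h1).2 hcB
    · intro a ha b hb hbn hab
      have hbB : b ∈ B := by
        by_contra h1
        exact hbn (Finset.mem_sdiff.mpr ⟨hb, h1⟩)
      exact hcon b hbB a (Finset.mem_sdiff.mp ha).1 (Finset.mem_sdiff.mp ha).2 hab.symm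
  · exact key B hB hBn hcB fun a ha b hb hbB => hcon a ha b hb hbB

/-! ### the hypotheses -/

/-- the neighbours of `z` other than `c` -/
noncomputable def nbd (G : SimpleGraph V) (z c : V) : Finset V :=
  Finset.univ.filter (fun x => G.Adj z x ∧ x ≠ c)

theorem mem_nbd {z c x : V} : x ∈ nbd G z c ↔ G.Adj z x ∧ x ≠ c := by
  simp [nbd]

/-- the vertices `z` whose neighbourhood without `c` is not connected -/
noncomputable def bad (G : SimpleGraph V) (c : V) : Finset V :=
  Finset.univ.filter (fun z => z ≠ c ∧ ¬ Cn G (nbd G z c))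

theorem mem_bad {c z : V} : z ∈ bad G c ↔ z ≠ c ∧ ¬ Cn G (nbd G z c) := by
  simp [bad]

/-- two-connected sets -/
structure Two (G : SimpleGraph V) (K : Finset V) : Prop where
  card : 3 ≤ K.card
  cn : Cn G K
  del : ∀ x ∈ K, Cn G (K.erase x)

theorem mem_co {S : Finset V} {x : V} : x ∈ Finset.univ \ S ↔ x ∉ S := by simp

/-- The pruning step. -/
theorem prune {S : Finset V} (hH : ∀ c ∈ S, ∀ X ⊆ bad G c, Cn G (Finset.univ \ insert c X))
    (hb : ∀ c ∈ S, ∃ y, y ∉ S ∧ y ∉ bad G c) (hS : Cn G S) (hS2 : 2 ≤ S.card)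
    (hK : Two G (Finset.univ \ S)) :
    ∃ v ∈ S, Cn G (S.erase v) ∧ ∃ z1 z2 : V, z1 ∉ S ∧ z2 ∉ S ∧ z1 ≠ z2 ∧ G.Adj v z1 ∧
      G.Adj v z2 := by
  obtain ⟨D, hDS, c, hcS, hcD, hDn, hD, hDv⟩ := hS.exists_end hS2
  by_contra hcon
  push Not at hcon
  -- vertices of `D` have at most one neighbour outside `S`
  have hone : ∀ v ∈ D, ∀ z1 z2, z1 ∉ S → z2 ∉ S → G.Adj v z1 → G.Adj v z2 → z1 = z2 := by
    intro v hv z1 z2 h1 h2 h3 h4
    by_contra h5
    exact hcon v (hDS hv) (hDv v hv) z1 z2 h1 h2 h5 h3 h4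
  -- the neighbours of `D` outside `S`
  let X : Finset V := (Finset.univ \ S).filter (fun z => ∃ u ∈ D, G.Adj u z)
  have hX : ∀ z, z ∈ X ↔ z ∉ S ∧ ∃ u ∈ D, G.Adj u z := by
    intro z
    simp [X]
  have hXbad : X ⊆ bad G c := by
    intro z hz
    obtain ⟨hzS, u, hu, huz⟩ := (hX z).mp hz
    have hzc : z ≠ c := by
      rintro rfl
      exact hzS hcS
    refine mem_bad.mpr ⟨hzc, ?_⟩
    rintro ⟨-, hcn⟩
    -- a neighbour of `z` outside `S`
    obtain ⟨w, hw, hzw⟩ : ∃ w, w ∉ S ∧ G.Adj z w := by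
      have hne : ({z} : Finset V) ≠ Finset.univ \ S := by
        intro h1
        have := hK.card
        rw [← h1, Finset.card_singleton] at this
        omega
      obtain ⟨a, ha, b, hb, -, hab⟩ := hK.cn.2 {z}
        (Finset.singleton_subset_iff.mpr (mem_co.mpr hzS)) ⟨z, Finset.mem_singleton_self z⟩ hne
      rw [Finset.mem_singleton] at ha
      subst ha
      exact ⟨b, mem_co.mp hb, hab⟩
    have huc : u ≠ c := by
      rintro rfl
      exact hcD hu
    have hwc : w ≠ c := by
      rintro rfl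
      exact hw hcS
    have hwD : w ∉ D := fun h1 => hw (hDS h1)
    obtain ⟨a, ha, b, hb, hbB, hab⟩ := hcn ((nbd G z c).filter (fun x => x ∈ D))
      (Finset.filter_subset _ _)
      ⟨u, Finset.mem_filter.mpr ⟨mem_nbd.mpr ⟨huz.symm, huc⟩, hu⟩⟩ (by
        intro h1
        have h2 : w ∈ nbd G z c := mem_nbd.mpr ⟨hzw, hwc⟩
        rw [← h1] at h2
        exact hwD (Finset.mem_filter.mp h2).2)
    obtain ⟨haN, haD⟩ := Finset.mem_filter.mp ha
    obtain ⟨hbz, hbc⟩ := mem_nbd.mp hb
    have hbD : b ∉ D := fun h1 => hbB (Finset.mem_filter.mpr ⟨hb, h1⟩)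
    by_cases hbS : b ∈ S
    · exact hD a haD b hbS hbD hbc hab
    · have := hone a haD z b hzS hbS (mem_nbd.mp haN).1.symm hab
      subst this
      exact G.loopless.irrefl _ hbz
  have hcX : c ∉ X := fun h1 => ((hX c).mp h1).1 hcS
  obtain ⟨-, h1⟩ := hH c hcS X hXbad
  obtain ⟨y, hyS, hyb⟩ := hb c hcS
  have hyX : y ∉ X := fun h2 => hyb (hXbad h2)
  obtain ⟨a, ha, b, hb, hbD, hab⟩ := h1 D (by
    intro x hx
    rw [mem_co, Finset.mem_insert, not_or]
    refine ⟨?_, fun h2 => ((hX x).mp h2).1 (hDS hx)⟩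
    rintro rfl
    exact hcD hx) hDn (by
    intro h2
    have h3 : y ∈ Finset.univ \ insert c X := by
      rw [mem_co, Finset.mem_insert, not_or]
      refine ⟨?_, hyX⟩
      rintro rfl
      exact hyS hcS
    rw [← h2] at h3
    exact hyS (hDS h3))
  rw [mem_co, Finset.mem_insert, not_or] at hb
  by_cases hbS : b ∈ S
  · exact hD a ha b hbS hbD hb.1 hab
  · exact hb.2 ((hX b).mpr ⟨hbS, a, ha, hab⟩)

omit [Fintype V] in
/-- Adding a vertex with two neighbours. -/
theorem Two.ins {K : Finset V} (h : Two G K) {v z1 z2 : V} (h1 : z1 ∈ K) (h2 : z2 ∈ K)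
    (h12 : z1 ≠ z2) (hv1 : G.Adj v z1) (hv2 : G.Adj v z2) (hv : v ∉ K) :
    Two G (insert v K) := by
  refine ⟨?_, h.cn.ins h1 hv1, ?_⟩
  · rw [Finset.card_insert_of_notMem hv]
    have := h.card
    omega
  · intro x hx'
    rcases Finset.mem_insert.mp hx' with rfl | hx
    · rw [Finset.erase_insert hv]
      exact h.cn
    · have hxv : x ≠ v := by
        rintro rfl
        exact hv hx
      rw [Finset.erase_insert_of_ne hxv.symm]
      by_cases hx1 : z1 = x
      · exact (h.del x hx).ins (a := z2)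
          (Finset.mem_erase.mpr ⟨by rw [← hx1]; exact h12.symm, h2⟩) hv2
      · exact (h.del x hx).ins (a := z1) (Finset.mem_erase.mpr ⟨hx1, h1⟩) hv1

/-- All smaller sizes are attained. -/
theorem prune_all {S : Finset V} (hH : ∀ c ∈ S, ∀ X ⊆ bad G c, Cn G (Finset.univ \ insert c X))
    (hb : ∀ c ∈ S, ∃ y, y ∉ S ∧ y ∉ bad G c) (hS : Cn G S) (hK : Two G (Finset.univ \ S))
    (n : ℕ) (hn : 1 ≤ n) (hnS : n ≤ S.card) :
    ∃ T ⊆ S, T.card = n ∧ Cn G T ∧ Two G (Finset.univ \ T) := by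
  obtain ⟨j, hj⟩ : ∃ j, S.card = n + j := ⟨S.card - n, by omega⟩
  induction j generalizing S with
  | zero => exact ⟨S, Finset.Subset.refl S, by omega, hS, hK⟩
  | succ j ih =>
    obtain ⟨v, hv, hcn, z1, z2, h1, h2, h12, hv1, hv2⟩ := prune hH hb hS (by omega) hK
    have hco : Finset.univ \ S.erase v = insert v (Finset.univ \ S) := by
      ext x
      simp only [Finset.mem_sdiff, Finset.mem_univ, true_and, Finset.mem_erase,
        Finset.mem_insert]
      tauto
    have hvco : v ∉ Finset.univ \ S := fun h => mem_co.mp h hv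
    have hK' : Two G (Finset.univ \ S.erase v) := by
      rw [hco]
      exact hK.ins (mem_co.mpr h1) (mem_co.mpr h2) h12 hv1 hv2 hvco
    have hc : (S.erase v).card = S.card - 1 := Finset.card_erase_of_mem hv
    obtain ⟨T, hT, h3⟩ := ih (S := S.erase v)
      (fun c hc' X hX => hH c (Finset.mem_of_mem_erase hc') X hX)
      (fun c hc' => by
        obtain ⟨y, hy1, hy2⟩ := hb c (Finset.mem_of_mem_erase hc')
        exact ⟨y, fun h4 => hy1 (Finset.mem_of_mem_erase h4), hy2⟩) hcn hK' (by omega) (by omega)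
    exact ⟨T, hT.trans (Finset.erase_subset _ _), h3⟩

/-! ### starting sets -/

omit [Fintype V] in
/-- A vertex adjacent to everything. -/
theorem cn_cone {Q : Finset V} {z : V} (h : ∀ q ∈ Q, G.Adj z q) : Cn G (insert z Q) := by
  refine ⟨⟨z, Finset.mem_insert_self _ _⟩, ?_⟩
  intro B hB hBn hBne
  by_cases hz : z ∈ B
  · obtain ⟨b, hb, hbB⟩ : ∃ b ∈ insert z Q, b ∉ B := by
      by_contra hcon
      push Not at hcon
      exact hBne (Finset.Subset.antisymm hB hcon)
    refine ⟨z, hz, b, hb, hbB, ?_⟩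
    rcases Finset.mem_insert.mp hb with rfl | h1
    · exact absurd hz hbB
    · exact h b h1
  · obtain ⟨a, ha⟩ := hBn
    refine ⟨a, ha, z, Finset.mem_insert_self _ _, hz, ?_⟩
    rcases Finset.mem_insert.mp (hB ha) with rfl | h1
    · exact absurd ha hz
    · exact (h a h1).symm

omit [Fintype V] in
theorem two_cone {P : Finset V} {z : V} (hP : Cn G P) (hP2 : 2 ≤ P.card) (hz : z ∉ P)
    (h : ∀ q ∈ P, G.Adj z q) : Two G (insert z P) := by
  refine ⟨?_, cn_cone h, ?_⟩
  · rw [Finset.card_insert_of_notMem hz]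
    omega
  · intro x hx
    by_cases hxz : x = z
    · rw [hxz, Finset.erase_insert hz]
      exact hP
    · rw [Finset.erase_insert_of_ne (fun h1 => hxz h1.symm)]
      exact cn_cone fun q hq => h q (Finset.mem_of_mem_erase hq)

/-- The start at an edge. -/
theorem start_edge (h3 : ∀ X : Finset V, X.card < 3 → Cn G (Finset.univ \ X))
    (hcard : 4 ≤ Fintype.card V) {x y : V} (hxy : G.Adj x y)
    (hb : ∀ c, c ≠ x → c ≠ y → x ∉ bad G c ∨ y ∉ bad G c) :
    ∃ v, v ≠ x ∧ v ≠ y ∧ G.Adj v x ∧ G.Adj v y ∧ Cn G (Finset.univ \ {v, x, y}) := by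
  have hne : x ≠ y := hxy.ne
  have hc2 : ∀ a b : V, ({a, b} : Finset V).card < 3 := fun a b =>
    lt_of_le_of_lt (Finset.card_le_two) (by norm_num)
  have hWc : 2 ≤ (Finset.univ \ ({x, y} : Finset V)).card := by
    have h1 := Finset.le_card_sdiff ({x, y} : Finset V) Finset.univ
    have h2 := hc2 x y
    rw [Finset.card_univ] at h1
    omega
  obtain ⟨D, hDW, c, hcW, hcD, hDn, hD, hDv⟩ := (h3 _ (hc2 x y)).exists_end hWc
  have hcW' : c ≠ x ∧ c ≠ y := by
    have := mem_co.mp hcW
    simpa using this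
  -- the argument for one of the two ends
  have key : ∀ x' y' : V, G.Adj x' y' → c ≠ x' → c ≠ y' → x' ∉ D → y' ∉ D →
      (∀ b, b ∉ ({x, y} : Finset V) ↔ b ≠ x' ∧ b ≠ y') →
      (∀ v ∈ D, G.Adj v x' → ¬ G.Adj v y') → x' ∈ bad G c := by
    intro x' y' hxy' hcx hcy hx'D hy'D hW hv
    refine mem_bad.mpr ⟨hcx.symm, ?_⟩
    rintro ⟨-, hcn⟩
    -- a neighbour of `x'` in `D`
    obtain ⟨a, ha, b, hb', hbD, hab⟩ := (h3 _ (hc2 c y')).2 D (by
      intro d hd
      rw [mem_co]
      simp only [Finset.mem_insert, Finset.mem_singleton, not_or]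
      refine ⟨?_, ?_⟩
      · rintro rfl
        exact hcD hd
      · rintro rfl
        exact hy'D hd) hDn (by
      intro h1
      have h2 : x' ∈ Finset.univ \ ({c, y'} : Finset V) := by
        rw [mem_co]
        simp only [Finset.mem_insert, Finset.mem_singleton, not_or]
        exact ⟨hcx.symm, hxy'.ne⟩
      rw [← h1] at h2
      exact hx'D h2)
    rw [mem_co] at hb'
    simp only [Finset.mem_insert, Finset.mem_singleton, not_or] at hb'
    have hbx : b = x' := by
      by_contra h1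
      exact hD a ha b (mem_co.mpr ((hW b).mpr ⟨h1, hb'.2⟩)) hbD hb'.1 hab
    subst hbx
    obtain ⟨a', ha', b', hb1, hb2, hab'⟩ := hcn ((nbd G b c).filter (fun x => x ∈ D))
      (Finset.filter_subset _ _)
      ⟨a, Finset.mem_filter.mpr ⟨mem_nbd.mpr ⟨hab.symm, fun h1 => hcD (h1 ▸ ha)⟩, ha⟩⟩ (by
        intro h1
        have h2 : y' ∈ nbd G b c := mem_nbd.mpr ⟨hxy', hcy.symm⟩
        rw [← h1] at h2
        exact hy'D (Finset.mem_filter.mp h2).2)
    obtain ⟨haN, haD⟩ := Finset.mem_filter.mp ha'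
    obtain ⟨hbz, hbc⟩ := mem_nbd.mp hb1
    have hb'D : b' ∉ D := fun h1 => hb2 (Finset.mem_filter.mpr ⟨hb1, h1⟩)
    by_cases hby : b' = y'
    · rw [hby] at hab'
      exact hv a' haD (mem_nbd.mp haN).1.symm hab'
    · exact hD a' haD b' (mem_co.mpr ((hW b').mpr ⟨hbz.ne.symm, hby⟩)) hb'D hbc hab'
  have hxD : x ∉ D := fun h1 => by
    have := mem_co.mp (hDW h1)
    simp at this
  have hyD : y ∉ D := fun h1 => by
    have := mem_co.mp (hDW h1)
    simp at this
  by_contra hcon
  push Not at hcon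
  have hno : ∀ v ∈ D, G.Adj v x → ¬ G.Adj v y := by
    intro v hv h1 h2
    refine hcon v h1.ne h2.ne h1 h2 ?_
    have h4 : Finset.univ \ ({v, x, y} : Finset V) = (Finset.univ \ {x, y}).erase v := by
      ext t
      simp only [Finset.mem_sdiff, Finset.mem_univ, true_and, Finset.mem_erase,
        Finset.mem_insert, Finset.mem_singleton]
      tauto
    rw [h4]
    exact hDv v hv
  have hx : x ∈ bad G c := key x y hxy hcW'.1 hcW'.2 hxD hyD (by intro b; simp) hno
  have hy : y ∈ bad G c := key y x hxy.symm hcW'.2 hcW'.1 hyD hxD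
    (by intro b; simp [and_comm]) (fun v hv h1 h2 => hno v hv h2 h1)
  rcases hb c hcW'.1 hcW'.2 with h | h
  · exact h hx
  · exact h hy

omit [Fintype V] in
theorem cn_pair {x y : V} (h : G.Adj x y) : Cn G {x, y} :=
  cn_cone fun q hq => by
    rw [Finset.mem_singleton] at hq
    rw [hq]
    exact h

/-- All sizes, for an edge. -/
theorem all_edge (h3 : ∀ X : Finset V, X.card < 3 → Cn G (Finset.univ \ X))
    {x y : V} (hxy : G.Adj x y)
    (hb : ∀ c, c ≠ x → c ≠ y → x ∉ bad G c ∨ y ∉ bad G c)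
    (hH : ∀ c, c ≠ x → c ≠ y → ∀ X ⊆ bad G c, Cn G (Finset.univ \ insert c X))
    (n : ℕ) (hn : 1 ≤ n) (hn3 : n + 3 ≤ Fintype.card V) :
    ∃ T : Finset V, T.card = n ∧ x ∉ T ∧ y ∉ T ∧ Cn G T ∧ Two G (Finset.univ \ T) := by
  obtain ⟨v, hvx, hvy, h1, h2, hcn⟩ := start_edge h3 (by omega) hxy hb
  have hv : v ∉ ({x, y} : Finset V) := by simp [hvx, hvy]
  have hc3 : ({v, x, y} : Finset V).card = 3 := by
    rw [Finset.card_insert_of_notMem hv, Finset.card_pair hxy.ne]
  have hK : Two G {v, x, y} := two_cone (cn_pair hxy) (by rw [Finset.card_pair hxy.ne]) hv (by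
    intro q hq
    simp only [Finset.mem_insert, Finset.mem_singleton] at hq
    rcases hq with rfl | rfl
    · exact h1
    · exact h2)
  have hco : Finset.univ \ (Finset.univ \ ({v, x, y} : Finset V)) = {v, x, y} := by
    ext t
    simp
  have hx : x ∉ Finset.univ \ ({v, x, y} : Finset V) := by simp
  have hy : y ∉ Finset.univ \ ({v, x, y} : Finset V) := by simp
  have hcx : ∀ c ∈ Finset.univ \ ({v, x, y} : Finset V), c ≠ x ∧ c ≠ y := by
    intro c hc
    exact ⟨fun h => hx (h ▸ hc), fun h => hy (h ▸ hc)⟩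
  obtain ⟨T, hT, hTn, hT1, hT2⟩ := prune_all (S := Finset.univ \ {v, x, y})
    (fun c hc X hX => hH c (hcx c hc).1 (hcx c hc).2 X hX)
    (fun c hc => by
      rcases hb c (hcx c hc).1 (hcx c hc).2 with h | h
      · exact ⟨x, hx, h⟩
      · exact ⟨y, hy, h⟩) hcn (by rw [hco]; exact hK) n hn (by
      rw [Finset.card_sdiff_of_subset (Finset.subset_univ _), hc3, Finset.card_univ]
      omega)
  exact ⟨T, hTn, fun h => hx (hT h), fun h => hy (hT h), hT1, hT2⟩

/-- All sizes, for `m`-connected graphs. -/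
theorem all_conn {m : ℕ} (hm : 3 ≤ m) (hmV : m < Fintype.card V)
    (hconn : ∀ X : Finset V, X.card < m → Cn G (Finset.univ \ X))
    (hbad : ∀ c, (bad G c).card + 2 ≤ m) (n : ℕ) (hn : 1 ≤ n) (hn3 : n + 3 ≤ Fintype.card V) :
    ∃ T : Finset V, T.card = n ∧ Cn G T ∧ Two G (Finset.univ \ T) := by
  have hH : ∀ c, ∀ X ⊆ bad G c, Cn G (Finset.univ \ insert c X) := by
    intro c X hX
    refine hconn _ ?_
    have h1 := Finset.card_le_card hX
    have h2 := Finset.card_insert_le c X
    have h3 := hbad c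
    omega
  obtain ⟨c⟩ : Nonempty V := Fintype.card_pos_iff.mp (by omega)
  -- a vertex which is not bad
  obtain ⟨z, hzc, hzb⟩ : ∃ z, z ≠ c ∧ z ∉ bad G c := by
    by_contra hcon
    push Not at hcon
    have h1 : Finset.univ.erase c ⊆ bad G c := by
      intro z hz
      exact hcon z (Finset.ne_of_mem_erase hz)
    have h2 := Finset.card_le_card h1
    rw [Finset.card_erase_of_mem (Finset.mem_univ c), Finset.card_univ] at h2
    have := hbad c
    omega
  have hN : Cn G (nbd G z c) := by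
    by_contra h
    exact hzb (mem_bad.mpr ⟨hzc, h⟩)
  have hNc : m ≤ (nbd G z c).card + 1 := by
    by_contra hcon
    have h1 : (insert c (nbd G z c)).card < m := by
      have := Finset.card_insert_le c (nbd G z c)
      omega
    obtain ⟨-, h2⟩ := hconn _ h1
    obtain ⟨a, ha, b, hb, -, hab⟩ := h2 {z} (by
      rw [Finset.singleton_subset_iff, mem_co, Finset.mem_insert, not_or]
      exact ⟨hzc, fun h => G.loopless.irrefl _ (mem_nbd.mp h).1⟩)
      ⟨z, Finset.mem_singleton_self z⟩ (by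
      intro h3
      have h4 := Finset.le_card_sdiff (insert c (nbd G z c)) Finset.univ
      rw [← h3, Finset.card_singleton, Finset.card_univ] at h4
      omega)
    rw [Finset.mem_singleton] at ha
    subst ha
    rw [mem_co, Finset.mem_insert, not_or] at hb
    exact hb.2 (mem_nbd.mpr ⟨hab, hb.1⟩)
  have hzN : ∀ P ⊆ nbd G z c, z ∉ P := fun P hP h => G.loopless.irrefl _ (mem_nbd.mp (hP h)).1
  by_cases hm4 : m = 3
  · -- an edge
    subst hm4
    obtain ⟨x, hx⟩ := hN.1
    obtain ⟨T, hT, -, -, h1, h2⟩ := all_edge hconn (mem_nbd.mp hx).1 (by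
      intro c _ _
      by_contra h
      push Not at h
      have h1 : ({z, x} : Finset V) ⊆ bad G c := by
        intro t ht
        simp only [Finset.mem_insert, Finset.mem_singleton] at ht
        rcases ht with rfl | rfl
        · exact h.1
        · exact h.2
      have h2 := Finset.card_le_card h1
      rw [Finset.card_pair (mem_nbd.mp hx).1.ne] at h2
      have := hbad c
      omega) (fun c _ _ => hH c) n hn hn3
    exact ⟨T, hT, h1, h2⟩
  · -- sets with connected complement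
    have key : ∀ j, 2 ≤ j → j + 2 ≤ m → ∃ K : Finset V, K.card = j + 1 ∧
        Cn G (Finset.univ \ K) ∧ Two G K := by
      intro j hj hjm
      obtain ⟨P, hP, hPj, hPc⟩ := hN.exists_subset j (by omega) (by omega)
      have hzP := hzN P hP
      have hc : (insert z P).card = j + 1 := by
        rw [Finset.card_insert_of_notMem hzP, hPj]
      exact ⟨insert z P, hc, hconn _ (by omega), two_cone hPc (by omega) hzP
        fun q hq => (mem_nbd.mp (hP hq)).1⟩
    have hco : ∀ K : Finset V, Finset.univ \ (Finset.univ \ K) = K := by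
      intro K
      ext t
      simp
    have hcc : ∀ K : Finset V, (Finset.univ \ K).card = Fintype.card V - K.card := by
      intro K
      rw [Finset.card_sdiff_of_subset (Finset.subset_univ _), Finset.card_univ]
    by_cases hnm : n + m ≤ Fintype.card V + 1
    · obtain ⟨K, hKc, hKn, hK⟩ := key (m - 2) (by omega) (by omega)
      obtain ⟨T, -, h1⟩ := prune_all (S := Finset.univ \ K) (fun c _ => hH c)
        (fun c _ => by
          by_contra hcon
          push Not at hcon
          have h1 : K ⊆ bad G c := fun y hy => hcon y fun h2 => mem_co.mp h2 hy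
          have h2 := Finset.card_le_card h1
          have h3 := hbad c
          omega) hKn (by rw [hco]; exact hK) n hn (by rw [hcc]; omega)
      exact ⟨T, h1⟩
    · obtain ⟨K, hKc, hKn, hK⟩ := key (Fintype.card V - n - 1) (by omega) (by omega)
      exact ⟨Finset.univ \ K, by rw [hcc]; omega, hKn, by rw [hco]; exact hK⟩

end Pool.Agent.Lib.MP_d9512b_co.Loc
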