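import Mathlib
import Pool.Agent.Lib.MP_d9512b_co.Loc

set_option autoImplicit false

/-!
# Contraction of a connected set with 2-connected complement
-/

namespace Pool.Agent.Lib.MP_d9512b_co.Loc

open Finset Classical

variable {V : Type} [Fintype V] {G : SimpleGraph V}

omit [Fintype V] in
theorem Cn.mono {H : SimpleGraph V} {A : Finset V} (h : Cn G A)
    (hGH : ∀ a ∈ A, ∀ b ∈ A, G.Adj a b → H.Adj a b) : Cn H A := by
  refine ⟨h.1, ?_⟩
  intro B hB hBn hBne
  obtain ⟨a, ha, b, hb, hbB, hab⟩ := h.2 B hB hBn hBne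
  exact ⟨a, ha, b, hb, hbB, hGH a (hB ha) b hb hab⟩

/-- The contraction is 3-connected. -/
theorem contract_cn {S : Finset V} {s0 : V} (hs0 : s0 ∈ S) (hK : Two G (Finset.univ \ S))
    (h3 : ∀ X : Finset V, X.card < 3 → Cn G (Finset.univ \ X)) (f : V → V)
    (hfS : ∀ a ∈ S, f a = s0) (hfn : ∀ a, a ∉ S → f a = a) (X : Finset V) (hX : X.card ≤ 2) :
    Cn (SimpleGraph.fromRel (fun x y : V => ∃ a b, G.Adj a b ∧ f a = x ∧ f b = y))
      (insert s0 (Finset.univ \ S) \ X) := by
  set H := SimpleGraph.fromRel (fun x y : V => ∃ a b, G.Adj a b ∧ f a = x ∧ f b = y) with hH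
  have hadj : ∀ a b, G.Adj a b → f a ≠ f b → H.Adj (f a) (f b) := by
    intro a b hab hne
    rw [hH, SimpleGraph.fromRel_adj]
    exact ⟨hne, Or.inl ⟨a, b, hab, rfl, rfl⟩⟩
  have hadj' : ∀ a b, a ∉ S → b ∉ S → G.Adj a b → H.Adj a b := by
    intro a b ha hb hab
    have := hadj a b hab (by rw [hfn a ha, hfn b hb]; exact hab.ne)
    rwa [hfn a ha, hfn b hb] at this
  by_cases hs : s0 ∈ X
  · -- the contracted vertex is deleted
    have hsK : s0 ∉ Finset.univ \ S := fun h => mem_co.mp h hs0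
    have hXK : (X ∩ (Finset.univ \ S)).card ≤ 1 := by
      have h1 : X ∩ (Finset.univ \ S) ⊆ X.erase s0 := by
        intro x hx
        obtain ⟨h1, h2⟩ := Finset.mem_inter.mp hx
        refine Finset.mem_erase.mpr ⟨?_, h1⟩
        rintro rfl
        exact hsK h2
      have h2 := Finset.card_le_card h1
      rw [Finset.card_erase_of_mem hs] at h2
      omega
    have hset : insert s0 (Finset.univ \ S) \ X =
        (Finset.univ \ S) \ (X ∩ (Finset.univ \ S)) := by
      ext t
      simp only [Finset.mem_sdiff, Finset.mem_insert, Finset.mem_univ, true_and,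
        Finset.mem_inter]
      constructor
      · rintro ⟨rfl | h1, h2⟩
        · exact absurd hs h2
        · exact ⟨h1, fun h => h2 h.1⟩
      · rintro ⟨h1, h2⟩
        exact ⟨Or.inr h1, fun h => h2 ⟨h, h1⟩⟩
    rw [hset]
    rcases Nat.le_one_iff_eq_zero_or_eq_one.mp hXK with h | h
    · rw [Finset.card_eq_zero.mp h, Finset.sdiff_empty]
      exact hK.cn.mono fun a ha b hb => hadj' a b (mem_co.mp ha) (mem_co.mp hb)
    · obtain ⟨x, hx⟩ := Finset.card_eq_one.mp h
      have hxK : x ∈ Finset.univ \ S := by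
        have : x ∈ X ∩ (Finset.univ \ S) := by
          rw [hx]
          exact Finset.mem_singleton_self x
        exact (Finset.mem_inter.mp this).2
      rw [hx, Finset.sdiff_singleton_eq_erase]
      exact (hK.del x hxK).mono fun a ha b hb => hadj' a b
        (mem_co.mp (Finset.mem_of_mem_erase ha)) (mem_co.mp (Finset.mem_of_mem_erase hb))
  · -- the contracted vertex is not deleted
    refine ⟨⟨s0, Finset.mem_sdiff.mpr ⟨Finset.mem_insert_self _ _, hs⟩⟩, ?_⟩
    intro B hB hBn hBne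
    let X' : Finset V := X \ S
    have hX' : X'.card < 3 := lt_of_le_of_lt (Finset.card_le_card Finset.sdiff_subset) (by omega)
    obtain ⟨-, h1⟩ := h3 X' hX'
    let B' : Finset V := (Finset.univ \ X').filter (fun v => f v ∈ B)
    have hBX : ∀ t ∈ B, t ∉ X := fun t ht => (Finset.mem_sdiff.mp (hB ht)).2
    have hf0 : f s0 = s0 := hfS s0 hs0
    -- representatives
    have hrep : ∀ t ∈ insert s0 (Finset.univ \ S) \ X, f t = t ∧ t ∉ X' := by
      intro t ht
      obtain ⟨h2, h3'⟩ := Finset.mem_sdiff.mp ht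
      refine ⟨?_, fun h4 => h3' (Finset.mem_sdiff.mp h4).1⟩
      rcases Finset.mem_insert.mp h2 with rfl | h4
      · exact hf0
      · exact hfn t (mem_co.mp h4)
    obtain ⟨t, ht⟩ := hBn
    obtain ⟨w, hw, hwB⟩ : ∃ w ∈ insert s0 (Finset.univ \ S) \ X, w ∉ B := by
      by_contra hcon
      push Not at hcon
      exact hBne (Finset.Subset.antisymm hB hcon)
    obtain ⟨a, ha, b, hb, hbB, hab⟩ := h1 B' (Finset.filter_subset _ _)
      ⟨t, Finset.mem_filter.mpr ⟨mem_co.mpr (hrep t (hB ht)).2, by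
        rw [(hrep t (hB ht)).1]
        exact ht⟩⟩ (by
        intro h2
        have h3' : w ∈ Finset.univ \ X' := mem_co.mpr (hrep w hw).2
        rw [← h2] at h3'
        have := (Finset.mem_filter.mp h3').2
        rw [(hrep w hw).1] at this
        exact hwB this)
    have haB : f a ∈ B := (Finset.mem_filter.mp ha).2
    have hfb : f b ∉ B := fun h => hbB (Finset.mem_filter.mpr ⟨hb, h⟩)
    refine ⟨f a, haB, f b, ?_, hfb, hadj a b hab fun h => hfb (h ▸ haB)⟩
    by_cases hbS : b ∈ S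
    · rw [hfS b hbS]
      exact Finset.mem_sdiff.mpr ⟨Finset.mem_insert_self _ _, hs⟩
    · rw [hfn b hbS]
      refine Finset.mem_sdiff.mpr ⟨Finset.mem_insert_of_mem (mem_co.mpr hbS), fun h => ?_⟩
      exact mem_co.mp hb (Finset.mem_sdiff.mpr ⟨h, hbS⟩)

theorem contract_card {S : Finset V} {s0 : V} (hs0 : s0 ∈ S) (hK : Two G (Finset.univ \ S)) :
    4 ≤ (insert s0 ((↑S : Set V)ᶜ)).ncard := by
  have h1 : (insert s0 ((↑S : Set V)ᶜ)) = ((insert s0 (Finset.univ \ S) : Finset V) : Set V) := by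
    ext t
    simp
  rw [h1, Set.ncard_coe_finset, Finset.card_insert_of_notMem (fun h => mem_co.mp h hs0)]
  have := hK.card
  omega

theorem contract_conn {S : Finset V} {s0 : V} (hs0 : s0 ∈ S) (hK : Two G (Finset.univ \ S))
    (h3 : ∀ X : Finset V, X.card < 3 → Cn G (Finset.univ \ X)) (f : V → V)
    (hfS : ∀ a ∈ S, f a = s0) (hfn : ∀ a, a ∉ S → f a = a) (X : Finset V) (hX : X.card ≤ 2) :
    ((SimpleGraph.fromRel (fun x y : V => ∃ a b, G.Adj a b ∧ f a = x ∧ f b = y)).induce
      (insert s0 ((↑S : Set V)ᶜ) \ (↑X : Set V))).Connected := by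
  have h1 : (insert s0 ((↑S : Set V)ᶜ) \ (↑X : Set V)) =
      ((insert s0 (Finset.univ \ S) \ X : Finset V) : Set V) := by
    ext t
    simp
  rw [h1, conn_iff]
  exact contract_cn hs0 hK h3 f hfS hfn X hX

/-! ### translation of the hypotheses -/

theorem conn_compl {X : Finset V} :
    (G.induce ((↑X : Set V)ᶜ)).Connected ↔ Cn G (Finset.univ \ X) := by
  rw [← conn_iff]
  have h1 : ((↑X : Set V)ᶜ) = ((Finset.univ \ X : Finset V) : Set V) := by
    ext t
    simp
  rw [h1]

theorem conn_nbd {z c : V} :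
    (G.induce (G.neighborSet z \ {c})).Connected ↔ Cn G (nbd G z c) := by
  rw [← conn_iff]
  have h1 : (G.neighborSet z \ {c}) = ((nbd G z c : Finset V) : Set V) := by
    ext t
    simp [nbd]
  rw [h1]

theorem bad_coe {c : V} :
    {z : V | z ≠ c ∧ ¬ (G.induce (G.neighborSet z \ {c})).Connected} = ↑(bad G c) := by
  ext z
  simp only [Set.mem_ofPred_eq, Finset.mem_coe, mem_bad, conn_nbd]

end Pool.Agent.Lib.MP_d9512b_co.Loc
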