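import Mathlib
import Pool.Agent.Lib.MP_d9512b_co.LocC

set_option autoImplicit false

/-!
# The two theorems in terms of induced subgraphs
-/

namespace Pool.Agent.Lib.MP_d9512b_co.Loc

open Finset Classical

variable {V : Type} [Fintype V] {G : SimpleGraph V}

omit [Fintype V] in
/-- `T` is connected and its contraction is 3-connected; `f` maps `T` to `s0` and fixes the other
vertices. -/
def GoodSet (G : SimpleGraph V) (T : Finset V) : Prop :=
  (G.induce (↑T : Set V)).Connected ∧ T.Nonempty ∧ ∀ s0 ∈ T,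
    4 ≤ (insert s0 ((↑T : Set V)ᶜ)).ncard ∧ ∀ f : V → V, (∀ a ∈ T, f a = s0) →
      (∀ a, a ∉ T → f a = a) → ∀ X : Finset V, X.card ≤ 2 →
    ((SimpleGraph.fromRel (fun x y : V => ∃ a b, G.Adj a b ∧ f a = x ∧ f b = y)).induce
      (insert s0 ((↑T : Set V)ᶜ) \ (↑X : Set V))).Connected

theorem goodSet_of {T : Finset V} (hT : Cn G T) (hK : Two G (Finset.univ \ T))
    (h3 : ∀ X : Finset V, X.card < 3 → Cn G (Finset.univ \ X)) : GoodSet G T :=
  ⟨conn_iff.mpr hT, hT.1, fun _ hs0 => ⟨contract_card hs0 hK,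
    fun f hfS hfn X hX => contract_conn hs0 hK h3 f hfS hfn X hX⟩⟩

theorem final_conn {m : ℕ} (hm : 3 ≤ m) (hmV : m < Fintype.card V)
    (hconn : ∀ X : Finset V, X.card < m → (G.induce ((↑X : Set V)ᶜ)).Connected)
    (hbad : ∀ c : V, {z : V | z ≠ c ∧ ¬ (G.induce (G.neighborSet z \ {c})).Connected}.ncard + 2 ≤ m)
    (n : ℕ) (hn : 1 ≤ n) (hn3 : n + 3 ≤ Fintype.card V) :
    ∃ T : Finset V, T.card = n ∧ GoodSet G T := by
  have hc : ∀ X : Finset V, X.card < m → Cn G (Finset.univ \ X) := fun X hX =>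
    conn_compl.mp (hconn X hX)
  obtain ⟨T, hTn, hT, hK⟩ := all_conn hm hmV hc (fun c => by
    have := hbad c
    rw [bad_coe, Set.ncard_coe_finset] at this
    exact this) n hn hn3
  exact ⟨T, hTn, goodSet_of hT hK fun X hX => hc X (by omega)⟩

theorem final_edge
    (hconn : ∀ X : Finset V, X.card < 3 → (G.induce ((↑X : Set V)ᶜ)).Connected)
    {x y : V} (hxy : G.Adj x y)
    (hb : ∀ c, c ≠ x → c ≠ y →
      (x ∉ {z : V | z ≠ c ∧ ¬ (G.induce (G.neighborSet z \ {c})).Connected} ∨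
        y ∉ {z : V | z ≠ c ∧ ¬ (G.induce (G.neighborSet z \ {c})).Connected}) ∧
      ∀ X ⊆ {z : V | z ≠ c ∧ ¬ (G.induce (G.neighborSet z \ {c})).Connected},
        (G.induce (insert c X)ᶜ).Connected)
    (n : ℕ) (hn : 1 ≤ n) (hn3 : n + 3 ≤ Fintype.card V) :
    ∃ T : Finset V, T.card = n ∧ x ∉ T ∧ y ∉ T ∧ GoodSet G T := by
  have hc : ∀ X : Finset V, X.card < 3 → Cn G (Finset.univ \ X) := fun X hX =>
    conn_compl.mp (hconn X hX)
  obtain ⟨T, hTn, hx, hy, hT, hK⟩ := all_edge hc hxy (fun c hcx hcy => by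
      have := (hb c hcx hcy).1
      simpa only [bad_coe, Finset.mem_coe] using this) (fun c hcx hcy X hX => by
      have := (hb c hcx hcy).2 ↑X (by
        rw [bad_coe]
        exact_mod_cast hX)
      rw [← conn_compl]
      have h1 : ((insert c X : Finset V) : Set V) = insert c (↑X : Set V) := by
        ext t
        simp
      rw [h1]
      exact this) n hn hn3
  exact ⟨T, hTn, hx, hy, goodSet_of hT hK hc⟩

end Pool.Agent.Lib.MP_d9512b_co.Loc
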