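import Pool.Agent.Lib.MP_d9512b_co.Base

set_option autoImplicit false

/-!
Menger's theorem for sets of vertices (proof of Göring: deletion of an edge), with connected sets
in place of paths.
-/

namespace Pool.Agent.Lib.MP_d9512b_co

open Set

variable {V : Type*}

/-- `Z` separates `A` from `B`. -/
def Sepr (G : SimpleGraph V) (Z A B : Set V) : Prop := ∀ a ∈ A, ∀ b ∈ B, ¬ Rc G Zᶜ a b

theorem Sepr.symm {G : SimpleGraph V} {Z A B : Set V} (h : Sepr G Z A B) : Sepr G Z B A :=
  fun b hb a ha h1 => h a ha b hb h1.symm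

/-- Menger's theorem for the graph `G`. -/
def MengerP (G : SimpleGraph V) : Prop :=
  ∀ (A B : Set V) (k : ℕ), (∀ Z : Set V, Sepr G Z A B → k ≤ Z.ncard) →
    ∃ C : Fin k → Set V, (∀ i, Con G (C i)) ∧ (∀ i, (C i ∩ A).Nonempty) ∧
      (∀ i, (C i ∩ B).Nonempty) ∧ ∀ i j, i ≠ j → ∀ z ∈ C i, z ∉ C j

theorem exists_fin_inj [Finite V] {S : Set V} {k : ℕ} (h : k ≤ S.ncard) :
    ∃ f : Fin k → V, Function.Injective f ∧ ∀ i, f i ∈ S := by
  classical
  have : Fintype V := Fintype.ofFinite V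
  rw [← Nat.card_coe_set_eq, Nat.card_eq_fintype_card] at h
  obtain ⟨f⟩ := Function.Embedding.nonempty_of_card_le (α := Fin k) (β := S) (by simpa using h)
  exact ⟨fun i => f i, Subtype.val_injective.comp f.injective, fun i => (f i).2⟩

theorem menger_aux {G G' : SimpleGraph V} {x y b : V} {A B S Z : Set V}
    (h1 : ∀ p q, G.Adj p q → G'.Adj p q ∨ (p = x ∧ q = y) ∨ (p = y ∧ q = x))
    (hS : Sepr G' S A B) (hb : b ∈ B) (hyb : Rc G' Sᶜ y b)
    (hZ : Sepr G' Z A (insert x S)) : Sepr G Z A B := by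
  intro a' ha' b' hb' h
  have h2 : cmp G' Zᶜ a' ⊆ Sᶜ := fun z hz hzS => hZ a' ha' z (Or.inr hzS) hz
  have h3 : b' ∈ cmp G' Zᶜ a' := by
    refine h.mem_closed (X := cmp G' Zᶜ a') (mem_cmp_self h.left_mem) ?_
    intro p hp q hq hpq
    rcases h1 p q hpq with h4 | ⟨h4, -⟩ | ⟨h4, -⟩
    · exact cmp_closed hp hq h4
    · exfalso
      exact hZ a' ha' x (Or.inl rfl) (h4 ▸ hp)
    · exfalso
      have h5 : Rc G' (cmp G' Zᶜ a') a' y := rc_cmp (h4 ▸ hp)
      exact hS a' ha' b hb ((h5.mono h2).trans hyb)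
  exact hS a' ha' b' hb' ((rc_cmp h3).mono h2)

theorem menger_trim [Finite V] {G' : SimpleGraph V} {k : ℕ} {A P : Set V} {C : Fin k → Set V}
    (hC : ∀ i, Con G' (C i)) (hA : ∀ i, (C i ∩ A).Nonempty) (hP : ∀ i, (C i ∩ P).Nonempty)
    (hd : ∀ i j, i ≠ j → ∀ z ∈ C i, z ∉ C j) (hk : P.ncard = k) :
    ∃ (p : Fin k → V) (C' : Fin k → Set V), Function.Injective p ∧ (∀ i, p i ∈ P) ∧
      (∀ s ∈ P, ∃ i, p i = s) ∧ (∀ i, Con G' (C' i)) ∧ (∀ i, C' i ⊆ C i) ∧
      (∀ i, p i ∈ C' i) ∧ (∀ i, (C' i ∩ A).Nonempty) ∧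
      ∀ i, ∀ z ∈ C' i, z ≠ p i → ∃ a ∈ A, Rc G' Pᶜ a z := by
  classical
  choose a ha using hA
  choose p hp using hP
  have hinj : Function.Injective p := by
    intro i j hij
    by_contra hne
    exact hd i j hne _ (hp i).1 (hij ▸ (hp j).1)
  have hsurj : ∀ s ∈ P, ∃ i, p i = s := by
    intro s hs
    have h1 : range p = P := by
      apply eq_of_subset_of_ncard_le
      · rintro _ ⟨i, rfl⟩
        exact (hp i).2
      · rw [hk, ← image_univ, ncard_image_of_injective _ hinj, ncard_univ]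
        simp
      · exact toFinite _
    rw [← h1] at hs
    exact hs
  have hCP : ∀ i, C i \ {p i} ⊆ Pᶜ := by
    rintro i z ⟨hz, hzp⟩ hzP
    obtain ⟨j, rfl⟩ := hsurj z hzP
    by_cases hij : i = j
    · exact hzp (by rw [hij]; rfl)
    · exact hd i j hij _ hz (hp j).1
  refine ⟨p, fun i => if a i = p i then {p i} else insert (p i) (cmp G' (C i \ {p i}) (a i)),
    hinj, fun i => (hp i).2, hsurj, ?_, ?_, ?_, ?_, ?_⟩
  · intro i
    dsimp only
    split_ifs with h
    · exact con_singleton _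
    · have h1 : a i ∈ C i \ {p i} := ⟨(ha i).1, h⟩
      obtain ⟨c, hc, d, hd1, h2, h3, h4⟩ := (hC i).exists_edge (X := cmp G' (C i \ {p i}) (a i))
        (mem_cmp_self h1) (ha i).1 (y := p i) (fun h5 => (cmp_subset h5).2 rfl) (hp i).1
      have h5 : d = p i := by
        by_contra hne
        exact hd1 (cmp_closed hc ⟨h3, hne⟩ h4)
      subst h5
      exact (con_cmp h1).ins hc h4
  · intro i
    dsimp only
    split_ifs with h
    · exact singleton_subset_iff.2 (hp i).1
    · exact insert_subset (hp i).1 (cmp_subset.trans sdiff_subset)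
  · intro i
    dsimp only
    split_ifs with h
    · rfl
    · exact Or.inl rfl
  · intro i
    dsimp only
    split_ifs with h
    · exact ⟨p i, rfl, h ▸ (ha i).2⟩
    · exact ⟨a i, Or.inr (mem_cmp_self ⟨(ha i).1, h⟩), (ha i).2⟩
  · intro i z hz hzp
    dsimp only at hz
    split_ifs at hz with h
    · exact absurd hz hzp
    · rcases hz with hz | hz
      · exact absurd hz hzp
      · exact ⟨a i, (ha i).2, Rc.mono hz (hCP i)⟩

theorem menger_step [Finite V] {G G' : SimpleGraph V} {x y a b : V} {A B S : Set V} {k : ℕ}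
    (hxy : G.Adj x y) (hle : G' ≤ G)
    (h1 : ∀ p q, G.Adj p q → G'.Adj p q ∨ (p = x ∧ q = y) ∨ (p = y ∧ q = x))
    (ih : MengerP G') (hk : ∀ Z : Set V, Sepr G Z A B → k ≤ Z.ncard)
    (hS : Sepr G' S A B) (hSk : S.ncard < k) (ha : a ∈ A) (hb : b ∈ B)
    (hax : Rc G' Sᶜ a x) (hyb : Rc G' Sᶜ y b) :
    ∃ C : Fin k → Set V, (∀ i, Con G (C i)) ∧ (∀ i, (C i ∩ A).Nonempty) ∧
      (∀ i, (C i ∩ B).Nonempty) ∧ ∀ i j, i ≠ j → ∀ z ∈ C i, z ∉ C j := by
  classical
  have hxS : x ∉ S := hax.right_mem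
  have hyS : y ∉ S := hyb.left_mem
  have hne : x ≠ y := hxy.ne
  have h1' : ∀ p q, G.Adj p q → G'.Adj p q ∨ (p = y ∧ q = x) ∨ (p = x ∧ q = y) :=
    fun p q h => (h1 p q h).imp_right Or.symm
  have hPsep : Sepr G (insert x S) A B := by
    intro a' ha' b' hb' h
    refine hS a' ha' b' hb' (h.induct (P := fun z => Rc G' Sᶜ a' z) ?_ ?_)
    · exact Rc.refl fun h2 => h.left_mem (Or.inr h2)
    · intro p q hp ih hq hpq
      have hq' : q ∈ Sᶜ := fun h2 => hq (Or.inr h2)
      rcases h1 p q hpq with h4 | ⟨h4, -⟩ | ⟨-, h4⟩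
      · exact ih.tail h4 hq'
      · exact absurd (Or.inl h4) hp.right_mem
      · exact absurd (Or.inl h4) hq
  have hPc : (insert x S).ncard = S.ncard + 1 := ncard_insert_of_notMem hxS
  have hQc : (insert y S).ncard = S.ncard + 1 := ncard_insert_of_notMem hyS
  have hkS : S.ncard + 1 = k := by
    have := hk _ hPsep
    omega
  obtain ⟨C, hC, hCA, hCP, hCd⟩ := ih A (insert x S) k
    fun Z hZ => hk Z (menger_aux h1 hS hb hyb hZ)
  obtain ⟨D, hD, hDB, hDQ, hDd⟩ := ih B (insert y S) k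
    fun Z hZ => hk Z (menger_aux h1' hS.symm ha hax.symm hZ).symm
  obtain ⟨p, C', hp, hpP, -, hC', hC'C, hpC', hC'A, hCr⟩ :=
    menger_trim hC hCA hCP hCd (by omega)
  obtain ⟨q, D', hq, hqQ, hqs, hD', hD'D, hqD', hD'B, hDr⟩ :=
    menger_trim hD hDB hDQ hDd (by omega)
  have hσ : ∀ i, ∃ j, q j = if p i = x then y else p i := by
    intro i
    apply hqs
    split_ifs with h
    · exact Or.inl rfl
    · exact Or.inr ((hpP i).resolve_left h)
  choose σ hσ using hσ
  have hmS : ∀ {R : Set V}, S ⊆ R → Rᶜ ⊆ Sᶜ := fun h => compl_subset_compl.2 h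
  have cross : ∀ i j, ∀ z ∈ C' i, z ∈ D' j → z = p i ∧ z = q j := by
    intro i j z hz hz'
    by_cases e1 : z = p i
    · by_cases e2 : z = q j
      · exact ⟨e1, e2⟩
      · exfalso
        obtain ⟨b', hb', h2⟩ := hDr j z hz' e2
        rcases hpP i with h3 | h3
        · rw [e1, h3] at h2
          exact hS a ha b' hb' (hax.trans (h2.mono (hmS (subset_insert _ _))).symm)
        · exact h2.right_mem (Or.inr (e1 ▸ h3))
    · exfalso
      obtain ⟨a', ha', h2⟩ := hCr i z hz e1
      by_cases e2 : z = q j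
      · rcases hqQ j with h3 | h3
        · rw [e2, h3] at h2
          exact hS a' ha' b hb ((h2.mono (hmS (subset_insert _ _))).trans hyb)
        · exact h2.right_mem (Or.inr (e2 ▸ h3))
      · obtain ⟨b', hb', h3⟩ := hDr j z hz' e2
        exact hS a' ha' b' hb' ((h2.mono (hmS (subset_insert _ _))).trans
          (h3.mono (hmS (subset_insert _ _))).symm)
  have cross' : ∀ i j, i ≠ j → ∀ z ∈ C' i, z ∉ D' (σ j) := by
    intro i j hij z hz hz'
    obtain ⟨e1, e2⟩ := cross i (σ j) z hz hz'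
    rw [hσ j] at e2
    split_ifs at e2 with h
    · rcases hpP i with h3 | h3
      · exact hne (by rw [← h3, ← e1, e2])
      · exact hyS (by rw [← e2, e1]; exact h3)
    · exact hij (hp (e1.symm.trans e2))
  refine ⟨fun i => C' i ∪ D' (σ i), ?_, ?_, ?_, ?_⟩
  · intro i
    by_cases h : p i = x
    · refine ((hC' i).mono_graph hle).union_adj ((hD' (σ i)).mono_graph hle) (x := x) (y := y)
        (h ▸ hpC' i) ?_ hxy
      have h2 := hσ i
      rw [if_pos h] at h2
      exact h2 ▸ hqD' (σ i)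
    · refine ((hC' i).mono_graph hle).union ((hD' (σ i)).mono_graph hle) (x := p i) (hpC' i) ?_
      have h2 := hσ i
      rw [if_neg h] at h2
      exact h2 ▸ hqD' (σ i)
  · intro i
    obtain ⟨z, hz, hzA⟩ := hC'A i
    exact ⟨z, Or.inl hz, hzA⟩
  · intro i
    obtain ⟨z, hz, hzB⟩ := hD'B (σ i)
    exact ⟨z, Or.inr hz, hzB⟩
  · intro i j hij z hz hz'
    have hσij : σ i ≠ σ j := by
      intro e
      have h2 := hσ i
      rw [e, hσ j] at h2
      apply hij
      apply hp
      by_cases hi : p i = x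
      · by_cases hj : p j = x
        · rw [hi, hj]
        · rw [if_neg hj, if_pos hi] at h2
          exfalso
          rcases hpP j with h3 | h3
          · exact hj h3
          · exact hyS (h2 ▸ h3)
      · by_cases hj : p j = x
        · rw [if_pos hj, if_neg hi] at h2
          exfalso
          rcases hpP i with h3 | h3
          · exact hi h3
          · exact hyS (h2 ▸ h3)
        · rw [if_neg hj, if_neg hi] at h2
          exact h2.symm
    rcases hz with hz | hz <;> rcases hz' with hz' | hz'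
    · exact hCd i j hij z (hC'C i hz) (hC'C j hz')
    · exact cross' i j hij z hz hz'
    · exact cross' j i hij.symm z hz' hz
    · exact hDd _ _ hσij z (hD'D _ hz) (hD'D _ hz')

theorem menger_all [Finite V] (m : ℕ) : ∀ G : SimpleGraph V, G.edgeSet.ncard = m → MengerP G := by
  induction m with
  | zero =>
    intro G hG A B k hk
    have h0 : ∀ p q, ¬ G.Adj p q := by
      intro p q h
      have h1 : s(p, q) ∈ G.edgeSet := h
      rw [ncard_eq_zero (toFinite _)] at hG
      rw [hG] at h1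
      exact h1
    have h1 : k ≤ (A ∩ B).ncard := by
      apply hk
      intro a ha b hb h
      have h2 : b = a := h.induct (P := fun z => z = a) rfl (fun p q _ _ _ h => absurd h (h0 p q))
      subst h2
      exact h.left_mem ⟨ha, hb⟩
    obtain ⟨f, hf, hfS⟩ := exists_fin_inj h1
    refine ⟨fun i => {f i}, fun i => con_singleton _, fun i => ⟨f i, rfl, (hfS i).1⟩,
      fun i => ⟨f i, rfl, (hfS i).2⟩, ?_⟩
    intro i j hij z hz hz'
    rw [mem_singleton_iff] at hz hz'
    exact hij (hf (hz.symm.trans hz'))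
  | succ m ih =>
    intro G hG A B k hk
    have hne : G.edgeSet.Nonempty := by
      rw [← ncard_pos (toFinite _)]
      omega
    obtain ⟨e, he⟩ := hne
    induction e using Sym2.ind with
    | _ x y =>
    have hxy : G.Adj x y := he
    set G' := G.deleteEdges {s(x, y)} with hG'
    have hle : G' ≤ G := SimpleGraph.deleteEdges_le _
    have hmp : MengerP G' := by
      apply ih
      rw [hG', SimpleGraph.edgeSet_deleteEdges, ncard_sdiff_singleton_of_mem he]
      omega
    have h1 : ∀ p q, G.Adj p q → G'.Adj p q ∨ (p = x ∧ q = y) ∨ (p = y ∧ q = x) := by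
      intro p q hpq
      by_cases h : s(p, q) = s(x, y)
      · right
        simpa using h
      · left
        rw [hG', SimpleGraph.deleteEdges_adj]
        exact ⟨hpq, h⟩
    by_cases hall : ∀ Z : Set V, Sepr G' Z A B → k ≤ Z.ncard
    · obtain ⟨C, hC, h2⟩ := hmp A B k hall
      exact ⟨C, fun i => (hC i).mono_graph hle, h2⟩
    · push Not at hall
      obtain ⟨S, hS, hSk⟩ := hall
      have h2 : ¬ Sepr G S A B := fun h => by
        have := hk S h
        omega
      unfold Sepr at h2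
      push Not at h2
      obtain ⟨a, ha, b, hb, hab⟩ := h2
      have key : ∀ a b, Rc G Sᶜ a b → ¬ Rc G' Sᶜ a b → Rc G' Sᶜ a x ∨ Rc G' Sᶜ a y := by
        intro a b hab hab'
        obtain ⟨p, hp, q, hq, -, hqS, hpq, -⟩ := hab.exists_edge (X := cmp G' Sᶜ a)
          (mem_cmp_self hab.left_mem) hab'
        rcases h1 p q hpq with h4 | ⟨h4, -⟩ | ⟨h4, -⟩
        · exact absurd (cmp_closed hp hqS h4) hq
        · exact Or.inl (h4 ▸ hp)
        · exact Or.inr (h4 ▸ hp)
      have h3 := key a b hab (hS a ha b hb)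
      have h4 := key b a hab.symm (fun h => hS a ha b hb h.symm)
      rcases h3 with h3 | h3
      · rcases h4 with h4 | h4
        · exact absurd (h3.trans h4.symm) (hS a ha b hb)
        · exact menger_step hxy hle h1 hmp hk hS hSk ha hb h3 h4.symm
      · rcases h4 with h4 | h4
        · exact menger_step hxy.symm hle (fun p q h => (h1 p q h).imp_right Or.symm) hmp hk hS hSk
            ha hb h3 h4.symm
        · exact absurd (h3.trans h4.symm) (hS a ha b hb)

/-- Menger's theorem inside a set `U`: disjoint connected subsets of `U`, adjacent to the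
nonadjacent vertices `x` and `y` outside of `U`. -/
theorem menger [Finite V] (G : SimpleGraph V) {U : Set V} {x y : V} {k : ℕ} (hxU : x ∉ U)
    (hyU : y ∉ U) (hxy : ¬ G.Adj x y) (hne : x ≠ y)
    (h : ∀ Z ⊆ U, Z.ncard < k → Rc G ((U \ Z) ∪ {x, y}) x y) :
    ∃ C : Fin k → Set V, (∀ i, Con G (C i)) ∧ (∀ i, C i ⊆ U) ∧
      (∀ i, ∃ z ∈ C i, G.Adj x z) ∧ (∀ i, ∃ z ∈ C i, G.Adj y z) ∧
      ∀ i j, i ≠ j → ∀ z ∈ C i, z ∉ C j := by
  classical
  set G' : SimpleGraph V := ⟨fun a b => G.Adj a b ∧ a ∈ U ∧ b ∈ U,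
    ⟨fun a b h => ⟨h.1.symm, h.2.2, h.2.1⟩⟩, ⟨fun a h => h.1.ne rfl⟩⟩ with hG'
  have hle : G' ≤ G := fun a b h => h.1
  have hin : ∀ {W : Set V} {a b : V}, Rc G' W a b → a ∈ U → Rc G (U ∩ W) a b := by
    intro W a b hab ha
    exact hab.induct (P := fun z => Rc G (U ∩ W) a z) (Rc.refl ⟨ha, hab.left_mem⟩)
      (fun p q _ h2 hq hpq => h2.tail hpq.1 ⟨hpq.2.2, hq⟩)
  obtain ⟨C, hC, hCA, hCB, hCd⟩ := menger_all _ G' rfl {z | z ∈ U ∧ G.Adj x z}
    {z | z ∈ U ∧ G.Adj y z} k (by
      intro Z hZ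
      by_contra hlt
      push Not at hlt
      have h1 := h (Z ∩ U) inter_subset_right
        (lt_of_le_of_lt (ncard_le_ncard inter_subset_left (toFinite _)) hlt)
      have h2 : U \ (Z ∩ U) = U \ Z := by
        ext z
        constructor
        · rintro ⟨h3, h4⟩
          exact ⟨h3, fun h5 => h4 ⟨h5, h3⟩⟩
        · rintro ⟨h3, h4⟩
          exact ⟨h3, fun h5 => h4 h5.1⟩
      rw [h2] at h1
      -- the set of all vertices reachable from the neighbours of `x`
      have h3 : y ∈ insert x {z | ∃ a, a ∈ U ∧ G.Adj x a ∧ Rc G' Zᶜ a z} := by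
        refine h1.mem_closed (Or.inl rfl) ?_
        rintro p (rfl | ⟨a, haU, hxa, hap⟩) q hq hpq
        · rcases hq with ⟨hq1, hq2⟩ | (rfl | hq)
          · exact Or.inr ⟨q, hq1, hpq, Rc.refl hq2⟩
          · exact Or.inl rfl
          · rw [mem_singleton_iff] at hq
            subst hq
            exact absurd hpq hxy
        · rcases hq with ⟨hq1, hq2⟩ | (rfl | hq)
          · refine Or.inr ⟨a, haU, hxa, hap.tail ⟨hpq, ?_, hq1⟩ hq2⟩
            exact (hin hap haU).right_mem.1
          · exact Or.inl rfl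
          · rw [mem_singleton_iff] at hq
            subst hq
            exact absurd hap (hZ a ⟨haU, hxa⟩ p ⟨(hin hap haU).right_mem.1, hpq.symm⟩)
      rcases h3 with h3 | ⟨a, haU, -, hay⟩
      · exact hne h3.symm
      · exact hyU (hin hay haU).right_mem.1)
  have hCU : ∀ i, C i ⊆ U := by
    intro i z hz
    obtain ⟨a, ha, haU, -⟩ := hCA i
    exact (hin ((hC i).2 a ha z hz) haU).right_mem.1
  refine ⟨C, fun i => (hC i).mono_graph hle, hCU, ?_, ?_, hCd⟩
  · intro i
    obtain ⟨z, hz, -, hz2⟩ := hCA i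
    exact ⟨z, hz, hz2⟩
  · intro i
    obtain ⟨z, hz, -, hz2⟩ := hCB i
    exact ⟨z, hz, hz2⟩

end Pool.Agent.Lib.MP_d9512b_co
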