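import Pool.Agent.Lib.MP_d9512b_co.Ball
import Pool.Agent.Lib.MP_81e58e_co.LRamsey

set_option autoImplicit false

/-!
A vertex of large degree has a large homogeneous set of neighbours which is not separated by
few of its elements together with one further vertex.
-/

namespace Pool.Agent.Lib.MP_d9512b_co

open Set

variable {V : Type*} {G : SimpleGraph V} {w x x' y z : V} {A B : Set V}

/-- The set of deleted vertices. -/
def Zs (w y : V) (B : Set V) : Set V := insert w (insert y B)

theorem notMem_Zs : z ∉ Zs w y B ↔ z ≠ w ∧ z ≠ y ∧ z ∉ B := by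
  unfold Zs
  rw [mem_insert_iff, mem_insert_iff]
  tauto

/-- The graph without `w` and `B` is not `2`-connected. -/
def Bad (G : SimpleGraph V) (w : V) (B : Set V) : Prop :=
  ∃ y, y ≠ w ∧ y ∉ B ∧ ∃ p q, p ∉ Zs w y B ∧ q ∉ Zs w y B ∧ ¬ Rc G (Zs w y B)ᶜ p q

/-- Four disjoint connections. -/
theorem Cn5.exists_sys [Finite V] (h : Cn5 G) (hxw : x ≠ w) (hx'w : x' ≠ w) (hne : x ≠ x')
    (hn : ¬ G.Adj x x') :
    ∃ R : Fin 4 → Set V, (∀ i, Con G (R i)) ∧ (∀ i, ∀ z ∈ R i, z ≠ w ∧ z ≠ x ∧ z ≠ x') ∧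
      (∀ i, ∃ z ∈ R i, G.Adj x z) ∧ (∀ i, ∃ z ∈ R i, G.Adj x' z) ∧
      ∀ i j, i ≠ j → ∀ z ∈ R i, z ∉ R j := by
  obtain ⟨R, h1, h2, h3, h4, h5⟩ := menger (k := 4) G (U := {z | z ≠ w ∧ z ≠ x ∧ z ≠ x'})
    (x := x) (y := x') (fun h => h.2.1 rfl) (fun h => h.2.2 rfl) hn hne (by
      intro Z hZ hZ4
      have h6 := h.2 (insert w Z) ((ncard_insert_le _ _).trans (by omega)) x x'
        (by
          rintro (h7 | h7)
          · exact hxw h7
          · exact (hZ h7).2.1 rfl)
        (by
          rintro (h7 | h7)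
          · exact hx'w h7
          · exact (hZ h7).2.2 rfl)
      refine h6.mono ?_
      intro z hz
      by_cases hzx : z = x
      · exact Or.inr (Or.inl hzx)
      · by_cases hzx' : z = x'
        · exact Or.inr (Or.inr hzx')
        · exact Or.inl ⟨⟨fun e => hz (Or.inl e), hzx, hzx'⟩, fun e => hz (Or.inr e)⟩)
  exact ⟨R, h1, fun i z hz => h2 i hz, h3, h4, h5⟩

theorem exists_enum (l : ℕ) (I : Finset ℕ) (hI : I ⊆ Finset.range l) :
    ∃ s : ℕ → ℕ, StrictMono s ∧ (∀ i, i < I.card → s i ∈ I) ∧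
      (∀ j ∈ I, ∃ i, i < I.card ∧ s i = j) ∧ ∀ i, I.card ≤ i → s i = l + i := by
  refine ⟨fun i => if h : i < I.card then I.orderEmbOfFin rfl ⟨i, h⟩ else l + i, ?_, ?_, ?_, ?_⟩
  · intro a b hab
    by_cases hb : b < I.card
    · have ha : a < I.card := hab.trans hb
      simp only [dif_pos ha, dif_pos hb]
      exact (I.orderEmbOfFin rfl).strictMono (by simpa using hab)
    · simp only [dif_neg hb]
      by_cases ha : a < I.card
      · simp only [dif_pos ha]
        have h1 := Finset.orderEmbOfFin_mem I rfl ⟨a, ha⟩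
        have h2 := Finset.mem_range.1 (hI h1)
        omega
      · simp only [dif_neg ha]
        omega
  · intro i hi
    simp only [dif_pos hi]
    exact Finset.orderEmbOfFin_mem I rfl ⟨i, hi⟩
  · intro j hj
    have h1 : j ∈ range (I.orderEmbOfFin rfl) := by
      rw [Finset.range_orderEmbOfFin]
      exact hj
    obtain ⟨⟨i, hi⟩, hij⟩ := h1
    refine ⟨i, hi, ?_⟩
    simp only [dif_pos hi]
    exact hij
  · intro i hi
    simp only [dif_neg (not_lt.2 hi)]

/-- The homogeneous set of neighbours. -/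
theorem ram (n L : ℕ) : ∃ N : ℕ, ∀ (V : Type) [Finite V] (G : SimpleGraph V) (_ : Cn5 G) (w : V),
    N ≤ (Nb G {w}).ncard → ∃ A ⊆ Nb G {w}, L ≤ A.ncard ∧
      (∀ B ⊆ A, ∀ B' ⊆ A, B.ncard = B'.ncard → B.ncard ≤ n → Bad G w B → Bad G w B') ∧
      ∀ B ⊆ A, ∀ x ∈ A, x ∉ B → ∀ x' ∈ A, x' ∉ B → ∀ y, y ≠ w → y ∉ B → y ≠ x → y ≠ x' →
        Rc G (Zs w y B)ᶜ x x' := by
  classical
  obtain ⟨N, hN⟩ := CodegDens.ramsey ((Fin (n + 1) → Prop) × Option (Fin 4) × Option (Fin 4))
    (n + 3) (L + 2 + (n + 3))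
  refine ⟨N, fun V _ G h w hdeg => ?_⟩
  -- the neighbours
  obtain ⟨e0, he0, he0w⟩ := exists_fin_inj hdeg
  set e : ℕ → V := fun i => if hi : i < N then e0 ⟨i, hi⟩ else w with he
  have einj : ∀ i j, i < N → j < N → e i = e j → i = j := by
    intro i j hi hj hij
    simp only [he, dif_pos hi, dif_pos hj] at hij
    simpa using he0 hij
  have ew : ∀ i, i < N → e i ∈ Nb G {w} := by
    intro i hi
    simp only [he, dif_pos hi]
    exact he0w _
  -- the systems of connections
  have hsys : ∀ x x' : V, ∃ R : Fin 4 → Set V, x ≠ w → x' ≠ w → x ≠ x' → ¬ G.Adj x x' →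
      (∀ i, Con G (R i)) ∧ (∀ i, ∀ z ∈ R i, z ≠ w ∧ z ≠ x ∧ z ≠ x') ∧
      (∀ i, ∃ z ∈ R i, G.Adj x z) ∧ (∀ i, ∃ z ∈ R i, G.Adj x' z) ∧
      ∀ i j, i ≠ j → ∀ z ∈ R i, z ∉ R j := by
    intro x x'
    by_cases hc : x ≠ w ∧ x' ≠ w ∧ x ≠ x' ∧ ¬ G.Adj x x'
    · obtain ⟨R, hR⟩ := h.exists_sys hc.1 hc.2.1 hc.2.2.1 hc.2.2.2
      exact ⟨R, fun _ _ _ _ => hR⟩
    · exact ⟨fun _ => ∅, fun h1 h2 h3 h4 => absurd ⟨h1, h2, h3, h4⟩ hc⟩
  choose R hR using hsys
  set col : V → V → V → Option (Fin 4) := fun x x' z =>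
    if hl : ∃ l, z ∈ R x x' l then some hl.choose else none with hcol
  have hcol' : ∀ x x' z l, x ≠ w → x' ≠ w → x ≠ x' → ¬ G.Adj x x' → z ∈ R x x' l →
      col x x' z = some l := by
    intro x x' z l h1 h2 h3 h4 hz
    have hl : ∃ l, z ∈ R x x' l := ⟨l, hz⟩
    simp only [hcol, dif_pos hl]
    by_contra hne
    have hne' : l ≠ hl.choose := fun e => hne (by rw [← e])
    exact (hR x x' h1 h2 h3 h4).2.2.2.2 l hl.choose hne' z hz hl.choose_spec
  -- the colouring
  obtain ⟨J, hJ, hJN, hJf⟩ := hN (fun s => (fun b => Bad G w {v | ∃ i < (b : ℕ), v = e (s i)},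
    col (e (s 0)) (e (s 2)) (e (s 1)), col (e (s 0)) (e (s 1)) (e (s 2)))) (by
      intro s s' hss
      have h0 := hss 0 (by omega)
      have h1 := hss 1 (by omega)
      have h2 := hss 2 (by omega)
      simp only [Prod.mk.injEq]
      refine ⟨?_, by rw [h0, h1, h2], by rw [h0, h1, h2]⟩
      funext b
      have hb := b.2
      have h3 : {v | ∃ i < (b : ℕ), v = e (s i)} = {v | ∃ i < (b : ℕ), v = e (s' i)} := by
        ext v
        constructor
        · rintro ⟨i, hi, rfl⟩
          exact ⟨i, hi, by rw [hss i (by omega)]⟩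
        · rintro ⟨i, hi, rfl⟩
          exact ⟨i, hi, by rw [hss i (by omega)]⟩
      rw [h3])
  set a : ℕ → V := fun i => e (J i) with ha
  have haw : ∀ i, i < L + 2 → a i ∈ Nb G {w} := fun i hi => ew _ (hJN i (by omega))
  have hane : ∀ i, i < L + 2 → a i ≠ w := fun i hi e => (haw i hi).1 e
  have hainj : ∀ i j, i < L + 2 → j < L + 2 → a i = a j → i = j := by
    intro i j hi hj hij
    exact hJ.injective (einj _ _ (hJN i (by omega)) (hJN j (by omega)) hij)
  set A : Set V := {v | ∃ i, 2 ≤ i ∧ i < L + 2 ∧ v = a i} with hA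
  -- triples
  have htri : ∀ i j k i' j' k' : ℕ, i < j → j < k → k < L + 2 → i' < j' → j' < k' → k' < L + 2 →
      col (a i) (a k) (a j) = col (a i') (a k') (a j') ∧
      col (a i) (a j) (a k) = col (a i') (a j') (a k') := by
    intro i j k i' j' k' hij hjk hk hij' hjk' hk'
    have hsm : ∀ i j k : ℕ, i < j → j < k → k < L + 2 → StrictMono (fun r : ℕ =>
        if r = 0 then i else if r = 1 then j else if r = 2 then k else L + 2 + r) := by
      intro i j k hij hjk hk
      apply strictMono_nat_of_lt_succ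
      intro r
      rcases r with _ | _ | _ | r
      · simpa using hij
      · simpa using hjk
      · simp
        omega
      · simp
    have hbd : ∀ i j k : ℕ, i < j → j < k → k < L + 2 → ∀ r, r < n + 3 →
        (if r = 0 then i else if r = 1 then j else if r = 2 then k else L + 2 + r) <
          L + 2 + (n + 3) := by
      intro i j k hij hjk hk r hr
      split_ifs <;> omega
    have := hJf _ _ (hsm i j k hij hjk hk) (hbd i j k hij hjk hk) (hsm i' j' k' hij' hjk' hk')
      (hbd i' j' k' hij' hjk' hk')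
    simp only [Prod.mk.injEq] at this
    simpa using this.2
  -- connections from the first two neighbours
  have hmain : ∀ i0, i0 < 2 → ∀ B ⊆ A, ∀ x ∈ A, x ∉ B → ∀ y, y ≠ w → y ∉ B → y ≠ x →
      y ≠ a i0 → Rc G (Zs w y B)ᶜ (a i0) x := by
    intro i0 hi0 B hB x hx hxB y hyw hyB hyx hy0
    obtain ⟨p, hp2, hpL, rfl⟩ := hx
    have h0w : a i0 ≠ w := hane i0 (by omega)
    have hpw : a p ≠ w := hane p hpL
    have h0B : a i0 ∉ B := by
      intro h1
      obtain ⟨k, hk2, hkL, hk⟩ := hB h1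
      have := hainj i0 k (by omega) hkL hk
      omega
    have h0p : a i0 ≠ a p := fun e => by
      have := hainj i0 p (by omega) hpL e
      omega
    have h0Z : a i0 ∈ (Zs w y B)ᶜ := notMem_Zs.2 ⟨h0w, hy0.symm, h0B⟩
    have hpZ : a p ∈ (Zs w y B)ᶜ := notMem_Zs.2 ⟨hpw, hyx.symm, hxB⟩
    by_cases hadj : G.Adj (a i0) (a p)
    · exact Rc.adj h0Z hpZ hadj
    · obtain ⟨hR1, hR2, hR3, hR4, hR5⟩ := hR (a i0) (a p) h0w hpw h0p hadj
      -- the colours of elements of `B`
      have hB2 : ∃ κ1 κ2 : Option (Fin 4), ∀ b ∈ B, col (a i0) (a p) b = κ1 ∨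
          col (a i0) (a p) b = κ2 := by
        by_cases hL : 3 ≤ L + 2
        · refine ⟨col (a 0) (a 2) (a 1), col (a 0) (a 1) (a 2), ?_⟩
          intro b hb
          obtain ⟨k, hk2, hkL, rfl⟩ := hB hb
          have hkp : k ≠ p := by
            rintro rfl
            exact hxB hb
          rcases lt_or_gt_of_ne hkp with hlt | hlt
          · exact Or.inl (htri i0 k p 0 1 2 (by omega) hlt hpL (by omega) (by omega) (by omega)).1
          · exact Or.inr (htri i0 p k 0 1 2 (by omega) hlt hkL (by omega) (by omega) (by omega)).2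
        · omega
      obtain ⟨κ1, κ2, hκ⟩ := hB2
      obtain ⟨l, hl1, hl2, hl3⟩ : ∃ l : Fin 4, some l ≠ κ1 ∧ some l ≠ κ2 ∧
          y ∉ R (a i0) (a p) l := by
        by_contra hcon
        push Not at hcon
        obtain ⟨l, l', hne, hll⟩ := Fintype.exists_ne_map_eq_of_card_lt
          (fun l : Fin 4 => if some l = κ1 then (0 : Fin 3) else if some l = κ2 then 1 else 2)
          (by simp)
        by_cases h1 : some l = κ1
        · by_cases h1' : some l' = κ1
          · exact hne (Option.some_injective _ (h1.trans h1'.symm))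
          · rw [if_pos h1, if_neg h1'] at hll
            split_ifs at hll <;> revert hll <;> decide
        · by_cases h1' : some l' = κ1
          · rw [if_neg h1, if_pos h1'] at hll
            split_ifs at hll <;> revert hll <;> decide
          · rw [if_neg h1, if_neg h1'] at hll
            by_cases h2 : some l = κ2
            · by_cases h2' : some l' = κ2
              · exact hne (Option.some_injective _ (h2.trans h2'.symm))
              · rw [if_pos h2, if_neg h2'] at hll
                revert hll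
                decide
            · by_cases h2' : some l' = κ2
              · rw [if_neg h2, if_pos h2'] at hll
                revert hll
                decide
              · exact hR5 l l' hne y (hcon l h1 h2) (hcon l' h1' h2')
      have hRZ : R (a i0) (a p) l ⊆ (Zs w y B)ᶜ := by
        intro z hz
        refine notMem_Zs.2 ⟨(hR2 l z hz).1, fun e => hl3 (e ▸ hz), fun hzB => ?_⟩
        have h1 := hcol' (a i0) (a p) z l h0w hpw h0p hadj hz
        rcases hκ z hzB with h2 | h2
        · exact hl1 (h1.symm.trans h2)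
        · exact hl2 (h1.symm.trans h2)
      have hN0 : a i0 ∈ Nb G (R (a i0) (a p) l) := by
        obtain ⟨z, hz, hz2⟩ := hR3 l
        exact ⟨fun h1 => (hR2 l _ h1).2.1 rfl, z, hz, hz2.symm⟩
      have hNp : a p ∈ Nb G (R (a i0) (a p) l) := by
        obtain ⟨z, hz, hz2⟩ := hR4 l
        exact ⟨fun h1 => (hR2 l _ h1).2.2 rfl, z, hz, hz2.symm⟩
      exact nb_link (hR1 l) hN0 hNp hRZ h0Z hpZ
  refine ⟨A, ?_, ?_, ?_, ?_⟩
  · rintro _ ⟨i, -, hi, rfl⟩
    exact haw i hi
  · have h1 : (a '' (Finset.Ico 2 (L + 2) : Set ℕ)).ncard = L := by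
      rw [InjOn.ncard_image, ncard_coe_finset, Nat.card_Ico]
      · omega
      · intro i hi j hj hij
        rw [Finset.mem_coe, Finset.mem_Ico] at hi hj
        exact hainj i j hi.2 hj.2 hij
    have h2 : a '' (Finset.Ico 2 (L + 2) : Set ℕ) ⊆ A := by
      rintro _ ⟨i, hi, rfl⟩
      rw [Finset.mem_coe, Finset.mem_Ico] at hi
      exact ⟨i, hi.1, hi.2, rfl⟩
    calc L = _ := h1.symm
      _ ≤ _ := ncard_le_ncard h2 (toFinite _)
  · -- homogeneity
    have hen : ∀ B ⊆ A, B.ncard ≤ n → ∃ s : ℕ → ℕ, StrictMono s ∧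
        (∀ i, i < n + 3 → s i < L + 2 + (n + 3)) ∧ {v | ∃ i < B.ncard, v = a (s i)} = B := by
      intro B hB hBn
      set I : Finset ℕ := (Finset.Ico 2 (L + 2)).filter (fun i => a i ∈ B) with hI
      have hIa : a '' (I : Set ℕ) = B := by
        ext v
        constructor
        · rintro ⟨i, hi, rfl⟩
          rw [Finset.mem_coe, hI, Finset.mem_filter] at hi
          exact hi.2
        · intro hv
          obtain ⟨i, hi2, hiL, rfl⟩ := hB hv
          refine ⟨i, ?_, rfl⟩
          rw [Finset.mem_coe, hI, Finset.mem_filter, Finset.mem_Ico]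
          exact ⟨⟨hi2, hiL⟩, hv⟩
      have hIr : I ⊆ Finset.range (L + 2) := by
        intro i hi
        rw [hI, Finset.mem_filter, Finset.mem_Ico] at hi
        exact Finset.mem_range.2 hi.1.2
      have hIc : I.card = B.ncard := by
        rw [← hIa, InjOn.ncard_image, ncard_coe_finset]
        intro i hi j hj hij
        exact hainj i j (Finset.mem_range.1 (hIr hi)) (Finset.mem_range.1 (hIr hj)) hij
      obtain ⟨s, hs, hs1, hs2, hs3⟩ := exists_enum (L + 2) I hIr
      refine ⟨s, hs, ?_, ?_⟩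
      · intro i hi
        by_cases hic : i < I.card
        · have := Finset.mem_range.1 (hIr (hs1 i hic))
          omega
        · rw [hs3 i (not_lt.1 hic)]
          omega
      · rw [← hIc]
        conv_rhs => rw [← hIa]
        ext v
        constructor
        · rintro ⟨i, hi, rfl⟩
          exact ⟨s i, hs1 i hi, rfl⟩
        · rintro ⟨j, hj, rfl⟩
          obtain ⟨i, hi, rfl⟩ := hs2 j hj
          exact ⟨i, hi, rfl⟩
    intro B hB B' hB' hBB hBn hbad
    obtain ⟨s, hs, hsb, hsB⟩ := hen B hB hBn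
    obtain ⟨s', hs', hsb', hsB'⟩ := hen B' hB' (hBB ▸ hBn)
    have h1 := hJf s s' hs hsb hs' hsb'
    simp only [Prod.mk.injEq] at h1
    have h2 := congrFun h1.1 ⟨B.ncard, by omega⟩
    have h3 : Bad G w {v | ∃ i < B.ncard, v = a (s i)} := by
      rw [hsB]
      exact hbad
    have h4 : Bad G w {v | ∃ i < B.ncard, v = a (s' i)} := by
      have h5 : Bad G w {v | ∃ i < B.ncard, v = a (s i)} =
        Bad G w {v | ∃ i < B.ncard, v = a (s' i)} := h2
      exact h5 ▸ h3
    rw [hBB, hsB'] at h4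
    exact h4
  · intro B hB x hx hxB x' hx' hxB' y hyw hyB hyx hyx'
    by_cases hL : L = 0
    · obtain ⟨i, hi1, hi2, -⟩ := hx
      omega
    · have h01 : a 0 ≠ a 1 := fun e => by
        have := hainj 0 1 (by omega) (by omega) e
        omega
      by_cases hy0 : y = a 0
      · have hy1 : y ≠ a 1 := fun e => h01 (hy0.symm.trans e)
        exact (hmain 1 (by omega) B hB x hx hxB y hyw hyB hyx hy1).symm.trans
          (hmain 1 (by omega) B hB x' hx' hxB' y hyw hyB hyx' hy1)
      · exact (hmain 0 (by omega) B hB x hx hxB y hyw hyB hyx hy0).symm.trans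
          (hmain 0 (by omega) B hB x' hx' hxB' y hyw hyB hyx' hy0)

end Pool.Agent.Lib.MP_d9512b_co
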