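import Pool.Agent.Lib.MP_d9512b_co.Ram

set_option autoImplicit false

/-!
A vertex of large degree: separations given by bad sets of neighbours, and stars whose complement
is solid.
-/

namespace Pool.Agent.Lib.MP_d9512b_co

open Set

variable {V : Type} {G : SimpleGraph V} {w x x' y y' y1 y2 y3 z z' a : V}
  {A B B1 B2 B3 U U1 U2 U3 Q W S : Set V}

/-! ### Separations -/

/-- The vertex `y` and the connected set `U` belong to the set `B` of neighbours of `w`. -/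
structure Sp (G : SimpleGraph V) (w : V) (A B : Set V) (y : V) (U : Set V) : Prop where
  con : Con G U
  notW : w ∉ U
  notA : ∀ z ∈ U, z ∉ A
  nb : ∀ z ∈ Nb G U, z = w ∨ z = y ∨ z ∈ B
  sub : ∀ c ∈ B, c ∈ Nb G U
  yNb : y ∈ Nb G U

theorem exists_sp [Finite V] (hwA : w ∉ A) (hB : B ⊆ A) (hne : B.Nonempty)
    (hcard : B.ncard + 2 ≤ A.ncard) (hbad : Bad G w B) (hmin : ∀ c ∈ B, ¬ Bad G w (B \ {c}))
    (hdag : ∀ x ∈ A, x ∉ B → ∀ x' ∈ A, x' ∉ B → ∀ y, y ≠ w → y ∉ B → y ≠ x → y ≠ x' →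
      Rc G (Zs w y B)ᶜ x x') :
    ∃ y U, Sp G w A B y U := by
  obtain ⟨y, hyw, hyB, p, q, hp, hq, hpq⟩ := hbad
  obtain ⟨x, hxA, hxy⟩ : ∃ x ∈ A, x ∉ insert y B := by
    by_contra hcon
    push Not at hcon
    have h1 := ncard_le_ncard (show A ⊆ insert y B from hcon) (toFinite _)
    have h2 := ncard_insert_le y B
    omega
  have hxB : x ∉ B := fun h => hxy (Or.inr h)
  have hxy' : x ≠ y := fun h => hxy (Or.inl h)
  have hxw : x ≠ w := fun h => hwA (h ▸ hxA)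
  obtain ⟨z, hz, hzx⟩ : ∃ z, z ∉ Zs w y B ∧ ¬ Rc G (Zs w y B)ᶜ z x := by
    by_cases hpx : Rc G (Zs w y B)ᶜ p x
    · exact ⟨q, hq, fun h => hpq (hpx.trans h.symm)⟩
    · exact ⟨p, hp, hpx⟩
  have hzZ := notMem_Zs.1 hz
  have hUZ : ∀ c ∈ cmp G (Zs w y B)ᶜ z, c ≠ w ∧ c ≠ y ∧ c ∉ B := fun c hc =>
    notMem_Zs.1 (cmp_subset hc)
  refine ⟨y, cmp G (Zs w y B)ᶜ z, ⟨con_cmp hz, fun h => (hUZ w h).1 rfl, ?_, ?_, ?_, ?_⟩⟩
  · intro c hc hcA
    have h1 := hUZ c hc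
    exact hzx (Rc.trans hc (hdag c hcA h1.2.2 x hxA hxB y hyw hyB h1.2.1.symm hxy'.symm))
  · intro c hc
    have h1 := notMem_of_mem_nb_cmp hc
    by_contra hcon
    push Not at hcon
    exact h1 (notMem_Zs.2 hcon)
  · intro c hc
    by_contra hcN
    have hcU : c ∉ cmp G (Zs w y B)ᶜ z := fun h => (hUZ c h).2.2 hc
    have h1 := hmin c hc
    unfold Bad at h1
    push Not at h1
    have h2 := h1 y hyw (fun h => hyB h.1) z x (notMem_Zs.2 ⟨hzZ.1, hzZ.2.1, fun h => hzZ.2.2 h.1⟩)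
      (notMem_Zs.2 ⟨hxw, hxy', fun h => hxB h.1⟩)
    refine hzx (h2.mem_closed (X := cmp G (Zs w y B)ᶜ z) (mem_cmp_self hz) ?_)
    intro e he f hf hef
    have hf' := notMem_Zs.1 hf
    have hfc : f ≠ c := by
      rintro rfl
      exact hcN ⟨hcU, e, he, hef⟩
    exact cmp_closed he (notMem_Zs.2 ⟨hf'.1, hf'.2.1, fun h => hf'.2.2 ⟨h, hfc⟩⟩) hef
  · by_contra hyN
    have hyU : y ∉ cmp G (Zs w y B)ᶜ z := fun h => (hUZ y h).2.1 rfl
    obtain ⟨c, hc⟩ := hne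
    have hcw : c ≠ w := fun h => hwA (h ▸ hB hc)
    have h1 := hmin c hc
    unfold Bad at h1
    push Not at h1
    have h2 := h1 c hcw (fun h => h.2 rfl) z x
      (notMem_Zs.2 ⟨hzZ.1, fun h => hzZ.2.2 (h ▸ hc), fun h => hzZ.2.2 h.1⟩)
      (notMem_Zs.2 ⟨hxw, fun h => hxB (h ▸ hc), fun h => hxB h.1⟩)
    refine hzx (h2.mem_closed (X := cmp G (Zs w y B)ᶜ z) (mem_cmp_self hz) ?_)
    intro e he f hf hef
    have hf' := notMem_Zs.1 hf
    have hfy : f ≠ y := by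
      rintro rfl
      exact hyN ⟨hyU, e, he, hef⟩
    exact cmp_closed he (notMem_Zs.2 ⟨hf'.1, hfy, fun h => hf'.2.2 ⟨h, hf'.2.1⟩⟩) hef

theorem Sp.q (h : Sp G w A B y U) (hB : B ⊆ A) (hz : z ∈ Nb G U) (hzw : z ≠ w) (hzA : z ∉ A) :
    z = y := by
  rcases h.nb z hz with h1 | h1 | h1
  · exact absurd h1 hzw
  · exact h1
  · exact absurd (hB h1) hzA

/-- A connected set outside of `A` and `w` which meets `U` but not `y` lies in `U`. -/
theorem Sp.subset (h : Sp G w A B y U) (hB : B ⊆ A) (hW : Con G W) (hWw : w ∉ W)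
    (hWA : ∀ z ∈ W, z ∉ A) (hyW : y ∉ W) (hz : z ∈ W) (hzU : z ∈ U) : W ⊆ U := by
  intro c hc
  by_contra hcU
  obtain ⟨p, hp, q, hq, -, hqW, hpq⟩ := hW.exists_edge (X := U) hzU hz hcU hc
  have := h.q hB ⟨hq, p, hp, hpq⟩ (fun e => hWw (e ▸ hqW)) (hWA q hqW)
  exact hyW (this ▸ hqW)

theorem Sp.sep (h1 : Sp G w A B1 y1 U1) (h2 : Sp G w A B2 y2 U2) (hB1 : B1 ⊆ A) (hB2 : B2 ⊆ A)
    (hwA : w ∉ A) (hd : ∃ d ∈ B2, ∃ d' ∈ B2, d ≠ d' ∧ d ∉ B1 ∧ d' ∉ B1) (hy : y1 ∉ U2) :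
    (∀ z ∈ U1, z ∉ U2) ∧ y2 ∉ U1 := by
  have hdis : ∀ z ∈ U1, z ∉ U2 := by
    intro z hz hz'
    have hsub := h1.subset hB1 h2.con h2.notW h2.notA hy hz' hz
    obtain ⟨d, hd, d', hd', hne, hdB, hdB'⟩ := hd
    have key : ∀ c ∈ B2, c ∉ B1 → c = y1 := by
      intro c hc hcB
      obtain ⟨-, e, he, hec⟩ := h2.sub c hc
      have h3 : c ∈ Nb G U1 := ⟨fun h => h1.notA c h (hB2 hc), e, hsub he, hec⟩
      rcases h1.nb c h3 with h4 | h4 | h4
      · exact absurd (h4 ▸ hB2 hc) hwA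
      · exact h4
      · exact absurd h4 hcB
    exact hne ((key d hd hdB).trans (key d' hd' hdB').symm)
  refine ⟨hdis, fun h => ?_⟩
  obtain ⟨-, c, hc, hcy⟩ := h2.yNb
  have h3 : c ∈ Nb G U1 := ⟨fun h' => hdis c h' hc, y2, h, hcy.symm⟩
  have h4 := h1.q hB1 h3 (fun e => h2.notW (e ▸ hc)) (h2.notA c hc)
  exact hy (h4 ▸ hc)

theorem Sp.three (h1 : Sp G w A B1 y1 U1) (h2 : Sp G w A B2 y2 U2) (h3 : Sp G w A B3 y3 U3)
    (hB1 : B1 ⊆ A) (hB2 : B2 ⊆ A) (hB3 : B3 ⊆ A) (hwA : w ∉ A)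
    (m12 : y1 ∈ U2) (m21 : y2 ∈ U1) (m13 : y1 ∈ U3) (hd : ∃ d ∈ B3, d ∉ B1 ∧ d ∉ B2) :
    False := by
  -- `U1 ∪ U2` is closed outside of `A` and `w`
  have hcl : ∀ q ∈ Nb G (U1 ∪ U2), q = w ∨ q ∈ A := by
    rintro q ⟨hq, c, hc, hcq⟩
    by_contra hcon
    push Not at hcon
    rcases hc with hc | hc
    · have := h1.q hB1 ⟨fun h => hq (Or.inl h), c, hc, hcq⟩ hcon.1 hcon.2
      exact hq (Or.inr (this ▸ m12))
    · have := h2.q hB2 ⟨fun h => hq (Or.inr h), c, hc, hcq⟩ hcon.1 hcon.2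
      exact hq (Or.inl (this ▸ m21))
  have hsub : U3 ⊆ U1 ∪ U2 := by
    intro c hc
    by_contra hcU
    obtain ⟨p, hp, q, hq, -, hqW, hpq⟩ := h3.con.exists_edge (X := U1 ∪ U2) (x := y1)
      (Or.inr m12) m13 hcU hc
    rcases hcl q ⟨hq, p, hp, hpq⟩ with h | h
    · exact h3.notW (h ▸ hqW)
    · exact h3.notA q hqW h
  obtain ⟨d, hd, hd1, hd2⟩ := hd
  obtain ⟨-, c, hc, hcd⟩ := h3.sub d hd
  have hdw : d ≠ w := fun e => hwA (e ▸ hB3 hd)
  rcases hsub hc with hc | hc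
  · rcases h1.nb d ⟨fun h => h1.notA d h (hB3 hd), c, hc, hcd⟩ with h | h | h
    · exact hdw h
    · exact h2.notA y1 m12 (h ▸ hB3 hd)
    · exact hd1 h
  · rcases h2.nb d ⟨fun h => h2.notA d h (hB3 hd), c, hc, hcd⟩ with h | h | h
    · exact hdw h
    · exact h1.notA y2 m21 (h ▸ hB3 hd)
    · exact hd2 h

/-! ### Families -/

/-- A family of separations for the sets `c ∪ D l` with disjoint sets `D l`. -/
structure Fam (G : SimpleGraph V) (w : V) (A : Set V) (D : ℕ → Set V) (c : V) (P : ℕ → Prop)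
    (yf : ℕ → V) (Uf : ℕ → Set V) : Prop where
  sp : ∀ l, P l → Sp G w A (insert c (D l)) (yf l) (Uf l)
  wA : w ∉ A
  cA : c ∈ A
  sub : ∀ l, P l → D l ⊆ A
  cD : ∀ l, P l → c ∉ D l
  two : ∀ l, P l → ∃ d ∈ D l, ∃ d' ∈ D l, d ≠ d'
  dis : ∀ l, P l → ∀ l', P l' → l ≠ l' → ∀ z ∈ D l, z ∉ D l'

section Fam

variable {D : ℕ → Set V} {c : V} {P : ℕ → Prop} {yf : ℕ → V} {Uf : ℕ → Set V} {l l' : ℕ}

theorem Fam.subA (F : Fam G w A D c P yf Uf) (hl : P l) : insert c (D l) ⊆ A :=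
  insert_subset F.cA (F.sub l hl)

theorem Fam.new (F : Fam G w A D c P yf Uf) (hl : P l) (hl' : P l') (hne : l ≠ l') :
    ∃ d ∈ insert c (D l'), ∃ d' ∈ insert c (D l'), d ≠ d' ∧ d ∉ insert c (D l) ∧
      d' ∉ insert c (D l) := by
  obtain ⟨d, hd, d', hd', h⟩ := F.two l' hl'
  have key : ∀ e ∈ D l', e ∉ insert c (D l) := by
    rintro e he (rfl | h1)
    · exact F.cD l' hl' he
    · exact F.dis l hl l' hl' hne e h1 he
  exact ⟨d, Or.inr hd, d', Or.inr hd', h, key d hd, key d' hd'⟩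

theorem Fam.dich (F : Fam G w A D c P yf Uf) (hl : P l) (hl' : P l') (hne : l ≠ l') :
    ((∀ z ∈ Uf l, z ∉ Uf l') ∧ yf l ∉ Uf l' ∧ yf l' ∉ Uf l) ∨
      (yf l ∈ Uf l' ∧ yf l' ∈ Uf l) := by
  by_cases h1 : yf l ∈ Uf l'
  · by_cases h2 : yf l' ∈ Uf l
    · exact Or.inr ⟨h1, h2⟩
    · have := (F.sp l' hl').sep (F.sp l hl) (F.subA hl') (F.subA hl) F.wA (F.new hl' hl hne.symm) h2
      exact absurd h1 this.2
  · have := (F.sp l hl).sep (F.sp l' hl') (F.subA hl) (F.subA hl') F.wA (F.new hl hl' hne) h1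
    exact Or.inl ⟨this.1, h1, this.2⟩

theorem Fam.one (F : Fam G w A D c P yf Uf) {l1 l2 l3 : ℕ} (h1 : P l1) (h2 : P l2) (h3 : P l3)
    (n13 : l1 ≠ l3) (n23 : l2 ≠ l3) (m12 : yf l1 ∈ Uf l2)
    (m21 : yf l2 ∈ Uf l1) (m13 : yf l1 ∈ Uf l3) : False := by
  refine (F.sp l1 h1).three (F.sp l2 h2) (F.sp l3 h3) (F.subA h1) (F.subA h2) (F.subA h3) F.wA
    m12 m21 m13 ?_
  obtain ⟨d, hd, -⟩ := F.two l3 h3
  refine ⟨d, Or.inr hd, ?_, ?_⟩
  · rintro (rfl | h)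
    · exact F.cD l3 h3 hd
    · exact F.dis l1 h1 l3 h3 n13 d h hd
  · rintro (rfl | h)
    · exact F.cD l3 h3 hd
    · exact F.dis l2 h2 l3 h3 n23 d h hd

/-- Each vertex lies in at most two of the sets. -/
theorem Fam.count (F : Fam G w A D c P yf Uf) {T : Set ℕ} (hT : T.Finite) (x : V) :
    {l | l ∈ T ∧ P l ∧ x ∈ Uf l}.ncard ≤ 2 := by
  by_contra hcon
  have hfin : {l | l ∈ T ∧ P l ∧ x ∈ Uf l}.Finite := hT.subset fun l hl => hl.1
  obtain ⟨l1, l2, l3, h1, h2, h3, n12, n13, n23⟩ := (two_lt_ncard_iff hfin).1 (by omega)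
  have m12 := (F.dich h1.2.1 h2.2.1 n12).resolve_left fun h => h.1 x h1.2.2 h2.2.2
  have m13 := (F.dich h1.2.1 h3.2.1 n13).resolve_left fun h => h.1 x h1.2.2 h3.2.2
  exact F.one h1.2.1 h2.2.1 h3.2.1 n13 n23 m12.1 m12.2 m13.1

end Fam

/-! ### Attached sets -/

/-- Connected subsets of `Q` with at most one neighbour in `Q`, which contain few of the vertices
`yf l`. -/
def Att (G : SimpleGraph V) (Q : Set V) (T : Set ℕ) (yf : ℕ → V) (n : ℕ) (W : Set V) : Prop :=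
  Con G W ∧ W ⊆ Q ∧ (∃ z, ∀ q ∈ Nb G W, q ∈ Q → q = z) ∧ {j | j ∈ T ∧ yf j ∈ W}.ncard ≤ n

theorem att_bound [Finite V] {T : Set ℕ} (hT : T.Finite) {yf : ℕ → V} {n : ℕ} (v : V) :
    {j | j ∈ T ∧ ∃ W, Att G Q T yf n W ∧ v ∈ W ∧ yf j ∈ W}.ncard ≤ 2 * n := by
  by_cases hex : ∃ W, Att G Q T yf n W ∧ v ∈ W
  · obtain ⟨W1, ⟨hW1, hv1⟩, hmax⟩ : ∃ W1, (Att G Q T yf n W1 ∧ v ∈ W1) ∧
        ∀ W, (Att G Q T yf n W ∧ v ∈ W) → W1 ⊆ W → W ⊆ W1 := by
      obtain ⟨W1, h1, h2⟩ := (toFinite {W : Set V | Att G Q T yf n W ∧ v ∈ W}).exists_maximal hex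
      exact ⟨W1, h1, fun W hW hle => h2 hW hle⟩
    have hf : ∀ W : Set V, {j | j ∈ T ∧ yf j ∈ W}.Finite := fun W => hT.subset fun j hj => hj.1
    by_cases hall : ∀ W, (Att G Q T yf n W ∧ v ∈ W) → W ⊆ W1
    · have h1 : {j | j ∈ T ∧ ∃ W, Att G Q T yf n W ∧ v ∈ W ∧ yf j ∈ W} ⊆
          {j | j ∈ T ∧ yf j ∈ W1} := by
        rintro j ⟨hj, W, hW, hv, hyj⟩
        exact ⟨hj, hall W ⟨hW, hv⟩ hyj⟩
      have h2 := ncard_le_ncard h1 (hf W1)
      have h3 := hW1.2.2.2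
      omega
    · push Not at hall
      obtain ⟨W2, ⟨hW2, hv2⟩, hnot⟩ := hall
      obtain ⟨c1, -, ⟨z1, hz1⟩, hn1⟩ := id hW1
      obtain ⟨c2, -, ⟨z2, hz2⟩, hn2⟩ := id hW2
      have hz12 : z1 ∈ W2 := by
        obtain ⟨e, he, he1⟩ := not_subset.1 hnot
        obtain ⟨p, hp, q, hq, -, hqW, hpq⟩ := c2.exists_edge (X := W1) hv1 hv2 he1 he
        exact hz1 q ⟨hq, p, hp, hpq⟩ (hW2.2.1 hqW) ▸ hqW
      have hz21 : z2 ∈ W1 := by
        have hnot' : ¬ W1 ⊆ W2 := fun h => hnot (hmax W2 ⟨hW2, hv2⟩ h)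
        obtain ⟨e, he, he1⟩ := not_subset.1 hnot'
        obtain ⟨p, hp, q, hq, -, hqW, hpq⟩ := c1.exists_edge (X := W2) hv2 hv1 he1 he
        exact hz2 q ⟨hq, p, hp, hpq⟩ (hW1.2.1 hqW) ▸ hqW
      have hcl : ∀ q ∈ Nb G (W1 ∪ W2), q ∉ Q := by
        rintro q ⟨hq, e, he, heq⟩ hqQ
        rcases he with he | he
        · have := hz1 q ⟨fun h => hq (Or.inl h), e, he, heq⟩ hqQ
          exact hq (Or.inr (this ▸ hz12))
        · have := hz2 q ⟨fun h => hq (Or.inr h), e, he, heq⟩ hqQ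
          exact hq (Or.inl (this ▸ hz21))
      have h1 : {j | j ∈ T ∧ ∃ W, Att G Q T yf n W ∧ v ∈ W ∧ yf j ∈ W} ⊆
          {j | j ∈ T ∧ yf j ∈ W1} ∪ {j | j ∈ T ∧ yf j ∈ W2} := by
        rintro j ⟨hj, W, hW, hv, hyj⟩
        have h2 : yf j ∈ W1 ∪ W2 := by
          by_contra hno
          obtain ⟨p, hp, q, hq, -, hqW, hpq⟩ := hW.1.exists_edge (X := W1 ∪ W2) (Or.inl hv1) hv
            hno hyj
          exact hcl q ⟨hq, p, hp, hpq⟩ (hW.2.1 hqW)
        exact h2.imp (fun h => ⟨hj, h⟩) (fun h => ⟨hj, h⟩)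
      have h2 := ncard_le_ncard h1 ((hf W1).union (hf W2))
      have h3 := ncard_union_le {j | j ∈ T ∧ yf j ∈ W1} {j | j ∈ T ∧ yf j ∈ W2}
      omega
  · have h1 : {j | j ∈ T ∧ ∃ W, Att G Q T yf n W ∧ v ∈ W ∧ yf j ∈ W} = ∅ := by
      apply eq_empty_of_forall_notMem
      rintro j ⟨-, W, hW, hv, -⟩
      exact hex ⟨W, hW, hv⟩
    rw [h1, ncard_empty]
    omega

/-! ### Independent sets of indices and blocks -/

theorem exists_indep (r : ℕ → ℕ → Prop) (hr : ∀ i j, r i j → r j i) (d s : ℕ) :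
    ∀ T : Set ℕ, T.Finite → (∀ i ∈ T, {j | j ∈ T ∧ j ≠ i ∧ r i j}.ncard ≤ d) →
      (d + 1) * s ≤ T.ncard → ∃ I ⊆ T, I.ncard = s ∧ ∀ i ∈ I, ∀ j ∈ I, i ≠ j → ¬ r i j := by
  induction s with
  | zero =>
    intro T hT _ _
    exact ⟨∅, empty_subset _, ncard_empty _, fun i hi => absurd hi (notMem_empty i)⟩
  | succ s ih =>
    intro T hT hd hc
    have hne : T.Nonempty := by
      rw [← ncard_pos hT]
      rw [mul_add] at hc
      omega
    obtain ⟨i, hi⟩ := hne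
    have hsub : T \ (insert i {j | j ∈ T ∧ j ≠ i ∧ r i j}) ⊆ T := sdiff_subset
    have hc' : (d + 1) * s ≤ (T \ (insert i {j | j ∈ T ∧ j ≠ i ∧ r i j})).ncard := by
      have h1 := ncard_insert_le i {j | j ∈ T ∧ j ≠ i ∧ r i j}
      have h2 := hd i hi
      have h3 := le_ncard_sdiff (insert i {j | j ∈ T ∧ j ≠ i ∧ r i j}) T
        ((hT.subset fun j hj => hj.1).insert i)
      rw [mul_add, mul_one] at hc
      omega
    obtain ⟨I, hI, hIc, hind⟩ := ih _ (hT.subset hsub) (by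
      intro k hk
      refine (ncard_le_ncard ?_ (hT.subset fun j hj => hj.1)).trans (hd k hk.1)
      rintro j ⟨hj, h1, h2⟩
      exact ⟨hj.1, h1, h2⟩) hc'
    have hiI : i ∉ I := fun h => (hI h).2 (Or.inl rfl)
    refine ⟨insert i I, insert_subset hi (hI.trans hsub), ?_, ?_⟩
    · rw [ncard_insert_of_notMem hiI (hT.subset (hI.trans hsub)), hIc]
    · rintro j (rfl | hj) k (rfl | hk) hjk
      · exact absurd rfl hjk
      · intro h
        exact (hI hk).2 (Or.inr ⟨(hI hk).1, hjk.symm, h⟩)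
      · intro h
        exact (hI hj).2 (Or.inr ⟨(hI hj).1, hjk, hr _ _ h⟩)
      · exact hind j hj k hk hjk

theorem exists_blocks [Finite V] (k M : ℕ) : ∀ S : Set V, M * k ≤ S.ncard →
    ∃ D : ℕ → Set V, (∀ l < M, D l ⊆ S ∧ (D l).ncard = k) ∧
      ∀ l < M, ∀ l' < M, l ≠ l' → ∀ z ∈ D l, z ∉ D l' := by
  induction M with
  | zero =>
    intro S _
    exact ⟨fun _ => ∅, fun l hl => absurd hl (Nat.not_lt_zero l),
      fun l hl => absurd hl (Nat.not_lt_zero l)⟩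
  | succ M ih =>
    intro S hS
    rw [add_mul, one_mul] at hS
    obtain ⟨T, hT, hTc⟩ := exists_subset_card_eq (s := S) (n := k) (by omega)
    obtain ⟨D, hD, hdis⟩ := ih (S \ T) (by
      rw [ncard_sdiff hT (toFinite _)]
      omega)
    refine ⟨fun l => if l = M then T else D l, ?_, ?_⟩
    · intro l hl
      dsimp only
      split_ifs with h
      · exact ⟨hT, hTc⟩
      · have := hD l (by omega)
        exact ⟨this.1.trans sdiff_subset, this.2⟩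
    · intro l hl l' hl' hne z hz hz'
      dsimp only at hz hz'
      split_ifs at hz hz' with h1 h2
      · omega
      · exact ((hD l' (by omega)).1 hz').2 hz
      · exact ((hD l (by omega)).1 hz).2 hz'
      · exact hdis l (by omega) l' (by omega) hne z hz hz'

/-- Stars are connected. -/
theorem con_star (h : ∀ z ∈ S, G.Adj a z) : Con G (insert a S) := by
  have h1 : ∀ z ∈ insert a S, Rc G (insert a S) a z := by
    rintro z (rfl | hz)
    · exact Rc.refl (Or.inl rfl)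
    · exact Rc.adj (Or.inl rfl) (Or.inr hz) (h z hz)
  exact ⟨⟨a, Or.inl rfl⟩, fun p hp q hq => (h1 p hp).symm.trans (h1 q hq)⟩

/-- Solid complements. -/
theorem good_of_rc [Finite V] {n : ℕ} {X : Set V} (hX : Con G X) (hc : X.ncard = n)
    (hV : n + 3 ≤ Nat.card V)
    (h : ∀ y, y ∉ X → ∀ p q, p ∉ insert y X → q ∉ insert y X → Rc G (insert y X)ᶜ p q) :
    Good G n X := by
  have hXc : X.ncard + Xᶜ.ncard = Nat.card V := by
    rw [← ncard_univ, ← union_compl_self X, ncard_union_eq disjoint_compl_right (toFinite _)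
      (toFinite _)]
  refine ⟨hc, hX, ?_, by omega⟩
  apply sol_of_rc
  · rw [← ncard_pos (toFinite _)]
    omega
  · intro y p hp q hq hpy hqy
    by_cases hy : y ∈ X
    · obtain ⟨y', hy'⟩ : ∃ y', y' ∉ X ∪ {p, q} := by
        by_contra hcon
        push Not at hcon
        have h1 : (univ : Set V) ⊆ X ∪ {p, q} := fun v _ => hcon v
        have h2 := ncard_le_ncard h1 (toFinite _)
        rw [ncard_univ] at h2
        have h3 := ncard_union_le X {p, q}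
        have h4 : ({p, q} : Set V).ncard ≤ 2 := by
          have := ncard_insert_le p {q}
          rw [ncard_singleton] at this
          exact this
        omega
      have hyp : y' ≠ p := fun e => hy' (Or.inr (Or.inl e))
      have hyq : y' ≠ q := fun e => hy' (Or.inr (Or.inr e))
      refine (h y' (fun e => hy' (Or.inl e)) p q ?_ ?_).mono ?_
      · rintro (e | e)
        · exact hyp e.symm
        · exact hp e
      · rintro (e | e)
        · exact hyq e.symm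
        · exact hq e
      · intro v hv
        refine ⟨fun e => hv (Or.inr e), fun e => hv (Or.inr ?_)⟩
        rw [mem_singleton_iff] at e
        exact e ▸ hy
    · refine (h y hy p q ?_ ?_).mono ?_
      · rintro (e | e)
        · exact hpy e
        · exact hp e
      · rintro (e | e)
        · exact hqy e
        · exact hq e
      · intro v hv
        exact ⟨fun e => hv (Or.inr e), fun e => hv (Or.inl e)⟩
  · obtain ⟨x, hx⟩ := hX.1
    exact ⟨x, fun h => h hx⟩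

end Pool.Agent.Lib.MP_d9512b_co
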